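import Mathlib

/-! [AB-B9] Counting in the tree of components (abstract form). -/

namespace Pool.Agent.helper54.AB

open Finset

/-- The data of section 7: `Q` = the components, `nb` = neighbours, `m` = numbers of edges, `vv` =
numbers of vertices, `deg` = degrees, `tau`. -/
structure Arr (Q : Type) [Fintype Q] [DecidableEq Q] where
  nb : Q → Finset Q
  symm : ∀ K L, L ∈ nb K → K ∈ nb L
  irr : ∀ K, K ∉ nb K
  m : Q → ℕ
  vv : Q → ℕ
  tau : Q → Q → ℕ
  n : ℕ
  sum_v : ∑ K, vv K = n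
  sum_m : ∑ K, m K + 2 = n
  deg_eq : ∀ K, m K + 2 = vv K + (nb K).card
  deg_pos : ∀ K, 1 ≤ (nb K).card
  conn : ∀ P : Q → Prop, (∀ K, ∀ L ∈ nb K, P K → P L) → ∀ K₀, P K₀ → ∀ K, P K
  tau_sum : ∀ K, ∑ L, tau K L = 2 * m K
  tau_nb : ∀ K, ∀ L ∉ nb K, tau K L = 0
  tau_five : ∀ K, 2 ≤ (nb K).card → ∀ L ∈ nb K, 5 ≤ tau K L
  exc : ∀ K, 2 ≤ (nb K).card → 5 * (nb K).card ≤ 2 * m K
  five : ∀ K, 2 ≤ (nb K).card → 2 * vv K + 15 * (nb K).card ≤ 2 * ∑ L, tau L K + 6 * m K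

namespace Arr

variable {Q : Type} [Fintype Q] [DecidableEq Q] (A : Arr Q)

/-- degree -/
def dg (K : Q) : ℕ := (A.nb K).card

/-- the nontree components -/
def NT : Finset Q := univ.filter (fun K => 2 ≤ A.dg K)

/-- the nontree neighbours -/
def ntn (K : Q) : Finset Q := (A.nb K).filter (fun L => 2 ≤ A.dg L)

/-- number of nontree neighbours -/
def s (K : Q) : ℕ := (A.ntn K).card

/-- `2 m - 5 deg` summed over the nontree components -/
def X : ℕ := ∑ K ∈ A.NT, (2 * A.m K - 5 * A.dg K)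

/-- edges in tree components -/
def Y : ℕ := ∑ K ∈ A.NTᶜ, A.m K

/-- components without waste -/
def Fine (K : Q) : Prop :=
  2 * A.m K = 5 * A.dg K ∧ (∀ R ∈ A.nb K, A.dg R = 1 → A.m R = 0) ∧
    ∀ L ∈ A.nb K, 2 ≤ A.dg L → A.tau L K = 5

instance (K : Q) : Decidable (A.Fine K) := by unfold Fine; infer_instance

/-- fine components with one nontree neighbour -/
def Lf : Finset Q := A.NT.filter (fun K => A.Fine K ∧ A.s K = 1)

/-- fine components with two nontree neighbours `K`, both without excess and with at most two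
nontree neighbours -/
def G2 : Finset Q := A.NT.filter (fun L => A.Fine L ∧ A.s L = 2 ∧
  ∀ K ∈ A.ntn L, A.s K ≤ 2 ∧ 2 * A.m K = 5 * A.dg K)

theorem mem_NT {K : Q} : K ∈ A.NT ↔ 2 ≤ A.dg K := by simp [NT]

theorem mem_ntn {K L : Q} : L ∈ A.ntn K ↔ L ∈ A.nb K ∧ 2 ≤ A.dg L := by simp [ntn]

private theorem dg_pos (K : Q) : 1 ≤ A.dg K := A.deg_pos K

private theorem dg_one {K : Q} (h : ¬ 2 ≤ A.dg K) : A.dg K = 1 := by
  have := A.dg_pos K
  omega

/-- a tree component has exactly one neighbour, and it is a nontree component if there is a nontree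
component at all. Proof: if two tree components are neighbours then they are closed under
neighbours, so they are all components (`A.conn`). -/
theorem tree_nb (hN : A.NT.Nonempty) {R : Q} (hR : A.dg R = 1) : ∃ K ∈ A.NT, A.nb R = {K} := by
  obtain ⟨K, hK⟩ := card_eq_one.1 hR
  refine ⟨K, ?_, hK⟩
  rw [mem_NT]
  by_contra h
  have h1 : A.dg K = 1 := A.dg_one h
  have h2 : R ∈ A.nb K := A.symm R K (by rw [hK]; exact mem_singleton_self K)
  obtain ⟨R', hR'⟩ := card_eq_one.1 h1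
  have h3 : R = R' := by
    rw [hR'] at h2
    exact mem_singleton.1 h2
  subst h3
  obtain ⟨L, hL⟩ := hN
  have hL2 := A.mem_NT.1 hL
  rcases A.conn (fun L => L = R ∨ L = K) (by
    rintro M L' hL' (rfl | rfl)
    · rw [hK] at hL'
      exact Or.inr (mem_singleton.1 hL')
    · rw [hR'] at hL'
      exact Or.inl (mem_singleton.1 hL')) R (Or.inl rfl) L with rfl | rfl
  · omega
  · omega

/-- the nontree components among the neighbours of a tree component -/
private theorem nb_sub (hN : A.NT.Nonempty) {R : Q} (hR : A.dg R = 1) : A.nb R ⊆ A.NT := by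
  obtain ⟨K, hK, h⟩ := A.tree_nb hN hR
  rw [h]
  exact singleton_subset_iff.2 hK

/-- the number of tree neighbours -/
private def tn (K : Q) : Finset Q := (A.nb K).filter (fun L => ¬ 2 ≤ A.dg L)

private theorem s_add (K : Q) : A.s K + (A.tn K).card = A.dg K :=
  card_filter_add_card_filter_not (s := A.nb K) (fun L => 2 ≤ A.dg L)

private theorem sum_tn (hN : A.NT.Nonempty) : ∑ K ∈ A.NT, (A.tn K).card = A.NTᶜ.card := by
  have h1 : ∑ K ∈ A.NT, ∑ _R ∈ A.tn K, 1 = ∑ R ∈ A.NTᶜ, ∑ _K ∈ A.nb R, 1 := by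
    refine sum_comm' fun K R => ?_
    rw [tn, mem_filter, mem_compl, mem_NT, mem_NT]
    constructor
    · rintro ⟨_, h2, h3⟩
      exact ⟨A.symm _ _ h2, h3⟩
    · rintro ⟨h2, h3⟩
      exact ⟨A.mem_NT.1 (A.nb_sub hN (A.dg_one h3) h2), A.symm _ _ h2, h3⟩
  have h2 : ∑ R ∈ A.NTᶜ, ∑ _K ∈ A.nb R, 1 = ∑ R ∈ A.NTᶜ, 1 := by
    refine sum_congr rfl fun R hR => ?_
    rw [mem_compl, mem_NT] at hR
    have := A.dg_one hR
    rw [sum_const, smul_eq_mul, mul_one]
    exact this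
  rw [h2] at h1
  simpa using h1

private theorem sum_split (f : Q → ℕ) : ∑ K ∈ A.NT, f K + ∑ K ∈ A.NTᶜ, f K = ∑ K, f K :=
  sum_add_sum_compl A.NT f

private theorem sum_dg : ∑ K, A.dg K + 2 = 2 * Fintype.card Q := by
  have h1 : ∑ K, (A.m K + 2) = ∑ K, (A.vv K + A.dg K) := sum_congr rfl fun K _ => A.deg_eq K
  rw [sum_add_distrib, sum_add_distrib, A.sum_v, sum_const, card_univ, smul_eq_mul] at h1
  have h2 := A.sum_m
  omega

/-- (11). Proof: `Σ_all dg = 2 card Q - 2` by `deg_eq`, `sum_v`, `sum_m`; tree components have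
`dg = 1`; the number of pairs (nontree `K`, tree neighbour `R` of `K`) is the number of tree
components (`tree_nb`). -/
theorem sum_s (hN : A.NT.Nonempty) : ∑ K ∈ A.NT, A.s K + 2 = 2 * A.NT.card := by
  have h1 := A.sum_dg
  have h2 := A.sum_split A.dg
  have h3 : ∑ R ∈ A.NTᶜ, A.dg R = A.NTᶜ.card := by
    rw [card_eq_sum_ones]
    refine sum_congr rfl fun R hR => ?_
    rw [mem_compl, mem_NT] at hR
    exact A.dg_one hR
  have h4 : ∑ K ∈ A.NT, A.s K + ∑ K ∈ A.NT, (A.tn K).card = ∑ K ∈ A.NT, A.dg K := by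
    rw [← sum_add_distrib]
    exact sum_congr rfl fun K _ => A.s_add K
  have h5 := A.sum_tn hN
  have h6 := card_add_card_compl A.NT
  omega

/-- (11), second part. Proof: if `s K = 0` then `K` and its neighbours are closed under neighbours
(`tree_nb`), so by `A.conn` `NT = {K}`. -/
theorem s_pos (hN : 2 ≤ A.NT.card) {K : Q} (hK : K ∈ A.NT) : 1 ≤ A.s K := by
  by_contra h
  have h0 : A.ntn K = ∅ := card_eq_zero.1 (by unfold s at h; omega)
  have h1 : ∀ L ∈ A.nb K, A.dg L = 1 := by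
    intro L hL
    refine A.dg_one fun h2 => ?_
    have h3 : L ∈ A.ntn K := A.mem_ntn.2 ⟨hL, h2⟩
    rw [h0] at h3
    exact notMem_empty L h3
  have hall := A.conn (fun L => L = K ∨ L ∈ A.nb K) (by
    rintro M L' hL' (rfl | hM)
    · exact Or.inr hL'
    · obtain ⟨K', _, hK'⟩ := A.tree_nb ⟨K, hK⟩ (h1 M hM)
      have h2 : K ∈ A.nb M := A.symm _ _ hM
      rw [hK'] at h2 hL'
      rw [mem_singleton] at h2 hL'
      exact Or.inl (hL'.trans h2.symm)) K (Or.inl rfl)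
  have h2 : A.NT ⊆ {K} := by
    intro L hL
    rcases hall L with h3 | h3
    · exact mem_singleton.2 h3
    · have h4 := A.mem_NT.1 hL
      have h5 := h1 L h3
      omega
  have h3 := card_le_card h2
  rw [card_singleton] at h3
  omega

private theorem exc_eq {K : Q} (hK : K ∈ A.NT) :
    2 * A.m K = 5 * A.dg K + (2 * A.m K - 5 * A.dg K) := by
  have h : 5 * A.dg K ≤ 2 * A.m K := A.exc K (A.mem_NT.1 hK)
  omega

private theorem sum_exc : 2 * ∑ K ∈ A.NT, A.m K = 5 * ∑ K ∈ A.NT, A.dg K + A.X := by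
  rw [X, mul_sum, mul_sum, ← sum_add_distrib]
  exact sum_congr rfl fun K hK => A.exc_eq hK

private theorem n_eq' : 5 * ∑ K ∈ A.NT, A.dg K + A.X + 2 * A.Y + 4 = 2 * A.n := by
  have h1 := A.sum_exc
  have h2 := A.sum_split A.m
  have h3 := A.sum_m
  have h4 : ∑ K ∈ A.NTᶜ, A.m K = A.Y := rfl
  omega

/-- the contribution of a nontree component `L` -/
private theorem tau_nt {L : Q} (hL : L ∈ A.NT) :
    ∑ K ∈ A.NT, A.tau L K ≤ 5 * A.s L + (2 * A.m L - 5 * A.dg L) := by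
  have h1 := A.tau_sum L
  have h2 := A.sum_split (fun K => A.tau L K)
  have h3 : 5 * (A.tn L).card ≤ ∑ K ∈ A.NTᶜ, A.tau L K := by
    have h4 : A.tn L ⊆ A.NTᶜ := by
      intro R hR
      rw [mem_compl, mem_NT]
      exact (mem_filter.1 hR).2
    calc 5 * (A.tn L).card = ∑ _R ∈ A.tn L, 5 := by rw [sum_const, smul_eq_mul, mul_comm]
      _ ≤ ∑ R ∈ A.tn L, A.tau L R := sum_le_sum fun R hR =>
          A.tau_five L (A.mem_NT.1 hL) R (mem_filter.1 hR).1
      _ ≤ ∑ K ∈ A.NTᶜ, A.tau L K := sum_le_sum_of_subset h4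
  have h5 := A.s_add L
  have h6 := A.exc_eq hL
  omega

private theorem sum_tau (hN : A.NT.Nonempty) :
    ∑ K ∈ A.NT, ∑ L, A.tau L K + 10 ≤ 2 * A.Y + 10 * A.NT.card + A.X := by
  have h1 : ∑ K ∈ A.NT, ∑ L, A.tau L K = ∑ L, ∑ K ∈ A.NT, A.tau L K := sum_comm
  have h2 := A.sum_split (fun L => ∑ K ∈ A.NT, A.tau L K)
  have h3 : ∑ L ∈ A.NT, ∑ K ∈ A.NT, A.tau L K ≤ 5 * ∑ L ∈ A.NT, A.s L + A.X := by
    rw [X, mul_sum, ← sum_add_distrib]
    exact sum_le_sum fun L hL => A.tau_nt hL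
  have h4 : ∑ L ∈ A.NTᶜ, ∑ K ∈ A.NT, A.tau L K ≤ 2 * A.Y := by
    rw [Y, mul_sum]
    refine sum_le_sum fun L _ => ?_
    rw [← A.tau_sum L]
    exact sum_le_sum_of_subset (subset_univ _)
  have h5 := A.sum_s hN
  omega

/-- (12). -/
theorem n_le (hN : A.NT.Nonempty) : 6 * A.n + 88 ≤ 80 * A.NT.card + 23 * A.X + 26 * A.Y := by
  have h1 := A.n_eq'
  have h2 := A.sum_tau hN
  have h3 : 3 * ∑ K ∈ A.NT, A.dg K + 4 * A.NT.card ≤
      2 * ∑ K ∈ A.NT, ∑ L, A.tau L K + 2 * A.X := by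
    have h4 : ∑ K ∈ A.NT, (3 * A.dg K + 4) ≤
        ∑ K ∈ A.NT, (2 * ∑ L, A.tau L K + 2 * (2 * A.m K - 5 * A.dg K)) := by
      refine sum_le_sum fun K hK => ?_
      have h5 : 2 * A.vv K + 15 * A.dg K ≤ 2 * ∑ L, A.tau L K + 6 * A.m K :=
        A.five K (A.mem_NT.1 hK)
      have h6 : A.m K + 2 = A.vv K + A.dg K := A.deg_eq K
      have h7 := A.exc_eq hK
      omega
    rw [sum_add_distrib, sum_add_distrib, ← mul_sum, ← mul_sum, ← mul_sum, sum_const,
      smul_eq_mul] at h4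
    have h5 : ∑ K ∈ A.NT, (2 * A.m K - 5 * A.dg K) = A.X := rfl
    rw [h5] at h4
    omega
  omega

/-- (13): `5 Σ_{NT} deg + X + 2 Y + 4 = 2 n`. -/
theorem n_eq (hN : A.NT.Nonempty) : 5 * ∑ K ∈ A.NT, A.dg K + A.X + 2 * A.Y + 4 = 2 * A.n :=
  have _ := hN
  A.n_eq'

/-- the final arithmetic: hitting sets of total size `h` with `14 h ≤ 7 Σ deg + X`, and `w1`, `w2`
additional vertices in the two constructions -/
theorem final (hN : A.NT.Nonempty) {h : ℕ} (hh : 14 * h ≤ 7 * ∑ K ∈ A.NT, A.dg K + A.X) :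
    35 * h + A.X + 7 * A.Y + 14 ≤ 7 * A.n := by
  have := A.n_eq hN
  omega

end Arr

end Pool.Agent.helper54.AB
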