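import Mathlib
import Pool.Agent.helper54.AB.Arith

/-! [AB-B10] Counting in the tree of components, second part. -/

namespace Pool.Agent.helper54.AB

open Finset

namespace Arr

variable {Q : Type} [Fintype Q] [DecidableEq Q] (A : Arr Q)

private theorem exc_eq2 {K : Q} (hK : K ∈ A.NT) :
    2 * A.m K = 5 * A.dg K + (2 * A.m K - 5 * A.dg K) := by
  have h : 5 * A.dg K ≤ 2 * A.m K := A.exc K (A.mem_NT.1 hK)
  omega

private theorem dg_one2 {K : Q} (h : ¬ 2 ≤ A.dg K) : A.dg K = 1 := by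
  have : 1 ≤ A.dg K := A.deg_pos K
  omega

/-- the edges in the tree neighbours of the nontree components -/
private theorem sum_tree (hN : A.NT.Nonempty) :
    ∑ K ∈ A.NT, ∑ R ∈ (A.nb K).filter (fun L => ¬ 2 ≤ A.dg L), A.m R = A.Y := by
  have h1 : ∑ K ∈ A.NT, ∑ R ∈ (A.nb K).filter (fun L => ¬ 2 ≤ A.dg L), A.m R =
      ∑ R ∈ A.NTᶜ, ∑ _K ∈ A.nb R, A.m R := by
    refine sum_comm' fun K R => ?_
    rw [mem_filter, mem_compl, mem_NT, mem_NT]
    constructor
    · rintro ⟨_, h2, h3⟩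
      exact ⟨A.symm _ _ h2, h3⟩
    · rintro ⟨h2, h3⟩
      obtain ⟨K', hK', h⟩ := A.tree_nb hN (A.dg_one2 h3)
      have h4 : K = K' := by
        rw [h] at h2
        exact mem_singleton.1 h2
      subst h4
      exact ⟨A.mem_NT.1 hK', A.symm _ _ h2, h3⟩
  rw [h1, Y]
  refine sum_congr rfl fun R hR => ?_
  rw [mem_compl, mem_NT] at hR
  have h2 : (A.nb R).card = 1 := A.dg_one2 hR
  rw [sum_const, smul_eq_mul, h2, one_mul]

/-- the waste in the numbers `tau L K` for nontree neighbours `K`, `L` -/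
private theorem sum_waste :
    ∑ K ∈ A.NT, ∑ L ∈ A.ntn K, (A.tau L K - 5) ≤ A.X := by
  have h1 : ∑ K ∈ A.NT, ∑ L ∈ A.ntn K, (A.tau L K - 5) =
      ∑ L ∈ A.NT, ∑ K ∈ A.ntn L, (A.tau L K - 5) := by
    refine sum_comm' fun K L => ?_
    rw [mem_ntn, mem_ntn, mem_NT, mem_NT]
    constructor
    · rintro ⟨h2, h3, h4⟩
      exact ⟨⟨A.symm _ _ h3, h2⟩, h4⟩
    · rintro ⟨⟨h2, h3⟩, h4⟩
      exact ⟨h3, A.symm _ _ h2, h4⟩
  rw [h1, X]
  refine sum_le_sum fun L hL => ?_
  have h2 : ∑ K ∈ A.ntn L, (A.tau L K - 5) ≤ ∑ K ∈ A.nb L, (A.tau L K - 5) :=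
    sum_le_sum_of_subset (filter_subset _ _)
  have h3 : ∑ K ∈ A.nb L, (A.tau L K - 5) + 5 * A.dg L = ∑ K ∈ A.nb L, A.tau L K := by
    have h4 : 5 * A.dg L = ∑ _K ∈ A.nb L, 5 := by
      rw [sum_const, smul_eq_mul, mul_comm]
      rfl
    rw [h4, ← sum_add_distrib]
    refine sum_congr rfl fun K hK => ?_
    have := A.tau_five L (A.mem_NT.1 hL) K hK
    omega
  have h5 : ∑ K ∈ A.nb L, A.tau L K = 2 * A.m L := by
    rw [← A.tau_sum L]
    exact sum_subset (subset_univ _) fun K _ hK => A.tau_nb L K hK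
  omega

/-- (14). -/
theorem not_fine (hN : A.NT.Nonempty) :
    (A.NT.filter (fun K => ¬ A.Fine K)).card ≤ 2 * A.X + A.Y := by
  have h1 : (A.NT.filter (fun K => ¬ A.Fine K)).card ≤
      ∑ K ∈ A.NT, ((2 * A.m K - 5 * A.dg K) +
        (∑ R ∈ (A.nb K).filter (fun L => ¬ 2 ≤ A.dg L), A.m R) +
        ∑ L ∈ A.ntn K, (A.tau L K - 5)) := by
    rw [card_eq_sum_ones]
    refine le_trans (sum_le_sum fun K hK => ?_) (sum_le_sum_of_subset (filter_subset _ _))
    rw [mem_filter] at hK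
    obtain ⟨hK, hF⟩ := hK
    by_contra hlt
    apply hF
    have ha := A.exc_eq2 hK
    have hb : ∑ R ∈ (A.nb K).filter (fun L => ¬ 2 ≤ A.dg L), A.m R = 0 := by omega
    have hc : ∑ L ∈ A.ntn K, (A.tau L K - 5) = 0 := by omega
    rw [sum_eq_zero_iff] at hb hc
    refine ⟨by omega, fun R hR hR1 => ?_, fun L hL hL2 => ?_⟩
    · exact hb R (mem_filter.2 ⟨hR, by omega⟩)
    · have h2 := hc L (A.mem_ntn.2 ⟨hL, hL2⟩)
      have h3 := A.tau_five L hL2 K (A.symm _ _ hL)
      omega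
  rw [sum_add_distrib, sum_add_distrib, A.sum_tree hN] at h1
  have h2 : ∑ K ∈ A.NT, (2 * A.m K - 5 * A.dg K) = A.X := rfl
  have h3 := A.sum_waste
  omega

/-- (15) and the counting in (16): -/
theorem card_Lf (hN : A.NT.Nonempty) :
    (A.NT.filter (fun K => A.s K = 1)).card ≤ A.Lf.card + 2 * A.X + A.Y := by
  have h1 : A.NT.filter (fun K => A.s K = 1) ⊆ A.Lf ∪ A.NT.filter (fun K => ¬ A.Fine K) := by
    intro K hK
    rw [mem_filter] at hK
    rw [mem_union, Lf, mem_filter, mem_filter]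
    by_cases hF : A.Fine K
    · exact Or.inl ⟨hK.1, hF, hK.2⟩
    · exact Or.inr ⟨hK.1, hF⟩
  have h2 := (card_le_card h1).trans (card_union_le _ _)
  have h3 := A.not_fine hN
  omega

/-- the sum of `s - 2` over the components with `3 ≤ s` -/
private theorem sum_three (hN : 2 ≤ A.NT.card) :
    ∑ K ∈ A.NT.filter (fun K => 3 ≤ A.s K), (A.s K - 2) + 2 =
      (A.NT.filter (fun K => A.s K = 1)).card := by
  have hne : A.NT.Nonempty := card_pos.1 (by omega)
  have h1 := A.sum_s hne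
  have h2 : ∑ K ∈ A.NT, (A.s K + if A.s K = 1 then 1 else 0) =
      ∑ K ∈ A.NT, (2 + if 3 ≤ A.s K then A.s K - 2 else 0) := by
    refine sum_congr rfl fun K hK => ?_
    have h3 := A.s_pos hN hK
    by_cases h4 : A.s K = 1
    · rw [if_pos h4, if_neg (by omega)]
      omega
    · rw [if_neg h4]
      by_cases h5 : 3 ≤ A.s K
      · rw [if_pos h5]
        omega
      · rw [if_neg h5]
        omega
  rw [sum_add_distrib, sum_add_distrib, sum_const, smul_eq_mul, ← sum_filter, ← sum_filter,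
    ← card_eq_sum_ones] at h2
  omega

theorem card_G2 (hN : 2 ≤ A.NT.card) :
    A.NT.card + 8 ≤ A.G2.card + 5 * (A.NT.filter (fun K => A.s K = 1)).card + 4 * A.X + A.Y := by
  have hne : A.NT.Nonempty := card_pos.1 (by omega)
  set T3 := A.NT.filter (fun K => 3 ≤ A.s K) with hT3
  set E1 := A.NT.filter (fun K => A.s K ≤ 2 ∧ 2 * A.m K ≠ 5 * A.dg K) with hE1
  have h1 : A.NT ⊆ A.G2 ∪ (A.NT.filter (fun K => A.s K = 1) ∪ (T3 ∪
      (A.NT.filter (fun K => ¬ A.Fine K) ∪ (T3.biUnion A.ntn ∪ E1.biUnion A.ntn)))) := by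
    intro L hL
    by_cases ha : A.s L = 1
    · exact mem_union_right _ (mem_union_left _ (mem_filter.2 ⟨hL, ha⟩))
    by_cases hb : 3 ≤ A.s L
    · exact mem_union_right _ (mem_union_right _ (mem_union_left _ (mem_filter.2 ⟨hL, hb⟩)))
    by_cases hc : A.Fine L
    · by_cases hd : ∀ K ∈ A.ntn L, A.s K ≤ 2 ∧ 2 * A.m K = 5 * A.dg K
      · refine mem_union_left _ (mem_filter.2 ⟨hL, hc, ?_, hd⟩)
        have := A.s_pos hN hL
        omega
      · simp only [not_forall] at hd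
        obtain ⟨K, hK, hd⟩ := hd
        have hK' := A.mem_ntn.1 hK
        have hKN : K ∈ A.NT := A.mem_NT.2 hK'.2
        have hLK : L ∈ A.ntn K := A.mem_ntn.2 ⟨A.symm _ _ hK'.1, A.mem_NT.1 hL⟩
        refine mem_union_right _ (mem_union_right _ (mem_union_right _ (mem_union_right _ ?_)))
        by_cases he : 3 ≤ A.s K
        · exact mem_union_left _ (mem_biUnion.2 ⟨K, mem_filter.2 ⟨hKN, he⟩, hLK⟩)
        · refine mem_union_right _ (mem_biUnion.2 ⟨K, mem_filter.2 ⟨hKN, by omega, ?_⟩, hLK⟩)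
          intro h
          exact hd ⟨by omega, h⟩
    · exact mem_union_right _ (mem_union_right _ (mem_union_right _ (mem_union_left _
        (mem_filter.2 ⟨hL, hc⟩))))
  have h2 := card_le_card h1
  have h3 := card_union_le A.G2 (A.NT.filter (fun K => A.s K = 1) ∪ (T3 ∪
      (A.NT.filter (fun K => ¬ A.Fine K) ∪ (T3.biUnion A.ntn ∪ E1.biUnion A.ntn))))
  have h4 := card_union_le (A.NT.filter (fun K => A.s K = 1)) (T3 ∪
      (A.NT.filter (fun K => ¬ A.Fine K) ∪ (T3.biUnion A.ntn ∪ E1.biUnion A.ntn)))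
  have h5 := card_union_le T3
      (A.NT.filter (fun K => ¬ A.Fine K) ∪ (T3.biUnion A.ntn ∪ E1.biUnion A.ntn))
  have h6 := card_union_le (A.NT.filter (fun K => ¬ A.Fine K))
      (T3.biUnion A.ntn ∪ E1.biUnion A.ntn)
  have h7 := card_union_le (T3.biUnion A.ntn) (E1.biUnion A.ntn)
  have h8 : (T3.biUnion A.ntn).card ≤ ∑ K ∈ T3, A.s K := card_biUnion_le
  have h9 : (E1.biUnion A.ntn).card ≤ ∑ K ∈ E1, A.s K := card_biUnion_le
  have h10 : ∑ K ∈ T3, A.s K ≤ 3 * ∑ K ∈ T3, (A.s K - 2) := by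
    rw [mul_sum]
    refine sum_le_sum fun K hK => ?_
    have := (mem_filter.1 hK).2
    omega
  have h11 : T3.card ≤ ∑ K ∈ T3, (A.s K - 2) := by
    rw [card_eq_sum_ones]
    refine sum_le_sum fun K hK => ?_
    have := (mem_filter.1 hK).2
    omega
  have h12 : ∑ K ∈ E1, A.s K ≤ 2 * A.X := by
    rw [X, mul_sum]
    refine le_trans (sum_le_sum fun K hK => ?_) (sum_le_sum_of_subset (filter_subset _ _))
    obtain ⟨hK, h, h'⟩ := mem_filter.1 hK
    have := A.exc_eq2 hK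
    omega
  have h13 := A.sum_three hN
  rw [← hT3] at h13
  have h14 := A.not_fine hne
  omega

/-- a conflict-free subset: Proof: choose a maximal (`Finset.exists_maximal` or by cardinality)
subset `G3 ⊆ G2` in which no two different elements have a common nontree neighbour. Every element
of `G2` is in `G3` or has a common nontree neighbour with an element `L` of `G3`; as `s L = 2` and
`s K ≤ 2` for its nontree neighbours `K`, at most two other elements are in conflict with `L`. So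
`|G2| ≤ 3 |G3|`. -/
theorem exists_G3 : ∃ G3 ⊆ A.G2, A.G2.card ≤ 3 * G3.card ∧
    ∀ L ∈ G3, ∀ L' ∈ G3, ∀ K ∈ A.ntn L, K ∈ A.ntn L' → L = L' := by
  classical
  set F := A.G2.powerset.filter (fun G => ∀ L ∈ G, ∀ L' ∈ G, ∀ K ∈ A.ntn L, K ∈ A.ntn L' →
    L = L') with hF
  have hFne : F.Nonempty := by
    refine ⟨∅, mem_filter.2 ⟨mem_powerset.2 (empty_subset _), ?_⟩⟩
    intro L hL
    exact absurd hL (notMem_empty L)
  obtain ⟨G, hG, hmax⟩ := exists_max_image F card hFne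
  obtain ⟨hG1, hG2⟩ := mem_filter.1 hG
  rw [mem_powerset] at hG1
  refine ⟨G, hG1, ?_, hG2⟩
  -- the elements in conflict with `L`, and `L`
  set cf : Q → Finset Q := fun L => insert L ((A.ntn L).biUnion (fun K => (A.ntn K).erase L))
    with hcf
  have h1 : ∀ L ∈ G, (cf L).card ≤ 3 := by
    intro L hL
    have h2 := mem_filter.1 (hG1 hL)
    obtain ⟨hLN, _, hs, hn⟩ := h2
    have h3 : ((A.ntn L).biUnion (fun K => (A.ntn K).erase L)).card ≤
        ∑ K ∈ A.ntn L, ((A.ntn K).erase L).card := card_biUnion_le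
    have h4 : ∑ K ∈ A.ntn L, ((A.ntn K).erase L).card ≤ ∑ _K ∈ A.ntn L, 1 := by
      refine sum_le_sum fun K hK => ?_
      have hK' := A.mem_ntn.1 hK
      have hLK : L ∈ A.ntn K := A.mem_ntn.2 ⟨A.symm _ _ hK'.1, A.mem_NT.1 hLN⟩
      rw [card_erase_of_mem hLK]
      have h5 : (A.ntn K).card ≤ 2 := (hn K hK).1
      omega
    rw [← card_eq_sum_ones] at h4
    have h5 : (A.ntn L).card = 2 := hs
    have h6 := card_insert_le L ((A.ntn L).biUnion (fun K => (A.ntn K).erase L))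
    have h7 : (cf L).card = (insert L ((A.ntn L).biUnion (fun K => (A.ntn K).erase L))).card := rfl
    omega
  have h2 : A.G2 ⊆ G.biUnion cf := by
    intro M hM
    by_contra hno
    rw [mem_biUnion] at hno
    have hMG : M ∉ G := fun h => hno ⟨M, h, mem_insert_self _ _⟩
    have hMN : 2 ≤ A.dg M := A.mem_NT.1 (mem_filter.1 hM).1
    have hconf : ∀ L ∈ G, ∀ K ∈ A.ntn L, K ∉ A.ntn M := by
      intro L hL K hK hKM
      refine hno ⟨L, hL, mem_insert_of_mem (mem_biUnion.2 ⟨K, hK, mem_erase.2 ⟨?_, ?_⟩⟩)⟩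
      · rintro rfl
        exact hMG hL
      · exact A.mem_ntn.2 ⟨A.symm _ _ (A.mem_ntn.1 hKM).1, hMN⟩
    have h3 : insert M G ∈ F := by
      refine mem_filter.2 ⟨mem_powerset.2 (insert_subset hM hG1), ?_⟩
      intro L hL L' hL' K hK hK'
      rw [mem_insert] at hL hL'
      rcases hL with rfl | hL
      · rcases hL' with rfl | hL'
        · rfl
        · exact absurd hK (hconf L' hL' K hK')
      · rcases hL' with rfl | hL'
        · exact absurd hK' (hconf L hL K hK)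
        · exact hG2 L hL L' hL' K hK hK'
    have h4 := hmax _ h3
    rw [card_insert_of_notMem hMG] at h4
    omega
  calc A.G2.card ≤ (G.biUnion cf).card := card_le_card h2
    _ ≤ ∑ L ∈ G, (cf L).card := card_biUnion_le
    _ ≤ ∑ _L ∈ G, 3 := sum_le_sum h1
    _ = 3 * G.card := by rw [sum_const, smul_eq_mul, mul_comm]

end Arr

end Pool.Agent.helper54.AB
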