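import Mathlib
import Pool.Agent.helper54.LFP.TColor
import Pool.Agent.helper54.LFP.LFAcyclic

/-!
# Common definitions of project AB (MP_20b59a_co, Q1)

Goal: every planar graph on `n` vertices has an induced forest on at least
`(2/5 + 1/13335) n` vertices.

Graphs are given by two end functions `a b : E → V` (library of helper60
`Pool.Agent.helper60.ECD.Cut`: `starS a b x` is the set of edges at the vertex `x`, `cutS a b A` the
set of edges with exactly one end in `A`).
-/

namespace Pool.Agent.helper54.AB

open Finset Pool.Agent.helper60.ECD Pool.Agent.helper54.LFP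

section Graph

variable {V E : Type} [Fintype V] [Fintype E] [DecidableEq V] [DecidableEq E]

/-- even sets of edges -/
def Ev (a b : E → V) (Z : Finset E) : Prop := ∀ v, Even (starS a b v ∩ Z).card

/-- the vertex set `S` meets every nonempty even subset of `H` -/
def Hit (a b : E → V) (H : Finset E) (S : Finset V) : Prop :=
  ∀ Z ⊆ H, Z.Nonempty → Ev a b Z → ∃ e ∈ Z, a e ∈ S ∨ b e ∈ S

/-- joined by an edge of `H` -/
def rel (a b : E → V) (H : Finset E) (u v : V) : Prop := ∃ e ∈ H, a e = u ∧ b e = v

/-- the connected components of `(V, H)` -/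
def Cp (a b : E → V) (H : Finset E) : Type := Quot (rel a b H)

instance (a b : E → V) (H : Finset E) : Finite (Cp a b H) :=
  inferInstanceAs (Finite (Quot (rel a b H)))

/-- the space of flows supported on `H` with values in the field `k` -/
def Fl (k : Type) [Field k] (a b : E → V) (H : Finset E) : Submodule k (E → k) where
  carrier := {z | (∀ e ∉ H, z e = 0) ∧
    ∀ v, ∑ e, ((if a e = v then z e else 0) - (if b e = v then z e else 0)) = 0}
  zero_mem' := by simp
  add_mem' := by
    rintro z w ⟨h1, h2⟩ ⟨h3, h4⟩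
    refine ⟨fun e he => by rw [Pi.add_apply, h1 e he, h3 e he, add_zero], fun v => ?_⟩
    have h5 : ∑ e, (((if a e = v then z e else 0) - (if b e = v then z e else 0)) +
        ((if a e = v then w e else 0) - (if b e = v then w e else 0))) = 0 := by
      rw [Finset.sum_add_distrib, h2 v, h4 v, add_zero]
    refine Eq.trans (Finset.sum_congr rfl fun e _ => ?_) h5
    by_cases ha : a e = v <;> by_cases hb : b e = v <;> simp [ha, hb] <;> ring
  smul_mem' := by
    rintro c z ⟨h1, h2⟩
    refine ⟨fun e he => by rw [Pi.smul_apply, h1 e he, smul_zero], fun v => ?_⟩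
    have h5 : ∑ e, c * ((if a e = v then z e else 0) - (if b e = v then z e else 0)) = 0 := by
      rw [← Finset.mul_sum, h2 v, mul_zero]
    refine Eq.trans (Finset.sum_congr rfl fun e _ => ?_) h5
    by_cases ha : a e = v <;> by_cases hb : b e = v <;> simp [ha, hb]

/-- the functions on the vertices which are constant along the edges of `H` -/
def Cst (k : Type) [Field k] (a b : E → V) (H : Finset E) : Submodule k (V → k) where
  carrier := {y | ∀ e ∈ H, y (a e) = y (b e)}
  zero_mem' := fun _ _ => rfl
  add_mem' := fun h1 h2 e he => by rw [Pi.add_apply, Pi.add_apply, h1 e he, h2 e he]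
  smul_mem' := fun c _ h e he => by rw [Pi.smul_apply, Pi.smul_apply, h e he]

/-- the cycle rank `|H| - |V| + c(V, H)` -/
noncomputable def bet (a b : E → V) (H : Finset E) : ℕ :=
  H.card + Nat.card (Cp a b H) - Fintype.card V

/-- the sparsity hypothesis of the main theorem of part M -/
def Sparse (a b : E → V) (C : Finset E) : Prop :=
  ∀ H ⊆ C, 1 ≤ bet a b H → 5 * (bet a b H + 1) ≤ 2 * H.card

end Graph

section LinAlg

variable {K M : Type} [Field K] [AddCommGroup M] [Module K M]

/-- the radical of the restriction of the bilinear form `B` to the subspace `W` -/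
def Rad (B : LinearMap.BilinForm K M) (W : Submodule K M) : Submodule K M where
  carrier := {z | z ∈ W ∧ ∀ w ∈ W, B z w = 0}
  zero_mem' := ⟨W.zero_mem, fun w _ => by simp⟩
  add_mem' := by
    rintro z z' ⟨h1, h2⟩ ⟨h3, h4⟩
    exact ⟨W.add_mem h1 h3, fun w hw => by
      rw [map_add, LinearMap.add_apply, h2 w hw, h4 w hw, add_zero]⟩
  smul_mem' := by
    rintro c z ⟨h1, h2⟩
    exact ⟨W.smul_mem c h1, fun w hw => by
      rw [map_smul, LinearMap.smul_apply, h2 w hw, smul_zero]⟩

/-- `I` is isotropic -/
def Iso (B : LinearMap.BilinForm K M) (I : Submodule K M) : Prop :=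
  ∀ z ∈ I, ∀ w ∈ I, B z w = 0

end LinAlg

section Form

variable {V E : Type} [Fintype V] [Fintype E] [DecidableEq V] [DecidableEq E]

/-- the field of rational functions in the variables `t (x, e, f)` over the rationals -/
abbrev KK (V E : Type) : Type := FractionRing (MvPolynomial (V × E × E) ℚ)

/-- the variables -/
noncomputable def tt (j : V × E × E) : KK V E :=
  algebraMap (MvPolynomial (V × E × E) ℚ) (KK V E) (MvPolynomial.X j)

/-- the generic local alternating form -/
noncomputable def Om (a b : E → V) : LinearMap.BilinForm (KK V E) (E → KK V E) :=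
  LinearMap.mk₂ (KK V E)
    (fun z w => ∑ x : V, ∑ e ∈ starS a b x, ∑ f ∈ starS a b x,
      tt (x, e, f) * (z e * w f - z f * w e))
    (fun z z' w => by
      simp only [← Finset.sum_add_distrib]
      refine Finset.sum_congr rfl fun x _ => Finset.sum_congr rfl fun e _ =>
        Finset.sum_congr rfl fun f _ => ?_
      simp only [Pi.add_apply]; ring)
    (fun k z w => by
      simp only [smul_eq_mul, Finset.mul_sum]
      refine Finset.sum_congr rfl fun x _ => Finset.sum_congr rfl fun e _ =>
        Finset.sum_congr rfl fun f _ => ?_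
      simp only [Pi.smul_apply, smul_eq_mul]; ring)
    (fun z w w' => by
      simp only [← Finset.sum_add_distrib]
      refine Finset.sum_congr rfl fun x _ => Finset.sum_congr rfl fun e _ =>
        Finset.sum_congr rfl fun f _ => ?_
      simp only [Pi.add_apply]; ring)
    (fun k z w => by
      simp only [smul_eq_mul, Finset.mul_sum]
      refine Finset.sum_congr rfl fun x _ => Finset.sum_congr rfl fun e _ =>
        Finset.sum_congr rfl fun f _ => ?_
      simp only [Pi.smul_apply, smul_eq_mul]; ring)

theorem Om_apply (a b : E → V) (z w : E → KK V E) :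
    Om a b z w = ∑ x : V, ∑ e ∈ starS a b x, ∑ f ∈ starS a b x,
      tt (x, e, f) * (z e * w f - z f * w e) := rfl

theorem Om_alt (a b : E → V) : (Om a b).IsAlt := by
  intro z
  rw [Om_apply]
  refine Finset.sum_eq_zero fun x _ => Finset.sum_eq_zero fun e _ =>
    Finset.sum_eq_zero fun f _ => ?_
  ring

/-- `dim Z(H) + dim Rad` -/
noncomputable def DD0 (a b : E → V) (H : Finset E) : ℕ :=
  Module.finrank (KK V E) (Fl (KK V E) a b H) +
    Module.finrank (KK V E) (Rad (Om a b) (Fl (KK V E) a b H))

end Form

section Sphere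

variable {V : Type} [Fintype V] [DecidableEq V] {T : SphereTri V}

/-- the monochromatic edges -/
def Mo (D : Ends T) (x : V → Bool) : Finset (TE T) :=
  univ.filter (fun e => x (D.a0 e) = x (D.b0 e))

theorem mem_Mo {D : Ends T} {x : V → Bool} {e : TE T} :
    e ∈ Mo D x ↔ x (D.a0 e) = x (D.b0 e) := by simp [Mo]

/-- no nonempty even set of monochromatic edges has fewer than five edges -/
def Good (D : Ends T) (x : V → Bool) : Prop :=
  ∀ Z ⊆ Mo D x, Z.Nonempty → Ev D.a0 D.b0 Z → 5 ≤ Z.card

/-- a good colouring together with the monochromatic edge (`base`) and the opposite vertex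
(`apex`) of every triangle -/
structure Cfg (D : Ends T) where
  /-- the colouring -/
  x : V → Bool
  good : Good D x
  /-- the monochromatic edge of a triangle -/
  base : TF T → TE T
  /-- the vertex opposite to the base -/
  apex : TF T → V
  base_mem : ∀ t, base t ∈ Mo D x
  base_sub : ∀ t, (base t).1 ⊆ t.1
  base_uniq : ∀ t, ∀ e ∈ Mo D x, e.1 ⊆ t.1 → e = base t
  apex_mem : ∀ t, apex t ∈ t.1
  apex_not : ∀ t, apex t ∉ (base t).1
  apex_col : ∀ t, x (apex t) ≠ x (D.a0 (base t))

variable {D : Ends T} (c : Cfg D)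

namespace Cfg

/-- the type of the connected components of the graph of monochromatic edges -/
def Q : Type := Cp D.a0 D.b0 (Mo D c.x)

instance : Finite c.Q := inferInstanceAs (Finite (Cp D.a0 D.b0 (Mo D c.x)))

noncomputable instance : Fintype c.Q := Fintype.ofFinite _

noncomputable instance : DecidableEq c.Q := Classical.decEq _

/-- the component of a vertex -/
def cmp (v : V) : c.Q := Quot.mk _ v

theorem cmp_surj (K : c.Q) : ∃ v, c.cmp v = K := Quot.exists_rep K

theorem cmp_edge {e : TE T} (he : e ∈ Mo D c.x) : c.cmp (D.a0 e) = c.cmp (D.b0 e) :=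
  Quot.sound ⟨e, he, rfl, rfl⟩

/-- a function which is constant along monochromatic edges is constant on components -/
theorem cmp_lift {α : Type} (f : V → α) (h : ∀ e ∈ Mo D c.x, f (D.a0 e) = f (D.b0 e)) {u v : V}
    (huv : c.cmp u = c.cmp v) : f u = f v := by
  have hr : ∀ p q, rel D.a0 D.b0 (Mo D c.x) p q → f p = f q := by
    rintro p q ⟨e, he, rfl, rfl⟩
    exact h e he
  exact congrArg (Quot.lift f hr) huv

theorem x_eq {u v : V} (h : c.cmp u = c.cmp v) : c.x u = c.x v :=
  c.cmp_lift c.x (fun _ he => mem_Mo.1 he) h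

/-- the vertices of a component -/
noncomputable def VK (K : c.Q) : Finset V := univ.filter (fun v => c.cmp v = K)

theorem mem_VK {K : c.Q} {v : V} : v ∈ c.VK K ↔ c.cmp v = K := by simp [VK]

/-- the edges of a component -/
noncomputable def EK (K : c.Q) : Finset (TE T) := (Mo D c.x).filter (fun e => c.cmp (D.a0 e) = K)

theorem mem_EK {K : c.Q} {e : TE T} : e ∈ c.EK K ↔ e ∈ Mo D c.x ∧ c.cmp (D.a0 e) = K := by
  simp [EK]

/-- the edges between the components `K` and `L` -/
noncomputable def DD (K L : c.Q) : Finset (TE T) :=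
  univ.filter (fun e => (c.cmp (D.a0 e) = K ∧ c.cmp (D.b0 e) = L) ∨
    (c.cmp (D.a0 e) = L ∧ c.cmp (D.b0 e) = K))

theorem mem_DD {K L : c.Q} {e : TE T} : e ∈ c.DD K L ↔
    (c.cmp (D.a0 e) = K ∧ c.cmp (D.b0 e) = L) ∨ (c.cmp (D.a0 e) = L ∧ c.cmp (D.b0 e) = K) := by
  simp [DD]

/-- neighbouring components -/
def Nb (K L : c.Q) : Prop := K ≠ L ∧ (c.DD K L).Nonempty

noncomputable instance (K L : c.Q) : Decidable (c.Nb K L) := Classical.propDecidable _

/-- the number of neighbouring components -/
noncomputable def deg (K : c.Q) : ℕ := (univ.filter (fun L => c.Nb K L)).card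

/-- the triangles with base in `K` and apex in `L` -/
noncomputable def TA (K L : c.Q) : Finset (TF T) :=
  univ.filter (fun t => c.base t ∈ c.EK K ∧ c.cmp (c.apex t) = L)

theorem mem_TA {K L : c.Q} {t : TF T} :
    t ∈ c.TA K L ↔ c.base t ∈ c.EK K ∧ c.cmp (c.apex t) = L := by simp [TA]

/-- the number of triangles with base in `K` and apex in `L` -/
noncomputable def tau (K L : c.Q) : ℕ := (c.TA K L).card

/-- the edges of `K` for which exactly one of the two triangles has its apex in `L` -/
noncomputable def AS (K L : c.Q) : Finset (TE T) :=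
  (c.EK K).filter (fun e => ¬ (c.cmp (c.apex (D.a1 e)) = L ↔ c.cmp (c.apex (D.b1 e)) = L))

theorem mem_AS {K L : c.Q} {e : TE T} : e ∈ c.AS K L ↔
    e ∈ c.EK K ∧ ¬ (c.cmp (c.apex (D.a1 e)) = L ↔ c.cmp (c.apex (D.b1 e)) = L) := by simp [AS]

/-- the neighbours of `v` in the component `L` -/
noncomputable def NL (L : c.Q) (v : V) : Finset V :=
  univ.filter (fun u => c.cmp u = L ∧ ∃ e : TE T, e.1 = {v, u})

theorem mem_NL {L : c.Q} {v u : V} : u ∈ c.NL L v ↔ c.cmp u = L ∧ ∃ e : TE T, e.1 = {v, u} := by
  simp [NL]

/-- the number of neighbours of `v` in the component `L` -/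
noncomputable def r (L : c.Q) (v : V) : ℕ := (c.NL L v).card

/-- the vertices of `K` with a neighbour in `L` -/
noncomputable def VN (K L : c.Q) : Finset V := (c.VK K).filter (fun v => (c.NL L v).Nonempty)

theorem mem_VN {K L : c.Q} {v : V} : v ∈ c.VN K L ↔ c.cmp v = K ∧ (c.NL L v).Nonempty := by
  simp [VN, mem_VK]

/-- the number of neighbouring components which are not trees -/
noncomputable def s (K : c.Q) : ℕ := (univ.filter (fun L => c.Nb K L ∧ 2 ≤ c.deg L)).card

/-- minimality with respect to recolouring a vertex: every vertex on a monochromatic cycle has two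
neighbours in the same component of the other colour -/
def Flip : Prop :=
  ∀ v, (∃ Z ⊆ Mo D c.x, Ev D.a0 D.b0 Z ∧ ∃ e ∈ Z, v ∈ e.1) →
    ∃ L, L ≠ c.cmp v ∧ 2 ≤ c.r L v

/-- components without waste -/
def Fine (K : c.Q) : Prop :=
  2 * (c.EK K).card = 5 * c.deg K ∧
  (∀ R, c.Nb K R → c.deg R = 1 → (c.EK R).card = 0) ∧
  ∀ L, c.Nb K L → 2 ≤ c.deg L → c.tau L K = 5

/-- outside `SS` the vertex `w` has at most one neighbour in every other component -/
def Ok (SS : Finset V) (w : V) : Prop :=
  ∀ L, L ≠ c.cmp w → (c.NL L w \ SS).card ≤ 1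

end Cfg

end Sphere

end Pool.Agent.helper54.AB
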