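import Mathlib
import Pool.Agent.helper54.AB.Defs

/-! [AB-B0] Basic facts on good colourings of a triangulated sphere. -/

namespace Pool.Agent.helper54.AB

open Finset Pool.Agent.helper60.ECD Pool.Agent.helper54.LFP

variable {V : Type} [Fintype V] [DecidableEq V] {T : SphereTri V} {D : Ends T}

theorem mem_edge (D : Ends T) {e : TE T} {v : V} : v ∈ e.1 ↔ D.a0 e = v ∨ D.b0 e = v := by
  rw [D.pair e, mem_insert, mem_singleton]
  exact ⟨fun h => h.imp Eq.symm Eq.symm, fun h => h.imp Eq.symm Eq.symm⟩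

theorem mem_star0 (D : Ends T) {e : TE T} {v : V} : e ∈ starS D.a0 D.b0 v ↔ v ∈ e.1 := by
  rw [mem_starS, mem_edge D]

theorem sub_a1 (D : Ends T) (e : TE T) : e.1 ⊆ (D.a1 e).1 := (D.two e _).2 (Or.inl rfl)

theorem sub_b1 (D : Ends T) (e : TE T) : e.1 ⊆ (D.b1 e).1 := (D.two e _).2 (Or.inr rfl)

theorem exists_edge {t : TF T} {u v : V} (huv : u ≠ v) (hu : u ∈ t.1) (hv : v ∈ t.1) :
    ∃ e : TE T, e.1 = {u, v} ∧ e.1 ⊆ t.1 := by
  have hs : ({u, v} : Finset V) ⊆ t.1 := by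
    intro w hw
    rw [mem_insert, mem_singleton] at hw
    rcases hw with rfl | rfl
    · exact hu
    · exact hv
  refine ⟨⟨{u, v}, ?_⟩, rfl, hs⟩
  unfold edgesOf
  rw [mem_filter]
  exact ⟨mem_univ _, card_pair huv, t.1, t.2, hs⟩

theorem ends_cases {e : TE T} {u v : V} (h : e.1 = {u, v}) :
    (D.a0 e = u ∧ D.b0 e = v) ∨ (D.a0 e = v ∧ D.b0 e = u) := by
  have h0 := D.ne0 e
  have ha : D.a0 e ∈ e.1 := (mem_edge D).2 (Or.inl rfl)
  have hb : D.b0 e ∈ e.1 := (mem_edge D).2 (Or.inr rfl)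
  rw [h, mem_insert, mem_singleton] at ha hb
  rcases ha with ha | ha <;> rcases hb with hb | hb
  · exact absurd (ha.trans hb.symm) h0
  · exact Or.inl ⟨ha, hb⟩
  · exact Or.inr ⟨ha, hb⟩
  · exact absurd (ha.trans hb.symm) h0

variable (c : Cfg D)

namespace Cfg

theorem face_eq (t : TF T) :
    t.1 = {c.apex t, D.a0 (c.base t), D.b0 (c.base t)} := by
  have h1 : ({c.apex t, D.a0 (c.base t), D.b0 (c.base t)} : Finset V) ⊆ t.1 := by
    intro v hv
    rw [mem_insert, mem_insert, mem_singleton] at hv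
    rcases hv with rfl | rfl | rfl
    · exact c.apex_mem t
    · exact c.base_sub t ((mem_edge D).2 (Or.inl rfl))
    · exact c.base_sub t ((mem_edge D).2 (Or.inr rfl))
  have h2 : c.apex t ≠ D.a0 (c.base t) := fun h =>
    c.apex_not t ((mem_edge D).2 (Or.inl h.symm))
  have h3 : c.apex t ≠ D.b0 (c.base t) := fun h =>
    c.apex_not t ((mem_edge D).2 (Or.inr h.symm))
  refine (eq_of_subset_of_card_le h1 ?_).symm
  rw [T.card_face t.1 t.2, card_insert_of_notMem, card_insert_of_notMem, card_singleton]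
  · rw [mem_singleton]; exact D.ne0 _
  · rw [mem_insert, mem_singleton, not_or]; exact ⟨h2, h3⟩

/-- an edge of a triangle is its base or joins the apex to an end of the base -/
theorem edge_cases {t : TF T} {e : TE T} (h : e.1 ⊆ t.1) :
    e = c.base t ∨ e.1 = {c.apex t, D.a0 (c.base t)} ∨ e.1 = {c.apex t, D.b0 (c.base t)} := by
  have h0 := D.ne0 e
  have hp := D.pair e
  have ha : D.a0 e ∈ t.1 := h ((mem_edge D).2 (Or.inl rfl))
  have hb : D.b0 e ∈ t.1 := h ((mem_edge D).2 (Or.inr rfl))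
  rw [c.face_eq t, mem_insert, mem_insert, mem_singleton] at ha hb
  rcases ha with ha | ha | ha <;> rcases hb with hb | hb | hb
  · exact absurd (ha.trans hb.symm) h0
  · right; left; rw [hp, ha, hb]
  · right; right; rw [hp, ha, hb]
  · right; left; rw [hp, ha, hb, pair_comm]
  · exact absurd (ha.trans hb.symm) h0
  · left; apply Subtype.ext; rw [hp, ha, hb, D.pair (c.base t)]
  · right; right; rw [hp, ha, hb, pair_comm]
  · left; apply Subtype.ext; rw [hp, ha, hb, D.pair (c.base t), pair_comm]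
  · exact absurd (ha.trans hb.symm) h0

/-- the two edges at the apex exist -/
theorem apex_edges (t : TF T) : (∃ e : TE T, e.1 = {c.apex t, D.a0 (c.base t)} ∧ e.1 ⊆ t.1) ∧
    ∃ e : TE T, e.1 = {c.apex t, D.b0 (c.base t)} ∧ e.1 ⊆ t.1 := by
  have h2 : c.apex t ≠ D.a0 (c.base t) := fun h =>
    c.apex_not t ((mem_edge D).2 (Or.inl h.symm))
  have h3 : c.apex t ≠ D.b0 (c.base t) := fun h =>
    c.apex_not t ((mem_edge D).2 (Or.inr h.symm))
  exact ⟨exists_edge h2 (c.apex_mem t) (c.base_sub t ((mem_edge D).2 (Or.inl rfl))),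
    exists_edge h3 (c.apex_mem t) (c.base_sub t ((mem_edge D).2 (Or.inr rfl)))⟩

/-- an edge is monochromatic iff its ends are in the same component -/
theorem mem_Mo_iff {e : TE T} : e ∈ Mo D c.x ↔ c.cmp (D.a0 e) = c.cmp (D.b0 e) :=
  ⟨fun h => c.cmp_edge h, fun h => mem_Mo.2 (c.x_eq h)⟩

/-- the same for an edge given by its two vertices -/
theorem mem_Mo_pair {e : TE T} {u v : V} (h : e.1 = {u, v}) :
    e ∈ Mo D c.x ↔ c.cmp u = c.cmp v := by
  rw [c.mem_Mo_iff]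
  rcases ends_cases h with ⟨h1, h2⟩ | ⟨h1, h2⟩
  · rw [h1, h2]
  · rw [h1, h2]; exact eq_comm

theorem mem_DD_pair {K L : c.Q} {e : TE T} {u v : V} (h : e.1 = {u, v}) :
    e ∈ c.DD K L ↔ (c.cmp u = K ∧ c.cmp v = L) ∨ (c.cmp u = L ∧ c.cmp v = K) := by
  rw [c.mem_DD]
  rcases ends_cases h with ⟨h1, h2⟩ | ⟨h1, h2⟩
  · rw [h1, h2]
  · rw [h1, h2]
    constructor
    · rintro (⟨h3, h4⟩ | ⟨h3, h4⟩)
      · exact Or.inr ⟨h4, h3⟩
      · exact Or.inl ⟨h4, h3⟩
    · rintro (⟨h3, h4⟩ | ⟨h3, h4⟩)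
      · exact Or.inr ⟨h4, h3⟩
      · exact Or.inl ⟨h4, h3⟩

theorem mem_EK_iff {K : c.Q} {e : TE T} : e ∈ c.EK K ↔ ∀ v ∈ e.1, c.cmp v = K := by
  rw [c.mem_EK, c.mem_Mo_iff]
  constructor
  · rintro ⟨h1, h2⟩ v hv
    rcases (mem_edge D).1 hv with rfl | rfl
    · exact h2
    · rw [← h1]; exact h2
  · intro h
    have h1 := h _ ((mem_edge D).2 (Or.inl rfl))
    have h2 := h _ ((mem_edge D).2 (Or.inr rfl))
    exact ⟨h1.trans h2.symm, h1⟩

theorem apex_ne (t : TF T) : c.cmp (c.apex t) ≠ c.cmp (D.a0 (c.base t)) := fun h =>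
  c.apex_col t (c.x_eq h)

theorem apex_ne' (t : TF T) : c.cmp (c.apex t) ≠ c.cmp (D.b0 (c.base t)) := by
  rw [← c.cmp_edge (c.base_mem t)]
  exact c.apex_ne t

/-- the base and apex of a triangle which contains a given monochromatic edge -/
theorem base_eq {t : TF T} {e : TE T} (he : e ∈ Mo D c.x) (h : e.1 ⊆ t.1) : c.base t = e :=
  (c.base_uniq t e he h).symm

theorem Nb_symm {K L : c.Q} (h : c.Nb K L) : c.Nb L K := by
  obtain ⟨h1, e, he⟩ := h
  refine ⟨h1.symm, e, ?_⟩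
  rw [c.mem_DD] at he ⊢
  exact he.symm

theorem Nb_of_edge {e : TE T} {u v : V} (h : e.1 = {u, v}) (hne : c.cmp u ≠ c.cmp v) :
    c.Nb (c.cmp u) (c.cmp v) :=
  ⟨hne, e, (c.mem_DD_pair h).2 (Or.inl ⟨rfl, rfl⟩)⟩

/-- every triangle gives a pair of neighbouring components -/
theorem Nb_face (t : TF T) : c.Nb (c.cmp (D.a0 (c.base t))) (c.cmp (c.apex t)) := by
  obtain ⟨e, he, -⟩ := (c.apex_edges t).1
  exact c.Nb_symm (c.Nb_of_edge he (c.apex_ne t))

/-- neighbouring components have different colours -/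
theorem Nb_col {K L : c.Q} (h : c.Nb K L) {u v : V} (hu : c.cmp u = K) (hv : c.cmp v = L) :
    c.x u ≠ c.x v := by
  obtain ⟨h1, e, he⟩ := h
  intro hx
  rw [c.mem_DD] at he
  have h2 : e ∈ Mo D c.x := by
    rw [mem_Mo]
    rcases he with ⟨h3, h4⟩ | ⟨h3, h4⟩
    · rw [c.x_eq (h3.trans hu.symm), c.x_eq (h4.trans hv.symm), hx]
    · rw [c.x_eq (h3.trans hv.symm), c.x_eq (h4.trans hu.symm), hx]
  have h5 := c.mem_Mo_iff.1 h2
  rcases he with ⟨h3, h4⟩ | ⟨h3, h4⟩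
  · exact h1 (h3.symm.trans (h5.trans h4))
  · exact h1 ((h3.symm.trans (h5.trans h4)).symm)

end Cfg

end Pool.Agent.helper54.AB
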