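import Mathlib
import Pool.Agent.helper54.AB.Basic

/-! [AB-B0b] Sums over the components, hitting sets, even sets touch five vertices. -/

namespace Pool.Agent.helper54.AB

open Finset Pool.Agent.helper60.ECD Pool.Agent.helper54.LFP

private lemma b2_sum {F E : Type} [Fintype F] [Fintype E] [DecidableEq F] [DecidableEq E]
    (a b : E → F) (hne : ∀ e, a e ≠ b e) (M : Finset E) :
    ∑ t : F, (starS a b t ∩ M).card = 2 * M.card := by
  have h1 : ∀ t : F, (starS a b t ∩ M).card =
      ∑ e ∈ M, ((if a e = t then 1 else 0) + (if b e = t then 1 else 0)) := by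
    intro t
    have hS : starS a b t ∩ M = M.filter (fun e => a e = t ∨ b e = t) := by
      ext e
      rw [mem_inter, mem_starS, mem_filter, and_comm]
    rw [hS, Finset.card_filter]
    refine Finset.sum_congr rfl fun e _ => ?_
    have := hne e
    by_cases h1 : a e = t
    · have h2 : ¬ b e = t := fun h2 => this (h1.trans h2.symm)
      simp [h1, h2]
    · by_cases h2 : b e = t
      · simp [h1, h2]
      · simp [h1, h2]
  rw [Finset.sum_congr rfl (fun t _ => h1 t), Finset.sum_comm]
  have h2 : ∀ e ∈ M, ∑ t : F, (((if a e = t then 1 else 0) + (if b e = t then 1 else 0)) : ℕ) = 2 := by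
    intro e _
    rw [Finset.sum_add_distrib]
    simp
  rw [Finset.sum_congr rfl h2, Finset.sum_const, smul_eq_mul, mul_comm]

variable {V : Type} [Fintype V] [DecidableEq V] {T : SphereTri V} {D : Ends T} (c : Cfg D)

namespace Cfg

/-- Proof: every triangle contains exactly one edge of `Mo`, every edge is in exactly two triangles:
`2 |Mo| = F = 2 n - 4` (`Ends.card_faces`; compare `tcolor_sum` in `LFP/TColor.lean`). -/
theorem Mo_card : (Mo D c.x).card + 2 = Fintype.card V := by
  have h1 := b2_sum D.a1 D.b1 D.ne1 (Mo D c.x)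
  have h2 : ∀ t : TF T, (starS D.a1 D.b1 t ∩ Mo D c.x).card = 1 := by
    intro t
    rw [card_eq_one]
    refine ⟨c.base t, ?_⟩
    ext e
    rw [mem_inter, mem_starS, mem_singleton]
    constructor
    · rintro ⟨h3, h4⟩
      exact c.base_uniq t e h4 ((D.two e t).2 (h3.imp Eq.symm Eq.symm))
    · rintro rfl
      exact ⟨((D.two _ t).1 (c.base_sub t)).imp Eq.symm Eq.symm, c.base_mem t⟩
  rw [Finset.sum_congr rfl (fun t _ => h2 t), Finset.sum_const, smul_eq_mul, mul_one,
    card_univ] at h1
  have h3 := D.card_faces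
  omega

theorem sum_VK : ∑ K, (c.VK K).card = Fintype.card V := by
  have h := Finset.card_eq_sum_card_fiberwise (s := (univ : Finset V)) (t := (univ : Finset c.Q))
    (f := c.cmp) (fun _ _ => mem_coe.2 (mem_univ _))
  rw [card_univ] at h
  rw [h]
  rfl

theorem sum_EK : ∑ K, (c.EK K).card = (Mo D c.x).card := by
  have h := Finset.card_eq_sum_card_fiberwise (s := Mo D c.x) (t := (univ : Finset c.Q))
    (f := fun e => c.cmp (D.a0 e)) (fun _ _ => mem_coe.2 (mem_univ _))
  rw [h]
  rfl

/-- Proof: a nonempty even `Z ⊆ Mo` meets some `EK K`; `Z ∩ EK K` is even, because the edges of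
`Z` at a vertex `v` are all in `EK (c.cmp v)`. -/
theorem hit_union (S : c.Q → Finset V) (h : ∀ K, Hit D.a0 D.b0 (c.EK K) (S K)) :
    Hit D.a0 D.b0 (Mo D c.x) (univ.biUnion S) := by
  intro Z hZ hne hev
  obtain ⟨e, he⟩ := hne
  have key : ∀ (f : TE T) (v : V), f ∈ Z → f ∈ starS D.a0 D.b0 v → c.cmp (D.a0 f) = c.cmp v := by
    intro f v hf hv
    rcases mem_starS.1 hv with h1 | h1
    · rw [h1]
    · rw [c.cmp_edge (hZ hf), h1]
  obtain ⟨f, hf, hfS⟩ := h (c.cmp (D.a0 e)) (Z ∩ c.EK (c.cmp (D.a0 e))) inter_subset_right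
    ⟨e, mem_inter.2 ⟨he, c.mem_EK.2 ⟨hZ he, rfl⟩⟩⟩ (by
      intro v
      by_cases hv : c.cmp v = c.cmp (D.a0 e)
      · have h1 : starS D.a0 D.b0 v ∩ (Z ∩ c.EK (c.cmp (D.a0 e))) = starS D.a0 D.b0 v ∩ Z := by
          ext f
          simp only [mem_inter]
          constructor
          · exact fun h2 => ⟨h2.1, h2.2.1⟩
          · exact fun h2 => ⟨h2.1, h2.2, c.mem_EK.2 ⟨hZ h2.2, (key f v h2.2 h2.1).trans hv⟩⟩
        rw [h1]
        exact hev v
      · have h1 : starS D.a0 D.b0 v ∩ (Z ∩ c.EK (c.cmp (D.a0 e))) = ∅ := by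
          rw [eq_empty_iff_forall_notMem]
          intro f hf
          rw [mem_inter, mem_inter] at hf
          exact hv ((key f v hf.2.1 hf.1).symm.trans (c.mem_EK.1 hf.2.2).2)
        rw [h1]
        simp)
  exact ⟨f, (mem_inter.1 hf).1, hfS.imp (fun h1 => mem_biUnion.2 ⟨_, mem_univ _, h1⟩)
    (fun h1 => mem_biUnion.2 ⟨_, mem_univ _, h1⟩)⟩

/-- A nonempty even set of monochromatic edges touches at least five vertices. Proof: let `U` be the
set of these vertices. If `|U| ≤ 4` then every vertex of `U` has at most three neighbours in `U`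
(the edges are pairs, different edges at `v` have different other ends), so even degree at most two
in `Z`, and `2 |Z| = Σ_{v ∈ U} (starS v ∩ Z).card ≤ 2 · 4`, `|Z| ≤ 4`, contradicting `c.good`. -/
theorem ev_five {Z : Finset (TE T)} (hZ : Z ⊆ Mo D c.x) (hne : Z.Nonempty)
    (hev : Ev D.a0 D.b0 Z) : 5 ≤ (univ.filter (fun v => ∃ e ∈ Z, v ∈ e.1)).card := by
  by_contra hlt
  have h5 := c.good Z hZ hne hev
  set U : Finset V := univ.filter (fun v => ∃ e ∈ Z, v ∈ e.1) with hU
  have h1 : ∀ v : V, (starS D.a0 D.b0 v ∩ Z).card ≤ if v ∈ U then 2 else 0 := by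
    intro v
    split_ifs with hv
    · have h2 : (starS D.a0 D.b0 v ∩ Z).card ≤ (U.erase v).card := by
        refine Finset.card_le_card_of_injOn
          (fun e => if D.a0 e = v then D.b0 e else D.a0 e) ?_ ?_
        · intro e he
          rw [mem_coe, mem_inter, mem_starS] at he
          rw [mem_coe, mem_erase]
          refine ⟨?_, ?_⟩
          · by_cases h3 : D.a0 e = v
            · simp only [h3, if_true]
              exact fun h4 => D.ne0 e (h3.trans h4.symm)
            · simp only [h3, if_false]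
              exact h3
          · rw [hU, mem_filter]
            refine ⟨mem_univ _, e, he.2, ?_⟩
            rw [D.pair e]
            by_cases h3 : D.a0 e = v
            · simp [h3]
            · simp [h3]
        · intro e he f hf hef
          rw [mem_coe, mem_inter, mem_starS] at he hf
          have hpe : ∀ g : TE T, (D.a0 g = v ∨ D.b0 g = v) →
              g.1 = {v, if D.a0 g = v then D.b0 g else D.a0 g} := by
            intro g hg
            by_cases h : D.a0 g = v
            · rw [if_pos h, D.pair g, h]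
            · rw [if_neg h, D.pair g, hg.resolve_left h, pair_comm]
          apply Subtype.ext
          rw [hpe e he.1, hpe f hf.1]
          exact congrArg (fun z => ({v, z} : Finset V)) hef
      rw [card_erase_of_mem hv] at h2
      obtain ⟨k, hk⟩ := hev v
      omega
    · rw [Nat.le_zero, card_eq_zero, eq_empty_iff_forall_notMem]
      intro e he
      rw [mem_inter, mem_starS] at he
      apply hv
      rw [hU, mem_filter]
      refine ⟨mem_univ _, e, he.2, ?_⟩
      rw [D.pair e, mem_insert, mem_singleton]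
      exact he.1.imp Eq.symm Eq.symm
  have h2 := b2_sum D.a0 D.b0 D.ne0 Z
  have h3 : ∑ v : V, (starS D.a0 D.b0 v ∩ Z).card ≤ ∑ v : V, (if v ∈ U then 2 else 0) :=
    Finset.sum_le_sum fun v _ => h1 v
  have h4 : ∑ v : V, (if v ∈ U then 2 else 0) = 2 * U.card := by
    rw [Finset.sum_ite_mem, Finset.univ_inter, Finset.sum_const, smul_eq_mul, mul_comm]
  omega

end Cfg

end Pool.Agent.helper54.AB
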