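import Mathlib
import Pool.Agent.helper54.AB.Basic

/-! [AB-B4] Counting triangles and edges between components. Proofs by helper23. -/

namespace Pool.Agent.helper54.AB

open Finset Pool.Agent.helper60.ECD Pool.Agent.helper54.LFP

variable {V : Type} [Fintype V] [DecidableEq V] {T : SphereTri V} {D : Ends T} (c : Cfg D)

private theorem cnt_faces (D : Ends T) (e : TE T) :
    ((univ : Finset (TF T)).filter (fun t => e.1 ⊆ t.1)).card = 2 := by
  have h : (univ : Finset (TF T)).filter (fun t => e.1 ⊆ t.1) = {D.a1 e, D.b1 e} := by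
    ext t
    rw [mem_filter, mem_insert, mem_singleton, D.two e t]
    exact ⟨fun h => h.2, fun h => ⟨mem_univ _, h⟩⟩
  rw [h, card_pair (D.ne1 e)]

namespace Cfg

private theorem cnt_TA {K L : c.Q} {t : TF T} :
    t ∈ c.TA K L ↔ c.cmp (D.a0 (c.base t)) = K ∧ c.cmp (c.apex t) = L := by
  rw [c.mem_TA, c.mem_EK]
  exact ⟨fun h => ⟨h.1.2, h.2⟩, fun h => ⟨⟨c.base_mem t, h.1⟩, h.2⟩⟩

private theorem cnt_edges {K L : c.Q} (h : K ≠ L) (t : TF T) :
    ((c.DD K L).filter (fun e => e.1 ⊆ t.1)).card =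
      (if t ∈ c.TA K L then 2 else 0) + (if t ∈ c.TA L K then 2 else 0) := by
  have hpq : c.cmp (D.a0 (c.base t)) = c.cmp (D.b0 (c.base t)) := c.cmp_edge (c.base_mem t)
  obtain ⟨⟨e1, he1, hs1⟩, ⟨e2, he2, hs2⟩⟩ := c.apex_edges t
  have hne : e1 ≠ e2 := by
    intro h12
    rw [h12, he2] at he1
    have hb : D.b0 (c.base t) ∈ ({c.apex t, D.a0 (c.base t)} : Finset V) := by
      rw [← he1]; exact mem_insert_of_mem (mem_singleton_self _)
    rw [mem_insert, mem_singleton] at hb
    rcases hb with hb | hb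
    · exact c.apex_ne' t (congrArg c.cmp hb.symm)
    · exact D.ne0 _ hb.symm
  have hbase : c.base t ∉ c.DD K L := by
    rw [c.mem_DD]
    rintro (⟨h1, h2⟩ | ⟨h1, h2⟩)
    · exact h (h1.symm.trans (hpq.trans h2))
    · exact h (h2.symm.trans (hpq.symm.trans h1))
  by_cases hc : (c.cmp (c.apex t) = K ∧ c.cmp (D.a0 (c.base t)) = L) ∨
      (c.cmp (c.apex t) = L ∧ c.cmp (D.a0 (c.base t)) = K)
  · have hfil : (c.DD K L).filter (fun e => e.1 ⊆ t.1) = {e1, e2} := by
      ext e
      rw [mem_filter, mem_insert, mem_singleton]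
      constructor
      · rintro ⟨h1, h2⟩
        rcases c.edge_cases h2 with h3 | h3 | h3
        · rw [h3] at h1; exact absurd h1 hbase
        · exact Or.inl (Subtype.ext (h3.trans he1.symm))
        · exact Or.inr (Subtype.ext (h3.trans he2.symm))
      · rintro (h1 | h1)
        · rw [h1]; exact ⟨(c.mem_DD_pair he1).2 hc, hs1⟩
        · rw [h1]; refine ⟨(c.mem_DD_pair he2).2 ?_, hs2⟩
          rw [← hpq]; exact hc
    rw [hfil, card_pair hne]
    rcases hc with ⟨h1, h2⟩ | ⟨h1, h2⟩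
    · have m1 : t ∉ c.TA K L := fun hm => h ((c.cnt_TA.1 hm).1.symm.trans h2)
      have m2 : t ∈ c.TA L K := c.cnt_TA.2 ⟨h2, h1⟩
      rw [if_neg m1, if_pos m2]
    · have m1 : t ∈ c.TA K L := c.cnt_TA.2 ⟨h2, h1⟩
      have m2 : t ∉ c.TA L K := fun hm => h (h2.symm.trans (c.cnt_TA.1 hm).1)
      rw [if_pos m1, if_neg m2]
  · have m1 : t ∉ c.TA K L := fun hm =>
      hc (Or.inr ⟨(c.cnt_TA.1 hm).2, (c.cnt_TA.1 hm).1⟩)
    have m2 : t ∉ c.TA L K := fun hm =>
      hc (Or.inl ⟨(c.cnt_TA.1 hm).2, (c.cnt_TA.1 hm).1⟩)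
    rw [if_neg m1, if_neg m2, card_eq_zero]
    ext e
    rw [mem_filter]
    constructor
    · rintro ⟨h1, h2⟩
      exfalso
      rcases c.edge_cases h2 with h3 | h3 | h3
      · rw [h3] at h1; exact hbase h1
      · exact hc ((c.mem_DD_pair h3).1 h1)
      · have h4 := (c.mem_DD_pair h3).1 h1
        rw [← hpq] at h4
        exact hc h4
    · intro h1; exact absurd h1 (notMem_empty _)

/-- Proof: count the pairs `(t, e)` with `e ∈ DD K L`, `e.1 ⊆ t.1`: every `e` is in exactly two
triangles, both in `TA K L ∪ TA L K`; each triangle of `TA K L ∪ TA L K` (disjoint union) has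
exactly two edges in `DD K L` (the two edges at the apex, `edge_cases`, `apex_edges`). -/
theorem DD_card {K L : c.Q} (h : K ≠ L) : (c.DD K L).card = c.tau K L + c.tau L K := by
  have h1 : ∑ e ∈ c.DD K L, ((univ : Finset (TF T)).filter (fun t => e.1 ⊆ t.1)).card =
      ∑ t : TF T, ((c.DD K L).filter (fun e => e.1 ⊆ t.1)).card := by
    simp only [card_filter]
    exact sum_comm
  have h2 : ∑ e ∈ c.DD K L, ((univ : Finset (TF T)).filter (fun t => e.1 ⊆ t.1)).card =
      (c.DD K L).card * 2 := by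
    rw [sum_congr rfl (fun e _ => cnt_faces D e), sum_const, smul_eq_mul]
  have h3 : ∑ t : TF T, ((c.DD K L).filter (fun e => e.1 ⊆ t.1)).card =
      2 * c.tau K L + 2 * c.tau L K := by
    rw [sum_congr rfl (fun t _ => c.cnt_edges h t), sum_add_distrib, ← sum_filter, ← sum_filter,
      sum_const, sum_const, filter_mem_eq_inter, filter_mem_eq_inter, univ_inter, univ_inter,
      smul_eq_mul, smul_eq_mul]
    unfold tau
    ring
  omega

/-- Proof: the triangles with base in `EK K` are the disjoint union of the `TA K L`; each edge of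
`EK K` is the base of exactly two triangles. -/
theorem tau_sum (K : c.Q) : ∑ L, c.tau K L = 2 * (c.EK K).card := by
  have h1 : ((univ : Finset (TF T)).filter (fun t => c.base t ∈ c.EK K)).card =
      ∑ L, c.tau K L := by
    rw [card_eq_sum_card_fiberwise (f := fun t => c.cmp (c.apex t)) (t := univ)
      (fun t _ => mem_coe.2 (mem_univ _))]
    refine sum_congr rfl fun L _ => ?_
    unfold tau TA
    rw [filter_filter]
  have h2 : ((univ : Finset (TF T)).filter (fun t => c.base t ∈ c.EK K)).card =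
      ∑ e ∈ c.EK K, (((univ : Finset (TF T)).filter (fun t => c.base t ∈ c.EK K)).filter
        (fun t => c.base t = e)).card := by
    refine card_eq_sum_card_fiberwise (f := fun t => c.base t) (t := c.EK K) ?_
    intro t ht
    exact mem_coe.2 (mem_filter.1 (mem_coe.1 ht)).2
  rw [← h1, h2, mul_comm]
  rw [← smul_eq_mul, ← sum_const]
  refine sum_congr rfl fun e he => ?_
  rw [← cnt_faces D e]
  congr 1
  ext t
  rw [mem_filter, mem_filter, mem_filter]
  constructor
  · rintro ⟨_, h⟩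
    refine ⟨mem_univ _, ?_⟩
    rw [← h]; exact c.base_sub t
  · rintro ⟨_, h⟩
    have hb := c.base_eq ((c.mem_EK.1 he).1) h
    exact ⟨⟨mem_univ _, by rw [hb]; exact he⟩, hb⟩

/-- Proof: `Nb_face`. -/
theorem tau_nb {K L : c.Q} (h : ¬ c.Nb K L) : c.tau K L = 0 := by
  unfold tau
  rw [card_eq_zero]
  ext t
  constructor
  · intro ht
    obtain ⟨h1, h2⟩ := c.cnt_TA.1 ht
    have := c.Nb_face t
    rw [h1, h2] at this
    exact absurd this h
  · intro ht; exact absurd ht (notMem_empty _)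

private theorem cnt_r {K L : c.Q} (h : K ≠ L) {v : V} (hv : c.cmp v = K) :
    ((c.DD K L).filter (fun e => v ∈ e.1)).card = c.r L v := by
  have key : ∀ e ∈ (c.DD K L).filter (fun e => v ∈ e.1),
      e.1 = {v, if D.a0 e = v then D.b0 e else D.a0 e} ∧
      c.cmp (if D.a0 e = v then D.b0 e else D.a0 e) = L := by
    intro e he
    obtain ⟨h1, h2⟩ := mem_filter.1 he
    rw [c.mem_DD] at h1
    by_cases ha : D.a0 e = v
    · rw [if_pos ha]
      refine ⟨by rw [← ha]; exact D.pair e, ?_⟩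
      rcases h1 with h1 | h1
      · exact h1.2
      · rw [ha, hv] at h1; exact absurd h1.1 h
    · rw [if_neg ha]
      have hb : D.b0 e = v := ((mem_edge D).1 h2).resolve_left ha
      refine ⟨by rw [← hb, pair_comm]; exact D.pair e, ?_⟩
      rcases h1 with h1 | h1
      · rw [hb, hv] at h1; exact absurd h1.2 h
      · exact h1.1
  unfold r
  refine card_bij (fun e _ => if D.a0 e = v then D.b0 e else D.a0 e) ?_ ?_ ?_
  · intro e he
    exact c.mem_NL.2 ⟨(key e he).2, e, (key e he).1⟩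
  · intro e he e' he' hee
    apply Subtype.ext
    rw [(key e he).1, (key e' he').1]
    rw [hee]
  · intro u hu
    obtain ⟨h1, e, h2⟩ := c.mem_NL.1 hu
    have hm : e ∈ (c.DD K L).filter (fun e => v ∈ e.1) := by
      refine mem_filter.2 ⟨(c.mem_DD_pair h2).2 (Or.inl ⟨hv, h1⟩), ?_⟩
      rw [h2]; exact mem_insert_self _ _
    refine ⟨e, hm, ?_⟩
    have h3 := (key e hm).1
    have hne : v ≠ u := by
      intro hvu
      rw [← hvu, hv] at h1
      exact h h1
    have h4 : u ∈ ({v, if D.a0 e = v then D.b0 e else D.a0 e} : Finset V) := by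
      rw [← h3, h2]; exact mem_insert_of_mem (mem_singleton_self _)
    rw [mem_insert, mem_singleton] at h4
    rcases h4 with h4 | h4
    · exact absurd h4.symm hne
    · exact h4.symm

theorem sum_r {K L : c.Q} (h : K ≠ L) : ∑ v ∈ c.VK K, c.r L v = (c.DD K L).card := by
  have h1 : ∑ v ∈ c.VK K, c.r L v =
      ∑ v ∈ c.VK K, ((c.DD K L).filter (fun e => v ∈ e.1)).card :=
    sum_congr rfl fun v hv => (c.cnt_r h (c.mem_VK.1 hv)).symm
  have h2 : ∑ v ∈ c.VK K, ((c.DD K L).filter (fun e => v ∈ e.1)).card =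
      ∑ e ∈ c.DD K L, ((c.VK K).filter (fun v => v ∈ e.1)).card := by
    simp only [card_filter]
    exact sum_comm
  rw [h1, h2, card_eq_sum_ones]
  refine sum_congr rfl fun e he => ?_
  rw [card_eq_one]
  rcases c.mem_DD.1 he with ⟨h3, h4⟩ | ⟨h3, h4⟩
  · refine ⟨D.a0 e, ?_⟩
    ext v
    rw [mem_filter, mem_singleton, c.mem_VK, mem_edge D]
    constructor
    · rintro ⟨h5, h6 | h6⟩
      · exact h6.symm
      · rw [← h6, h4] at h5; exact absurd h5.symm h
    · rintro rfl
      exact ⟨h3, Or.inl rfl⟩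
  · refine ⟨D.b0 e, ?_⟩
    ext v
    rw [mem_filter, mem_singleton, c.mem_VK, mem_edge D]
    constructor
    · rintro ⟨h5, h6 | h6⟩
      · rw [← h6, h3] at h5; exact absurd h5.symm h
      · exact h6.symm
    · rintro rfl
      exact ⟨h4, Or.inr rfl⟩

theorem sum_r_VN {K L : c.Q} (h : K ≠ L) : ∑ v ∈ c.VN K L, c.r L v = (c.DD K L).card := by
  rw [← c.sum_r h]
  refine sum_subset (filter_subset _ _) fun v hv hv' => ?_
  unfold r
  rw [card_eq_zero]
  by_contra hne
  exact hv' (mem_filter.2 ⟨hv, nonempty_iff_ne_empty.2 hne⟩)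

/-- `u` is in `NL L v` iff they are adjacent in the graph of `T` and `u` is in `L` -/
theorem mem_NL_adj {L : c.Q} {u v : V} : u ∈ c.NL L v ↔ c.cmp u = L ∧ T.graph.Adj v u := by
  rw [c.mem_NL]
  refine and_congr_right fun _ => ?_
  constructor
  · rintro ⟨e, he⟩
    have h1 := e.2
    unfold edgesOf at h1
    obtain ⟨-, h2, t, ht, h3⟩ := mem_filter.1 h1
    rw [he] at h2 h3
    refine ⟨?_, t, ht, h3 (mem_insert_self _ _), h3 (mem_insert_of_mem (mem_singleton_self _))⟩
    rintro rfl
    simp at h2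
  · rintro ⟨hne, t, ht, h1, h2⟩
    refine ⟨⟨{v, u}, ?_⟩, rfl⟩
    unfold edgesOf
    refine mem_filter.2 ⟨mem_univ _, card_pair hne, t, ht, ?_⟩
    intro w hw
    rw [mem_insert, mem_singleton] at hw
    rcases hw with rfl | rfl
    · exact h1
    · exact h2

end Cfg

end Pool.Agent.helper54.AB
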