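import Mathlib
import Pool.Agent.helper54.AB.Basic

/-! [AB-B2] Pairs of neighbouring components. -/

namespace Pool.Agent.helper54.AB

open Finset Pool.Agent.helper60.ECD Pool.Agent.helper54.LFP

variable {V : Type} [Fintype V] [DecidableEq V] {T : SphereTri V} {D : Ends T} (c : Cfg D)

namespace Cfg

/-- a monochromatic edge does not join two different components -/
private lemma Mo_not_DD {K L : c.Q} (h : K ≠ L) {e : TE T} (he : e ∈ Mo D c.x) : e ∉ c.DD K L := by
  intro h1
  have h2 := c.cmp_edge he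
  rcases c.mem_DD.1 h1 with ⟨h3, h4⟩ | ⟨h3, h4⟩
  · exact h (h3.symm.trans (h2.trans h4))
  · exact h (h4.symm.trans (h2.symm.trans h3))

/-- the edges of a triangle -/
private lemma mem_star1 {t : TF T} {e : TE T} : e ∈ starS D.a1 D.b1 t ↔ e.1 ⊆ t.1 := by
  rw [mem_starS, D.two]
  exact ⟨fun h => h.imp Eq.symm Eq.symm, fun h => h.imp Eq.symm Eq.symm⟩

/-- Proof: let `c e = 1` for `e ∈ DD K L` and `0` otherwise. Every triangle `t` has no or exactly two
edges in `DD K L` (`edge_cases`, `apex_edges`, `mem_DD_pair`: the base is not in `DD K L` as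
`K ≠ L`; the two edges at the apex are both in `DD K L` or both not). So the sum of `c` over
`starS D.a1 D.b1 t` is zero, and `duality D.a0 D.b0 D.a1 D.b1 ..` gives `y`. `y` is constant on
components (`cmp_lift`, `mem_Mo_iff`). Subtract the constant `y (K)`; an edge of `DD K L` shows that
then `y (L) = 1`. -/
theorem pair_fun {K L : c.Q} (h : c.Nb K L) : ∃ y : V → ZMod 2,
    (∀ e, y (D.a0 e) + y (D.b0 e) = if e ∈ c.DD K L then 1 else 0) ∧
    (∀ v, c.cmp v = K → y v = 0) ∧ ∀ v, c.cmp v = L → y v = 1 := by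
  obtain ⟨hKL, e0, he0⟩ := h
  obtain ⟨hV, hF, -⟩ := sphere_nonempty T
  have hsum : ∀ t : TF T, ∑ e ∈ starS D.a1 D.b1 t,
      (if e ∈ c.DD K L then (1 : ZMod 2) else 0) = 0 := by
    intro t
    obtain ⟨⟨e1, p1, s1⟩, ⟨e2, p2, s2⟩⟩ := c.apex_edges t
    have hna : c.apex t ≠ D.a0 (c.base t) := fun h => c.apex_ne t (congrArg c.cmp h)
    have hnb : c.apex t ≠ D.b0 (c.base t) := fun h => c.apex_ne' t (congrArg c.cmp h)
    have q1 : c.base t ≠ e1 := by
      intro h
      apply c.apex_not t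
      rw [h, p1]
      exact mem_insert_self _ _
    have q2 : c.base t ≠ e2 := by
      intro h
      apply c.apex_not t
      rw [h, p2]
      exact mem_insert_self _ _
    have q3 : e1 ≠ e2 := by
      rintro rfl
      have h1 : D.a0 (c.base t) ∈ ({c.apex t, D.b0 (c.base t)} : Finset V) := by
        rw [← p2, p1]
        exact mem_insert_of_mem (mem_singleton_self _)
      rw [mem_insert, mem_singleton] at h1
      rcases h1 with h1 | h1
      · exact hna h1.symm
      · exact D.ne0 _ h1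
    have hstar : starS D.a1 D.b1 t = {c.base t, e1, e2} := by
      ext e
      rw [mem_star1, mem_insert, mem_insert, mem_singleton]
      constructor
      · intro h
        rcases c.edge_cases h with h | h | h
        · exact Or.inl h
        · exact Or.inr (Or.inl (Subtype.ext (h.trans p1.symm)))
        · exact Or.inr (Or.inr (Subtype.ext (h.trans p2.symm)))
      · rintro (rfl | rfl | rfl)
        · exact c.base_sub t
        · exact s1
        · exact s2
    rw [hstar, sum_insert (by simp [q1, q2]), sum_insert (by simp [q3]), sum_singleton,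
      if_neg (Mo_not_DD c hKL (c.base_mem t)), zero_add]
    have h12 : e1 ∈ c.DD K L ↔ e2 ∈ c.DD K L := by
      rw [c.mem_DD_pair p1, c.mem_DD_pair p2, c.cmp_edge (c.base_mem t)]
    by_cases h3 : e1 ∈ c.DD K L
    · rw [if_pos h3, if_pos (h12.1 h3)]
      decide
    · rw [if_neg h3, if_neg (fun h => h3 (h12.2 h)), zero_add]
  obtain ⟨y, hy⟩ := duality D.a0 D.b0 D.a1 D.b1 D.ne0 D.ne1 D.conn0 D.conn1 D.euler D.even_star
    (fun e => if e ∈ c.DD K L then 1 else 0) hsum
  have hadd : ∀ p q : ZMod 2, (0 : ZMod 2) = p + q → p = q := by decide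
  have hconst : ∀ u v, c.cmp u = c.cmp v → y u = y v := fun u v huv =>
    c.cmp_lift y (fun e he => hadd _ _ (by rw [← hy e, if_neg (Mo_not_DD c hKL he)])) huv
  obtain ⟨v0, hv0⟩ := c.cmp_surj K
  have h2 : ∀ p q r : ZMod 2, (p + r) + (q + r) = p + q := by decide
  have h3 : ∀ p : ZMod 2, p + p = 0 := by decide
  refine ⟨fun v => y v + y v0, fun e => ?_, fun v hv => ?_, fun v hv => ?_⟩
  · rw [h2, ← hy e]
  · change y v + y v0 = 0
    rw [hconst v v0 (hv.trans hv0.symm), h3]
  · change y v + y v0 = 1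
    have h4 := hy e0
    rw [if_pos he0] at h4
    rcases c.mem_DD.1 he0 with ⟨h5, h6⟩ | ⟨h5, h6⟩
    · rw [hconst v _ (hv.trans h6.symm), hconst v0 _ (hv0.trans h5.symm), add_comm]
      exact h4.symm
    · rw [hconst v _ (hv.trans h5.symm), hconst v0 _ (hv0.trans h6.symm)]
      exact h4.symm

/-- Proof: in `ZMod 2`, `|Z ∩ DD K L| = Σ_{e ∈ Z} (y (a0 e) + y (b0 e)) =
Σ_v y v · (starS v ∩ Z).card = 0`. -/
theorem ev_DD {K L : c.Q} (h : c.Nb K L) {Z : Finset (TE T)} (hZ : Ev D.a0 D.b0 Z) :
    Even (Z ∩ c.DD K L).card := by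
  obtain ⟨y, hy, -, -⟩ := c.pair_fun h
  have h1 : ((Z ∩ c.DD K L).card : ZMod 2) = ∑ e ∈ Z, (y (D.a0 e) + y (D.b0 e)) := by
    rw [← Finset.filter_mem_eq_inter, Finset.card_filter, Nat.cast_sum]
    refine Finset.sum_congr rfl fun e _ => ?_
    rw [hy e]
    split_ifs <;> simp
  have h2 : ∀ e, y (D.a0 e) + y (D.b0 e) =
      ∑ v, y v * ((if D.a0 e = v then 1 else 0) + (if D.b0 e = v then 1 else 0)) := by
    intro e
    simp only [mul_add, mul_ite, mul_one, mul_zero, sum_add_distrib]
    simp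
  have h3 : ∀ v, ∑ e ∈ Z, (((if D.a0 e = v then 1 else 0) + (if D.b0 e = v then 1 else 0)) :
      ZMod 2) = ((starS D.a0 D.b0 v ∩ Z).card : ZMod 2) := by
    intro v
    rw [inter_comm, ← Finset.filter_mem_eq_inter, Finset.card_filter, Nat.cast_sum]
    refine Finset.sum_congr rfl fun e _ => ?_
    have := D.ne0 e
    by_cases ha : D.a0 e = v
    · have hb : ¬ D.b0 e = v := fun hb => this (ha.trans hb.symm)
      rw [if_pos ha, if_neg hb, if_pos (mem_starS.2 (Or.inl ha))]
      simp
    · by_cases hb : D.b0 e = v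
      · rw [if_neg ha, if_pos hb, if_pos (mem_starS.2 (Or.inr hb))]
        simp
      · rw [if_neg ha, if_neg hb, if_neg (fun h => (mem_starS.1 h).elim ha hb)]
        simp
  have h4 : ((Z ∩ c.DD K L).card : ZMod 2) = 0 := by
    rw [h1, Finset.sum_congr rfl (fun e _ => h2 e), Finset.sum_comm]
    refine Finset.sum_eq_zero fun v _ => ?_
    rw [← Finset.mul_sum, h3 v, (ZMod.natCast_eq_zero_iff_even).2 (hZ v), mul_zero]
  exact (ZMod.natCast_eq_zero_iff_even).1 h4

omit [Fintype V] in
private theorem pair_edge_aux {u w : V} (h : u ≠ w) : ({u, w} : Finset V).card = 2 := card_pair h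

private theorem pair_edge (t : TF T) {u w : V} (hu : u ∈ t.1) (hw : w ∈ t.1) (h : u ≠ w) :
    ∃ e : TE T, e.1 = {u, w} ∧ e.1 ⊆ t.1 := by
  have hsub : ({u, w} : Finset V) ⊆ t.1 := by
    intro z hz
    simp only [mem_insert, mem_singleton] at hz
    rcases hz with rfl | rfl
    · exact hu
    · exact hw
  have hmem : ({u, w} : Finset V) ∈ edgesOf T.faces := by
    unfold edgesOf
    rw [mem_filter]
    exact ⟨mem_univ _, pair_edge_aux h, t.1, t.2, hsub⟩
  exact ⟨⟨_, hmem⟩, rfl, hsub⟩

/-- the triangles on the side of `L` -/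
noncomputable def Sig (y : V → ZMod 2) : Finset (TF T) := univ.filter (fun t => ∃ v ∈ t.1, y v = 1)

/-- Proof: section 3, (5), of the paper: let `e` have the triangles `t = a1 e`, `t' = b1 e`, with
third vertices `w`, `w'`. If `y = 1` at an end of `e` then both triangles are in `Sig y`, and
`e ∉ EK K`. Otherwise `y = 0` at both ends `a, b` of `e`, and `t ∈ Sig y` iff `y w = 1`. If `y w = 1`
then the edges `a w`, `b w` are in `DD K L`, `w` is in `L` (because `y = 0` on `K`) and `a`, `b` are in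
`K`; so `e ∈ EK K`, `e = base t`, `w = apex t`. Conversely if `e ∈ EK K` and `apex t ∈ L` then
`y w = 1`. -/
theorem cut_Sig {K L : c.Q} {y : V → ZMod 2}
    (hy : ∀ e, y (D.a0 e) + y (D.b0 e) = if e ∈ c.DD K L then 1 else 0)
    (hK : ∀ v, c.cmp v = K → y v = 0) (hL : ∀ v, c.cmp v = L → y v = 1) :
    cutS D.a1 D.b1 (Sig y) = c.AS K L := by
  have h01 : ∀ p : ZMod 2, p ≠ 1 → p = 0 := by decide
  have hSig : ∀ t : TF T, t ∈ Sig y ↔ ∃ v ∈ t.1, y v = 1 := fun t => by simp [Sig]
  have hone : ∀ e : TE T, y (D.a0 e) ≠ y (D.b0 e) → e ∈ c.DD K L := by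
    intro e he
    by_contra hc
    have h1 := hy e
    rw [if_neg hc] at h1
    have h2 : ∀ p q : ZMod 2, p + q = 0 → p = q := by decide
    exact he (h2 _ _ h1)
  have key : ∀ (e : TE T) (t : TF T), e.1 ⊆ t.1 → y (D.a0 e) ≠ 1 → y (D.b0 e) ≠ 1 →
      (t ∈ Sig y ↔ e ∈ c.EK K ∧ c.cmp (c.apex t) = L) := by
    intro e t het ha hb
    have hpa : D.a0 e ∈ e.1 := by rw [D.pair e]; exact mem_insert_self _ _
    have hpb : D.b0 e ∈ e.1 := by rw [D.pair e]; exact mem_insert_of_mem (mem_singleton_self _)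
    rw [hSig]
    constructor
    · rintro ⟨w, hwt, hw⟩
      have side : ∀ u ∈ e.1, y u ≠ 1 → c.cmp u = K ∧ c.cmp w = L := by
        intro u hu hyu
        have huw : u ≠ w := fun h => hyu (h ▸ hw)
        obtain ⟨e1, he1, -⟩ := pair_edge t (het hu) hwt huw
        have hne : y (D.a0 e1) ≠ y (D.b0 e1) := by
          have hp := D.pair e1
          rw [he1] at hp
          have hu2 : u = D.a0 e1 ∨ u = D.b0 e1 := by
            have : u ∈ ({D.a0 e1, D.b0 e1} : Finset V) := by rw [← hp]; simp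
            simpa using this
          have hw2 : w = D.a0 e1 ∨ w = D.b0 e1 := by
            have : w ∈ ({D.a0 e1, D.b0 e1} : Finset V) := by rw [← hp]; simp
            simpa using this
          rcases hu2 with hu2 | hu2 <;> rcases hw2 with hw2 | hw2
          · exact absurd (hu2.trans hw2.symm) huw
          · rw [← hu2, ← hw2, hw]; exact hyu
          · rw [← hu2, ← hw2, hw]; exact fun h => hyu h.symm
          · exact absurd (hu2.trans hw2.symm) huw
        rcases (c.mem_DD_pair he1).1 (hone e1 hne) with h | h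
        · exact h
        · exact absurd (hK w h.2) (by rw [hw]; decide)
      have h1 := side _ hpa ha
      have h2 := side _ hpb hb
      have hMo : e ∈ Mo D c.x := by
        rw [c.mem_Mo_iff, h1.1, h2.1]
      refine ⟨c.mem_EK.2 ⟨hMo, h1.1⟩, ?_⟩
      have hbase := c.base_eq hMo het
      have hap := c.apex_mem t
      have hnot := c.apex_not t
      rw [hbase] at hnot
      have hsub : ({D.a0 e, D.b0 e, w} : Finset V) ⊆ t.1 := by
        intro z hz
        simp only [mem_insert, mem_singleton] at hz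
        rcases hz with rfl | rfl | rfl
        · exact het hpa
        · exact het hpb
        · exact hwt
      have hwa : w ≠ D.a0 e := fun h => ha (h ▸ hw)
      have hwb : w ≠ D.b0 e := fun h => hb (h ▸ hw)
      have hcard : ({D.a0 e, D.b0 e, w} : Finset V).card = 3 := by
        rw [card_eq_three]
        exact ⟨_, _, _, D.ne0 e, hwa.symm, hwb.symm, rfl⟩
      have heq := eq_of_subset_of_card_le hsub (by rw [hcard, T.card_face t.1 t.2])
      rw [← heq] at hap
      simp only [mem_insert, mem_singleton] at hap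
      rcases hap with h | h | h
      · exact absurd (h ▸ hpa) hnot
      · exact absurd (h ▸ hpb) hnot
      · rw [h]; exact h1.2
    · rintro ⟨-, h⟩
      exact ⟨_, c.apex_mem t, hL _ h⟩
  ext e
  rw [mem_cutS, c.mem_AS]
  have hsa := sub_a1 D e
  have hsb := sub_b1 D e
  have hpa : D.a0 e ∈ e.1 := by rw [D.pair e]; exact mem_insert_self _ _
  have hpb : D.b0 e ∈ e.1 := by rw [D.pair e]; exact mem_insert_of_mem (mem_singleton_self _)
  by_cases ha : y (D.a0 e) = 1
  · have h1 : D.a1 e ∈ Sig y := (hSig _).2 ⟨_, hsa hpa, ha⟩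
    have h2 : D.b1 e ∈ Sig y := (hSig _).2 ⟨_, hsb hpa, ha⟩
    constructor
    · intro h
      exact absurd (iff_of_true h1 h2) h
    · rintro ⟨h3, -⟩
      have := hK _ (c.mem_EK.1 h3).2
      rw [ha] at this
      exact absurd this (by decide)
  · by_cases hb : y (D.b0 e) = 1
    · have h1 : D.a1 e ∈ Sig y := (hSig _).2 ⟨_, hsa hpb, hb⟩
      have h2 : D.b1 e ∈ Sig y := (hSig _).2 ⟨_, hsb hpb, hb⟩
      constructor
      · intro h
        exact absurd (iff_of_true h1 h2) h
      · rintro ⟨h3, -⟩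
        have := hK _ ((c.mem_EK_iff.1 h3) _ hpb)
        rw [hb] at this
        exact absurd this (by decide)
    · rw [key e _ hsa ha hb, key e _ hsb ha hb]
      tauto

/-- Proof: `cut_Sig` and `Ends.even_cut`. -/
theorem AS_ev {K L : c.Q} (h : c.Nb K L) : Ev D.a0 D.b0 (c.AS K L) := by
  obtain ⟨y, hy, hK, hL⟩ := c.pair_fun h
  intro v
  rw [← c.cut_Sig hy hK hL]
  exact D.even_cut (Sig y) v

/-- Proof: `Sig y` is nonempty (a triangle containing a vertex of `L`, `T.covers`) and not everything: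
the triangle `a1 e` for `e ∈ DD K L'` has all its vertices in `K` and `L'` (`edge_cases`), where
`y = 0` (`y` does not change along `e`, because `e ∉ DD K L`). `Ends.conn1` and `cut_Sig`. -/
theorem AS_nonempty {K L L' : c.Q} (h : c.Nb K L) (h' : c.Nb K L') (hne : L ≠ L') :
    (c.AS K L).Nonempty := by
  obtain ⟨y, hy, hK, hL⟩ := c.pair_fun h
  have hSig : ∀ t : TF T, t ∈ Sig y ↔ ∃ v ∈ t.1, y v = 1 := fun t => by simp [Sig]
  have hflat : ∀ e : TE T, e ∉ c.DD K L → y (D.a0 e) = y (D.b0 e) := by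
    intro e he
    have h1 := hy e
    rw [if_neg he] at h1
    have h2 : ∀ p q : ZMod 2, p + q = 0 → p = q := by decide
    exact h2 _ _ h1
  have hA : (Sig y : Finset (TF T)).Nonempty := by
    obtain ⟨v, hv⟩ := c.cmp_surj L
    obtain ⟨t, ht, hvt⟩ := T.covers v
    exact ⟨⟨t, ht⟩, (hSig _).2 ⟨v, hvt, hL v hv⟩⟩
  have hA' : ((Sig y : Finset (TF T))ᶜ).Nonempty := by
    obtain ⟨e, he⟩ := h'.2
    have he' := c.mem_DD.1 he
    have hnDD : e ∉ c.DD K L := by
      intro hc
      rcases he' with ⟨h1, h2⟩ | ⟨h1, h2⟩ <;> rcases c.mem_DD.1 hc with ⟨h3, h4⟩ | ⟨h3, h4⟩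
      · exact hne (h4.symm.trans h2)
      · exact h.1 (h1.symm.trans h3)
      · exact h.1 (h2.symm.trans h4)
      · exact hne (h3.symm.trans h1)
    have hab : y (D.a0 e) = 0 ∧ y (D.b0 e) = 0 := by
      have h1 := hflat e hnDD
      rcases he' with ⟨h2, -⟩ | ⟨-, h2⟩
      · have := hK _ h2
        exact ⟨this, h1 ▸ this⟩
      · have := hK _ h2
        exact ⟨h1.trans this, this⟩
    have hall : ∀ v ∈ e.1, y v = 0 := by
      intro v hv
      rcases (mem_edge D).1 hv with rfl | rfl
      · exact hab.1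
      · exact hab.2
    have hnMo : e ∉ Mo D c.x := by
      rw [c.mem_Mo_iff]
      intro hc
      rcases he' with ⟨h1, h2⟩ | ⟨h1, h2⟩
      · exact h'.1 (h1.symm.trans (hc.trans h2))
      · exact h'.1 (h2.symm.trans (hc.symm.trans h1))
    have hbase : y (D.a0 (c.base (D.a1 e))) = y (D.b0 (c.base (D.a1 e))) := by
      refine hflat _ ?_
      intro hc
      have h1 := c.cmp_edge (c.base_mem (D.a1 e))
      rcases c.mem_DD.1 hc with ⟨h3, h4⟩ | ⟨h3, h4⟩
      · exact h.1 (h3.symm.trans (h1.trans h4))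
      · exact h.1 (h4.symm.trans (h1.symm.trans h3))
    refine ⟨D.a1 e, ?_⟩
    rw [mem_compl, hSig]
    rintro ⟨v, hv, hv1⟩
    rw [c.face_eq] at hv
    simp only [mem_insert, mem_singleton] at hv
    have hz : y (c.apex (D.a1 e)) = 0 ∧ y (D.a0 (c.base (D.a1 e))) = 0 ∧
        y (D.b0 (c.base (D.a1 e))) = 0 := by
      rcases c.edge_cases (sub_a1 D e) with h1 | h1 | h1
      · exact absurd (h1 ▸ c.base_mem (D.a1 e)) hnMo
      · have h2 := hall (c.apex (D.a1 e)) (by rw [h1]; simp)
        have h3 := hall (D.a0 (c.base (D.a1 e))) (by rw [h1]; simp)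
        exact ⟨h2, h3, hbase ▸ h3⟩
      · have h2 := hall (c.apex (D.a1 e)) (by rw [h1]; simp)
        have h3 := hall (D.b0 (c.base (D.a1 e))) (by rw [h1]; simp)
        exact ⟨h2, hbase.trans h3, h3⟩
    have h0 : y v = 0 := by
      rcases hv with rfl | rfl | rfl
      · exact hz.1
      · exact hz.2.1
      · exact hz.2.2
    rw [hv1] at h0
    exact absurd h0 (by decide)
  have h1 := D.conn1 _ hA hA'
  rw [← c.cut_Sig hy hK hL]
  exact card_pos.1 h1

end Cfg

end Pool.Agent.helper54.AB
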