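import Mathlib
import Pool.Agent.helper54.AB.Pair
import Pool.Agent.helper54.AB.Basic2
import Pool.Agent.helper54.AB.Count

/-! [AB-B8] The assembly lemma. Proofs by helper47. -/

namespace Pool.Agent.helper54.AB

open Finset Pool.Agent.helper60.ECD Pool.Agent.helper54.LFP

variable {V : Type} [Fintype V] [DecidableEq V] {T : SphereTri V} {D : Ends T} (c : Cfg D)

private lemma asm_edge_of_adj {T : SphereTri V} {u v : V} (h : T.graph.Adj u v) :
    ∃ e : TE T, e.1 = {u, v} := by
  obtain ⟨hne, t, ht, hu, hv⟩ := h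
  refine ⟨⟨{u, v}, ?_⟩, rfl⟩
  unfold edgesOf
  rw [mem_filter]
  refine ⟨mem_univ _, card_pair hne, t, ht, ?_⟩
  intro w hw
  rw [mem_insert, mem_singleton] at hw
  rcases hw with rfl | rfl
  · exact hu
  · exact hv

omit [Fintype V] in
private lemma asm_pair_left {v x y : V} (h : ({v, x} : Finset V) = {v, y}) (hx : x ≠ v) :
    x = y := by
  have h1 : x ∈ ({v, y} : Finset V) := by
    rw [← h]; exact mem_insert_of_mem (mem_singleton_self _)
  rw [mem_insert, mem_singleton] at h1
  exact h1.resolve_left hx

/-- If no nonempty even set of edges has all its ends in `F` then `F` induces a forest. Proof: a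
cycle of the induced subgraph gives a nonempty even set: the set of its edges (as elements of
`TE T`); every vertex of the cycle has exactly two neighbours on it
(`SimpleGraph.Walk.IsCycle.ncard_neighborSet_toSubgraph_eq_two`, as in `acyclic_of_degenerate`), other
vertices have none. -/
theorem acyclic_of_ev (D : Ends T) (F : Finset V)
    (h : ∀ Z : Finset (TE T), Z.Nonempty → Ev D.a0 D.b0 Z → (∀ e ∈ Z, ∀ v ∈ e.1, v ∈ F) → False) :
    (T.graph.induce (F : Set V)).IsAcyclic := by
  classical
  intro u p hp
  set Z : Finset (TE T) := univ.filter (fun e => ∃ s t : ((F : Set V) : Type),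
    p.toSubgraph.Adj s t ∧ e.1 = {s.1, t.1}) with hZ
  have hmem : ∀ e : TE T, e ∈ Z ↔ ∃ s t : ((F : Set V) : Type),
      p.toSubgraph.Adj s t ∧ e.1 = {s.1, t.1} := by
    intro e
    rw [hZ, mem_filter]
    exact ⟨fun h => h.2, fun h => ⟨mem_univ _, h⟩⟩
  have hcount : ∀ v : ((F : Set V) : Type), v ∈ p.support →
      (starS D.a0 D.b0 v.1 ∩ Z).card = 2 := by
    intro v hv
    have h2 := hp.ncard_neighborSet_toSubgraph_eq_two hv
    have h3 : (starS D.a0 D.b0 v.1 ∩ Z).map ⟨Subtype.val, Subtype.val_injective⟩ =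
        (p.toSubgraph.neighborSet v).toFinset.image (fun w => ({v.1, w.1} : Finset V)) := by
      ext q
      rw [mem_map, mem_image]
      constructor
      · rintro ⟨e, he, rfl⟩
        rw [mem_inter, mem_star0, hmem] at he
        obtain ⟨h1, s, t, hst, hest⟩ := he
        change ∃ w ∈ (p.toSubgraph.neighborSet v).toFinset, ({v.1, w.1} : Finset V) = e.1
        rw [hest, mem_insert, mem_singleton] at h1
        rcases h1 with h1 | h1
        · have hvs : v = s := Subtype.ext h1
          subst hvs
          exact ⟨t, by rw [Set.mem_toFinset]; exact hst, hest.symm⟩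
        · have hvt : v = t := Subtype.ext h1
          subst hvt
          exact ⟨s, by rw [Set.mem_toFinset]; exact hst.symm, by rw [hest, pair_comm]⟩
      · rintro ⟨w, hw, rfl⟩
        rw [Set.mem_toFinset] at hw
        have hadj : p.toSubgraph.Adj v w := hw
        have hadj2 : T.graph.Adj v.1 w.1 := hadj.adj_sub
        obtain ⟨e, he⟩ := asm_edge_of_adj hadj2
        refine ⟨e, ?_, he⟩
        rw [mem_inter, mem_star0, hmem]
        refine ⟨by rw [he]; exact mem_insert_self _ _, v, w, hadj, he⟩
    rw [← card_map ⟨Subtype.val, Subtype.val_injective⟩, h3, card_image_of_injOn]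
    · rw [Set.ncard_eq_toFinset_card'] at h2
      exact h2
    · intro x hx y hy hxy
      rw [mem_coe, Set.mem_toFinset] at hx hy
      have hadj : p.toSubgraph.Adj v x := hx
      have hne : x ≠ v := fun hh => hadj.ne hh.symm
      have hne' : x.1 ≠ v.1 := fun hh => hne (Subtype.ext hh)
      exact Subtype.ext (asm_pair_left hxy hne')
  refine h Z ?_ ?_ ?_
  · have h1 := hcount u p.start_mem_support
    have h2 : 0 < (starS D.a0 D.b0 u.1 ∩ Z).card := by omega
    obtain ⟨e, he⟩ := card_pos.1 h2
    exact ⟨e, (mem_inter.1 he).2⟩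
  · intro v
    by_cases hv : ∃ v' ∈ p.support, v'.1 = v
    · obtain ⟨v', hv', rfl⟩ := hv
      rw [hcount v' hv']
      exact even_two
    · have h0 : starS D.a0 D.b0 v ∩ Z = ∅ := by
        rw [eq_empty_iff_forall_notMem]
        intro e he
        rw [mem_inter, mem_star0, hmem] at he
        obtain ⟨h1, s, t, hst, hest⟩ := he
        rw [hest, mem_insert, mem_singleton] at h1
        apply hv
        rcases h1 with h1 | h1
        · exact ⟨s, (p.mem_verts_toSubgraph).1 (p.toSubgraph.edge_vert hst), h1.symm⟩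
        · exact ⟨t, (p.mem_verts_toSubgraph).1 (p.toSubgraph.edge_vert hst.symm), h1.symm⟩
      rw [h0, card_empty]
      exact Even.zero
  · intro e he v hv
    rw [hmem] at he
    obtain ⟨s, t, -, hest⟩ := he
    rw [hest, mem_insert, mem_singleton] at hv
    rcases hv with rfl | rfl
    · exact s.2
    · exact t.2

namespace Cfg

private lemma asm_side {SS W : Finset V} (hS : Hit D.a0 D.b0 (Mo D c.x) SS)
    (hW : ∀ w ∈ W, ∀ w' ∈ W, c.cmp w = c.cmp w' → w = w') (hok : ∀ w ∈ W, c.Ok SS w)
    (α : Bool) (F : Finset V) (hF : ∀ v ∈ F, (c.x v = α ∧ v ∉ SS) ∨ (v ∈ W ∧ c.x v ≠ α)) :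
    (T.graph.induce (F : Set V)).IsAcyclic := by
  classical
  refine acyclic_of_ev D F fun Z hne hev hend => ?_
  by_cases hall : ∀ e ∈ Z, ∀ v ∈ e.1, c.x v = α
  · have hsub : Z ⊆ Mo D c.x := by
      intro e he
      rw [mem_Mo, hall e he _ ((mem_edge D).2 (Or.inl rfl)),
        hall e he _ ((mem_edge D).2 (Or.inr rfl))]
    have hno : ∀ e ∈ Z, ∀ v ∈ e.1, v ∉ SS := by
      intro e he v hv
      rcases hF v (hend e he v hv) with h1 | h1
      · exact h1.2
      · exact absurd (hall e he v hv) h1.2
    obtain ⟨e, he, h1⟩ := hS Z hsub hne hev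
    rcases h1 with h1 | h1
    · exact hno e he _ ((mem_edge D).2 (Or.inl rfl)) h1
    · exact hno e he _ ((mem_edge D).2 (Or.inr rfl)) h1
  · push Not at hall
    obtain ⟨e, he, w, hw, hxw⟩ := hall
    have hwW : w ∈ W := by
      rcases hF w (hend e he w hw) with h1 | h1
      · exact absurd h1.1 hxw
      · exact h1.1
    obtain ⟨u, hu, heu⟩ : ∃ u, u ≠ w ∧ e.1 = {u, w} := by
      have h2 := D.pair e
      rw [h2, mem_insert, mem_singleton] at hw
      have h3 := D.ne0 e
      rcases hw with rfl | rfl
      · exact ⟨D.b0 e, h3.symm, by rw [h2, pair_comm]⟩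
      · exact ⟨D.a0 e, h3, h2⟩
    have hue : u ∈ e.1 := by rw [heu]; exact mem_insert_self _ _
    have hxu : c.x u = α := by
      by_contra hxu
      have huW : u ∈ W := by
        rcases hF u (hend e he u hue) with h1 | h1
        · exact absurd h1.1 hxu
        · exact h1.1
      have hxx : c.x u = c.x w := by
        cases hα : α <;> cases h1 : c.x u <;> cases h2 : c.x w <;> simp_all
      have heM : e ∈ Mo D c.x := by
        rw [mem_Mo]
        have h2 := D.pair e
        have ha : D.a0 e ∈ e.1 := (mem_edge D).2 (Or.inl rfl)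
        have hb : D.b0 e ∈ e.1 := (mem_edge D).2 (Or.inr rfl)
        rw [heu, mem_insert, mem_singleton] at ha hb
        rcases ha with ha | ha <;> rcases hb with hb | hb <;> rw [ha, hb] <;> simp [hxx]
      exact hu (hW u huW w hwW ((c.mem_Mo_pair heu).1 heM))
    have huS : u ∉ SS := by
      rcases hF u (hend e he u hue) with h1 | h1
      · exact h1.2
      · exact absurd hxu h1.2
    have hKL : c.cmp u ≠ c.cmp w := by
      intro hh
      exact hxw ((c.x_eq hh).symm.trans hxu)
    have hNb : c.Nb (c.cmp u) (c.cmp w) := c.Nb_of_edge heu hKL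
    have hEv := c.ev_DD hNb hev
    have hone : Z ∩ c.DD (c.cmp u) (c.cmp w) = {e} := by
      ext e'
      rw [mem_inter, mem_singleton]
      constructor
      · rintro ⟨he', hd⟩
        obtain ⟨u', w', heq, hu', hw'⟩ : ∃ u' w', e'.1 = {u', w'} ∧ c.cmp u' = c.cmp u ∧
            c.cmp w' = c.cmp w := by
          rw [mem_DD] at hd
          rcases hd with hd | hd
          · exact ⟨D.a0 e', D.b0 e', D.pair e', hd.1, hd.2⟩
          · exact ⟨D.b0 e', D.a0 e', by rw [D.pair e', pair_comm], hd.2, hd.1⟩
        have hue' : u' ∈ e'.1 := by rw [heq]; exact mem_insert_self _ _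
        have hwe' : w' ∈ e'.1 := by rw [heq]; exact mem_insert_of_mem (mem_singleton_self _)
        have hxw' : c.x w' ≠ α := by rw [c.x_eq hw']; exact hxw
        have hxu' : c.x u' = α := by rw [c.x_eq hu']; exact hxu
        have hw'W : w' ∈ W := by
          rcases hF w' (hend e' he' w' hwe') with h1 | h1
          · exact absurd h1.1 hxw'
          · exact h1.1
        have hww : w' = w := hW w' hw'W w hwW hw'
        subst hww
        have hu'S : u' ∉ SS := by
          rcases hF u' (hend e' he' u' hue') with h1 | h1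
          · exact h1.2
          · exact absurd hxu' h1.2
        have hcard := hok w' hwW (c.cmp u) hKL
        have m1 : u ∈ c.NL (c.cmp u) w' \ SS := by
          rw [mem_sdiff, mem_NL]
          exact ⟨⟨rfl, e, by rw [heu, pair_comm]⟩, huS⟩
        have m2 : u' ∈ c.NL (c.cmp u) w' \ SS := by
          rw [mem_sdiff, mem_NL]
          exact ⟨⟨hu', e', by rw [heq, pair_comm]⟩, hu'S⟩
        have huu : u' = u := card_le_one.1 hcard _ m2 _ m1
        subst huu
        exact Subtype.ext (heq.trans heu.symm)
      · rintro rfl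
        exact ⟨he, (c.mem_DD_pair heu).2 (Or.inl ⟨rfl, rfl⟩)⟩
    rw [hone, card_singleton] at hEv
    exact absurd hEv (by decide)

/-- Proof: section 5 of the paper. For a colour `α` let `F = {v : x v = α, v ∉ SS} ∪ {w ∈ W :
x w ≠ α}`. Suppose `Z` is nonempty, even, with all ends in `F` (`acyclic_of_ev`). If all ends of
edges of `Z` have colour `α` then `Z ⊆ Mo` avoids `SS`, contradicting `hS`. Otherwise some `e ∈ Z`
has an end `w` with `x w ≠ α`, `w ∈ W`; let `u` be the other end. If `x u ≠ α` then `u ∈ W` and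
`e ∈ Mo`, so `cmp u = cmp w`, `u = w` by `hW`, impossible. So `x u = α`, `u ∉ SS`. Let
`K = cmp u`, `L = cmp w`; `Nb K L`. By `ev_DD` the number of edges of `Z` in `DD K L` is even. Let
`e' ∈ Z ∩ DD K L`, with ends `u'` in `K` and `w'` in `L`; `x w' ≠ α` so `w' ∈ W`, `w' = w`; `u'` is in
`NL K w \ SS`, which has at most one element, so `u' = u`, `e' = e`. So the number is one,
contradiction. The two sets for `α = true, false` have together `n - |SS| + |W|` elements. -/
theorem assembly {SS W : Finset V} (hS : Hit D.a0 D.b0 (Mo D c.x) SS)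
    (hW : ∀ w ∈ W, ∀ w' ∈ W, c.cmp w = c.cmp w' → w = w') (hok : ∀ w ∈ W, c.Ok SS w) :
    ∃ F1 F2 : Finset V, (T.graph.induce (F1 : Set V)).IsAcyclic ∧
      (T.graph.induce (F2 : Set V)).IsAcyclic ∧
      F1.card + F2.card + SS.card = Fintype.card V + W.card := by
  classical
  have hcard : ∀ α : Bool, ∃ F : Finset V,
      (∀ v ∈ F, (c.x v = α ∧ v ∉ SS) ∨ (v ∈ W ∧ c.x v ≠ α)) ∧
      F.card = (SSᶜ.filter (fun v => c.x v = α)).card + (W.filter (fun v => c.x v ≠ α)).card := by
    intro α
    refine ⟨SSᶜ.filter (fun v => c.x v = α) ∪ W.filter (fun v => c.x v ≠ α), ?_, ?_⟩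
    · intro v hv
      rw [mem_union, mem_filter, mem_filter, mem_compl] at hv
      rcases hv with hv | hv
      · exact Or.inl ⟨hv.2, hv.1⟩
      · exact Or.inr hv
    · rw [card_union_of_disjoint]
      rw [disjoint_left]
      intro v h1 h2
      rw [mem_filter] at h1 h2
      exact h2.2 h1.2
  obtain ⟨F1, h1, k1⟩ := hcard true
  obtain ⟨F2, h2, k2⟩ := hcard false
  refine ⟨F1, F2, c.asm_side hS hW hok true F1 h1, c.asm_side hS hW hok false F2 h2, ?_⟩
  have e1 := Finset.card_filter_add_card_filter_not (s := SSᶜ) (fun v => c.x v = true)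
  have e2 := Finset.card_filter_add_card_filter_not (s := W) (fun v => c.x v = true)
  have e3 := Finset.card_add_card_compl SS
  simp only [Bool.not_eq_true] at e1 e2
  have k3 : (W.filter (fun v => c.x v ≠ true)).card = (W.filter (fun v => c.x v = false)).card := by
    simp only [ne_eq, Bool.not_eq_true]
  have k4 : (W.filter (fun v => c.x v ≠ false)).card = (W.filter (fun v => c.x v = true)).card := by
    simp only [ne_eq, Bool.not_eq_false]
  rw [k3] at k1
  rw [k4] at k2
  omega

end Cfg

end Pool.Agent.helper54.AB
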