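import Mathlib
import Pool.Agent.helper54.AB.Basic

/-! [AB-B0] Existence of good colourings. -/

namespace Pool.Agent.helper54.AB

open Finset Pool.Agent.helper60.ECD Pool.Agent.helper54.LFP

variable {V : Type} [Fintype V] [DecidableEq V] {T : SphereTri V} {D : Ends T}

/-- a nonempty even set of edges in a matching without small cuts has at least five edges -/
private lemma good_no {T : SphereTri V} (D : Ends T) {M : Finset (TE T)}
    (hNS : NoSmall D.a1 D.b1 M) {Z : Finset (TE T)} (hZM : Z ⊆ M) (hne : Z.Nonempty)
    (hZ : Ev D.a0 D.b0 Z) : 5 ≤ Z.card := by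
  obtain ⟨A, hA⟩ := D.cycle_is_cut Z hZ
  have h1 : A.Nonempty := by
    by_contra h
    rw [not_nonempty_iff_eq_empty] at h
    obtain ⟨e, he⟩ := hne
    rw [← hA, mem_cutS, h] at he
    simp at he
  have h2 : Aᶜ.Nonempty := by
    by_contra h
    rw [not_nonempty_iff_eq_empty, compl_eq_empty_iff] at h
    obtain ⟨e, he⟩ := hne
    rw [← hA, mem_cutS, h] at he
    simp at he
  have h3 := hNS A h1 h2 (by rw [hA]; exact hZM)
  unfold cut at h3
  rwa [hA] at h3

/-- Every triangulated sphere has a 2-colouring with exactly one monochromatic edge in every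
triangle and without short monochromatic cycles. -/
theorem exists_good (D : Ends T) : ∃ x : V → Bool, Good D x := by
  obtain ⟨hV, hF, hE⟩ := sphere_nonempty T
  obtain ⟨e0⟩ := hE
  obtain ⟨M, -, hPM, hNS⟩ := ks_main D.cubic D.conn3 e0
  have hone : ∀ t : TF T, (M ∩ starS D.a1 D.b1 t).card = 1 := by
    intro t
    obtain ⟨e, ⟨he1, he2⟩, he3⟩ := hPM t
    rw [card_eq_one]
    refine ⟨e, ?_⟩
    ext f
    rw [mem_inter, mem_starS, mem_singleton]
    constructor
    · intro h
      exact he3 f h
    · rintro rfl
      exact ⟨he1, he2⟩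
  have hsum : ∀ t : TF T, ∑ e ∈ starS D.a1 D.b1 t, (if e ∈ M then (0 : ZMod 2) else 1) = 0 := by
    intro t
    have h1 : ∑ e ∈ starS D.a1 D.b1 t, (if e ∈ M then (0 : ZMod 2) else 1) =
        ((starS D.a1 D.b1 t \ M).card : ZMod 2) := by
      rw [← Finset.filter_notMem_eq_sdiff, Finset.card_filter, Nat.cast_sum]
      refine Finset.sum_congr rfl fun e _ => ?_
      by_cases h : e ∈ M <;> simp [h]
    have h2 := card_sdiff_add_card_inter (starS D.a1 D.b1 t) M
    rw [inter_comm, hone t, D.cubic.2 t] at h2
    have h3 : (starS D.a1 D.b1 t \ M).card = 2 := by omega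
    rw [h1, h3]
    decide
  obtain ⟨y, hy⟩ := duality D.a0 D.b0 D.a1 D.b1 D.ne0 D.ne1 D.conn0 D.conn1 D.euler D.even_star
    (fun e => if e ∈ M then 0 else 1) hsum
  refine ⟨fun v => decide (y v = 1), ?_⟩
  intro Z hZ hne hev
  refine good_no D hNS (fun e he => ?_) hne hev
  have h := mem_Mo.1 (hZ he)
  have h1 := hy e
  have hz : ∀ p q : ZMod 2, (decide (p = 1) = decide (q = 1)) → p + q = 0 := by decide
  have h2 : (if e ∈ M then (0 : ZMod 2) else 1) = 0 := by
    refine h1.trans ?_
    exact hz _ _ h
  by_contra h4
  rw [if_neg h4] at h2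
  exact one_ne_zero h2

/-- A good colouring has exactly one monochromatic edge in every triangle. -/
theorem exists_cfg (D : Ends T) {x : V → Bool} (hx : Good D x) : ∃ c : Cfg D, c.x = x := by
  -- main claim for a triangle
  have key : ∀ t : TF T, ∃ (e : TE T) (v : V), e ∈ Mo D x ∧ e.1 ⊆ t.1 ∧
      (∀ f ∈ Mo D x, f.1 ⊆ t.1 → f = e) ∧ v ∈ t.1 ∧ v ∉ e.1 ∧ x v ≠ x (D.a0 e) := by
    -- one colour class of a triangle cannot be everything
    have hbad : ∀ (t : TF T) (u v w : V), t.1 = {u, v, w} → u ≠ v → u ≠ w → v ≠ w →
        x u = x v → x u = x w → False := by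
      intro t u v w ht huv huw hvw h1 h2
      have hu : u ∈ t.1 := by rw [ht]; simp
      have hv : v ∈ t.1 := by rw [ht]; simp
      have hw : w ∈ t.1 := by rw [ht]; simp
      obtain ⟨e1, p1, -⟩ := exists_edge (T := T) huv hu hv
      obtain ⟨e2, p2, -⟩ := exists_edge (T := T) huw hu hw
      obtain ⟨e3, p3, -⟩ := exists_edge (T := T) hvw hv hw
      have m : ∀ (e : TE T) (p q : V), e.1 = {p, q} → x p = x q → e ∈ Mo D x := by
        intro e p q he hpq
        rw [mem_Mo]
        rcases ends_cases (D := D) he with ⟨h3, h4⟩ | ⟨h3, h4⟩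
        · rw [h3, h4]; exact hpq
        · rw [h3, h4]; exact hpq.symm
      have m1 := m e1 u v p1 h1
      have m2 := m e2 u w p2 h2
      have m3 := m e3 v w p3 (h1.symm.trans h2)
      have q12 : e1 ≠ e2 := by
        rintro rfl
        have : v ∈ ({u, w} : Finset V) := by
          rw [← p2, p1]; simp
        rw [mem_insert, mem_singleton] at this
        rcases this with h | h
        · exact huv h.symm
        · exact hvw h
      have q13 : e1 ≠ e3 := by
        rintro rfl
        have : u ∈ ({v, w} : Finset V) := by
          rw [← p3, p1]; simp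
        rw [mem_insert, mem_singleton] at this
        rcases this with h | h
        · exact huv h
        · exact huw h
      have q23 : e2 ≠ e3 := by
        rintro rfl
        have : u ∈ ({v, w} : Finset V) := by
          rw [← p3, p2]; simp
        rw [mem_insert, mem_singleton] at this
        rcases this with h | h
        · exact huv h
        · exact huw h
      have hev : Ev D.a0 D.b0 ({e1, e2, e3} : Finset (TE T)) := by
        intro y
        have hs : (starS D.a0 D.b0 y ∩ {e1, e2, e3}).card =
            (if y ∈ e1.1 then 1 else 0) + ((if y ∈ e2.1 then 1 else 0) +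
            (if y ∈ e3.1 then 1 else 0)) := by
          have : starS D.a0 D.b0 y ∩ {e1, e2, e3} =
              ({e1, e2, e3} : Finset (TE T)).filter (fun e => y ∈ e.1) := by
            ext e
            rw [mem_inter, mem_star0, mem_filter, and_comm]
          rw [this, card_filter, sum_insert (by simp [q12, q13]), sum_insert (by simp [q23]),
            sum_singleton]
        rw [hs, p1, p2, p3]
        simp only [mem_insert, mem_singleton]
        by_cases h3 : y = u
        · subst h3
          have a1 : ¬ (y = v ∨ y = w) := by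
            rintro (h | h)
            · exact huv h
            · exact huw h
          simp [a1]
        · by_cases h4 : y = v
          · subst h4
            have a1 : ¬ (y = u ∨ y = w) := by
              rintro (h | h)
              · exact h3 h
              · exact hvw h
            simp [a1]
          · by_cases h5 : y = w
            · subst h5
              simp [h3, h4]
            · simp [h3, h4, h5]
      have hc := hx {e1, e2, e3} (by
        intro e he
        simp only [mem_insert, mem_singleton] at he
        rcases he with rfl | rfl | rfl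
        · exact m1
        · exact m2
        · exact m3) ⟨e1, mem_insert_self _ _⟩ hev
      have h3 : ({e1, e2, e3} : Finset (TE T)).card ≤ 3 := card_le_three
      omega
    -- a triangle with two vertices of one colour and the third of the other
    have hgood : ∀ (t : TF T) (u v w : V), t.1 = {u, v, w} → u ≠ v → u ≠ w → v ≠ w →
        x u = x v → x u ≠ x w → ∃ (e : TE T) (v : V), e ∈ Mo D x ∧ e.1 ⊆ t.1 ∧
      (∀ f ∈ Mo D x, f.1 ⊆ t.1 → f = e) ∧ v ∈ t.1 ∧ v ∉ e.1 ∧ x v ≠ x (D.a0 e) := by
      intro t u v w ht huv huw hvw h1 h2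
      have hu : u ∈ t.1 := by rw [ht]; simp
      have hv : v ∈ t.1 := by rw [ht]; simp
      have hw : w ∈ t.1 := by rw [ht]; simp
      obtain ⟨e, p, hs⟩ := exists_edge (T := T) huv hu hv
      have hm : e ∈ Mo D x := by
        rw [mem_Mo]
        rcases ends_cases (D := D) p with ⟨h3, h4⟩ | ⟨h3, h4⟩
        · rw [h3, h4]; exact h1
        · rw [h3, h4]; exact h1.symm
      have hxa : x (D.a0 e) = x u := by
        rcases ends_cases (D := D) p with ⟨h3, h4⟩ | ⟨h3, h4⟩
        · rw [h3]
        · rw [h3]; exact h1.symm
      refine ⟨e, w, hm, hs, ?_, hw, ?_, ?_⟩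
      · intro f hf hft
        rw [mem_Mo] at hf
        have ha : D.a0 f ∈ t.1 := hft ((mem_edge D).2 (Or.inl rfl))
        have hb : D.b0 f ∈ t.1 := hft ((mem_edge D).2 (Or.inr rfl))
        have hne := D.ne0 f
        rw [ht, mem_insert, mem_insert, mem_singleton] at ha hb
        rcases ha with ha | ha | ha <;> rcases hb with hb | hb | hb
        · exact absurd (ha.trans hb.symm) hne
        · apply Subtype.ext; rw [D.pair f, ha, hb, p]
        · rw [ha, hb] at hf; exact absurd hf h2
        · apply Subtype.ext; rw [D.pair f, ha, hb, p, pair_comm]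
        · exact absurd (ha.trans hb.symm) hne
        · rw [ha, hb, ← h1] at hf; exact absurd hf h2
        · rw [ha, hb] at hf; exact absurd hf.symm h2
        · rw [ha, hb, ← h1] at hf; exact absurd hf.symm h2
        · exact absurd (ha.trans hb.symm) hne
      · rw [p, mem_insert, mem_singleton, not_or]; exact ⟨huw.symm, hvw.symm⟩
      · rw [hxa]; exact h2.symm
    intro t
    obtain ⟨u, v, w, huv, huw, hvw, ht⟩ := card_eq_three.1 (T.card_face t.1 t.2)
    by_cases h1 : x u = x v
    · by_cases h2 : x u = x w
      · exact (hbad t u v w ht huv huw hvw h1 h2).elim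
      · exact hgood t u v w ht huv huw hvw h1 h2
    · by_cases h2 : x u = x w
      · exact hgood t u w v (by rw [ht, pair_comm v w]) huw huv hvw.symm h2 h1
      · have hb : ∀ p q r : Bool, ¬ p = q → ¬ p = r → q = r := by decide
        have h3 : x v = x w := hb _ _ _ h1 h2
        refine hgood t v w u ?_ hvw huv.symm huw.symm h3 (Ne.symm h1)
        rw [ht]
        ext y
        simp only [mem_insert, mem_singleton]
        tauto
  choose b a h1 h2 h3 h4 h5 h6 using key
  exact ⟨⟨x, hx, b, a, h1, h2, fun t e he hs => h3 t e he hs, h4, h5, h6⟩, rfl⟩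

end Pool.Agent.helper54.AB
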