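import Mathlib
import Pool.Agent.helper54.AB.Exist

/-! [AB-B5] A good colouring which cannot be improved by recolouring one vertex. -/

namespace Pool.Agent.helper54.AB

open Finset Pool.Agent.helper60.ECD Pool.Agent.helper54.LFP

variable {V : Type} [Fintype V] [DecidableEq V] {T : SphereTri V} {D : Ends T}

private theorem flip_sum {F E : Type} [Fintype F] [Fintype E] [DecidableEq F] [DecidableEq E]
    (a b : E → F) (hne : ∀ e, a e ≠ b e) (S : Finset E) (A : Finset F) :
    ∑ t ∈ A, (starS a b t ∩ S).card =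
      (S ∩ cutS a b A).card + 2 * (S.filter (fun e => a e ∈ A ∧ b e ∈ A)).card := by
  have h1 : ∑ t ∈ A, (starS a b t ∩ S).card =
      ∑ e ∈ S, ((if a e ∈ A then 1 else 0) + (if b e ∈ A then 1 else 0)) := by
    have : ∀ t ∈ A, (starS a b t ∩ S).card =
        ∑ e ∈ S, ((if a e = t then 1 else 0) + (if b e = t then 1 else 0)) := by
      intro t _
      have hS : starS a b t ∩ S = S.filter (fun e => a e = t ∨ b e = t) := by
        ext e
        simp [starS, and_comm]
      rw [hS, Finset.card_filter]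
      refine Finset.sum_congr rfl fun e _ => ?_
      have := hne e
      by_cases h1 : a e = t
      · have h2 : ¬ b e = t := fun h2 => this (h1.trans h2.symm)
        simp [h1, h2]
      · by_cases h2 : b e = t
        · simp [h1, h2]
        · simp [h1, h2]
    rw [Finset.sum_congr rfl this, Finset.sum_comm]
    refine Finset.sum_congr rfl fun e _ => ?_
    rw [Finset.sum_add_distrib]
    simp
  have hC : S ∩ cutS a b A = S.filter (fun e => ¬ (a e ∈ A ↔ b e ∈ A)) := by
    ext e
    simp [cutS]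
  rw [h1, hC, Finset.card_filter, Finset.card_filter, Finset.mul_sum, ← Finset.sum_add_distrib]
  refine Finset.sum_congr rfl fun e _ => ?_
  by_cases h1 : a e ∈ A <;> by_cases h2 : b e ∈ A <;> simp [h1, h2]

/-- an even set meets every cut in an even number of edges -/
theorem ev_cut {Z : Finset (TE T)} (hev : Ev D.a0 D.b0 Z) (A : Finset V) :
    Even (Z ∩ cutS D.a0 D.b0 A).card := by
  have h := flip_sum D.a0 D.b0 D.ne0 Z A
  have h2 : Even (∑ t ∈ A, (starS D.a0 D.b0 t ∩ Z).card) :=
    Finset.even_sum _ fun t _ => hev t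
  rw [h, Nat.even_add] at h2
  exact h2.mpr (even_two_mul _)

/-- the other end of an edge at `v` -/
private theorem flip_other {e : TE T} {v : V} (D : Ends T) (h : v ∈ e.1) :
    ∃ u, u ≠ v ∧ e.1 = {v, u} := by
  rcases (mem_edge D).1 h with h1 | h1
  · exact ⟨D.b0 e, fun h2 => D.ne0 e (h1.trans h2.symm), by rw [D.pair e, h1]⟩
  · exact ⟨D.a0 e, fun h2 => D.ne0 e (h2.trans h1.symm), by rw [D.pair e, h1, pair_comm]⟩

/-- `Mo` in terms of a pair -/
private theorem flip_mo {x : V → Bool} {e : TE T} {u v : V} (D : Ends T) (h : e.1 = {u, v}) :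
    e ∈ Mo D x ↔ x u = x v := by
  rw [mem_Mo]
  have h1 : D.a0 e ∈ e.1 := (mem_edge D).2 (Or.inl rfl)
  have h2 : D.b0 e ∈ e.1 := (mem_edge D).2 (Or.inr rfl)
  have h3 := D.ne0 e
  rw [h, mem_insert, mem_singleton] at h1 h2
  rcases h1 with h1 | h1 <;> rcases h2 with h2 | h2
  · exact absurd (h1.trans h2.symm) h3
  · rw [h1, h2]
  · rw [h1, h2]; exact eq_comm
  · exact absurd (h1.trans h2.symm) h3

private theorem flip_cut {e : TE T} {u v : V} (D : Ends T) (h : e.1 = {u, v}) (A : Finset V) :
    e ∈ cutS D.a0 D.b0 A ↔ ¬ (u ∈ A ↔ v ∈ A) := by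
  rw [mem_cutS]
  have h1 : D.a0 e ∈ e.1 := (mem_edge D).2 (Or.inl rfl)
  have h2 : D.b0 e ∈ e.1 := (mem_edge D).2 (Or.inr rfl)
  have h3 := D.ne0 e
  rw [h, mem_insert, mem_singleton] at h1 h2
  rcases h1 with h1 | h1 <;> rcases h2 with h2 | h2
  · exact absurd (h1.trans h2.symm) h3
  · rw [h1, h2]
  · rw [h1, h2, Iff.comm (a := v ∈ A)]
  · exact absurd (h1.trans h2.symm) h3

/-- Proof: section 4, (7), of the paper. Among the good colourings (`exists_good`) choose one with
the minimum number of even subsets of `Mo D x` (`(Mo D x).powerset.filter Ev`, classical); `c` from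
`exists_cfg`. Suppose that `c.Flip` fails for `v`: there is an even `Z₀ ⊆ Mo` with an edge at `v`,
and `c.r L v ≤ 1` for all `L ≠ c.cmp v`. Let `x' = Function.update c.x v (!c.x v)`. Edges of
`Mo D x'` not at `v` are in `Mo D c.x`; an edge `{v, u}` is in `Mo D x'` iff `c.x u ≠ c.x v`.
Claim: an even `Z ⊆ Mo D x'` has no edge at `v`. Suppose `{v, u} ∈ Z`, and let `L = c.cmp u`
(so `L ≠ c.cmp v`), `A = c.VK L` (`v ∉ A`). By evenness the number of edges of `Z` in
`cutS D.a0 D.b0 A` is even (sum of the degrees in `Z` over `A`; `sum_inter_star` in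
`LFP/TConn.lean` is the same computation). But such an edge is at `v` (an edge of `Mo D c.x` has
both ends in the same component), so it joins `v` to a neighbour in `L`, and there is only one such
edge. Contradiction. So every even `Z ⊆ Mo D x'` is an even subset of `Mo D c.x`: `x'` is good, and
the set of its even sets is strictly smaller (`Z₀` is missing). -/
theorem exists_flip (D : Ends T) : ∃ c : Cfg D, c.Flip := by
  classical
  obtain ⟨x0, hx0⟩ := exists_good D
  obtain ⟨x, hx, hmin⟩ := Finset.exists_min_image (univ.filter (fun x : V → Bool => Good D x))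
    (fun x => ((Mo D x).powerset.filter (fun Z => Ev D.a0 D.b0 Z)).card)
    ⟨x0, mem_filter.2 ⟨mem_univ _, hx0⟩⟩
  obtain ⟨c, rfl⟩ := exists_cfg D (mem_filter.1 hx).2
  refine ⟨c, ?_⟩
  rintro v ⟨Z0, hZ0, hev0, e0, he0, hv0⟩
  by_contra hcon
  push Not at hcon
  set x' : V → Bool := Function.update c.x v (!c.x v) with hx'
  have hxv : x' v = !c.x v := by rw [hx']; simp
  have hxu : ∀ u, u ≠ v → x' u = c.x u := fun u hu => by rw [hx']; simp [hu]
  -- edges not at `v`
  have hnot : ∀ e ∈ Mo D x', v ∉ e.1 → e ∈ Mo D c.x := by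
    intro e he hv
    have h1 : D.a0 e ≠ v := fun h => hv ((mem_edge D).2 (Or.inl h))
    have h2 : D.b0 e ≠ v := fun h => hv ((mem_edge D).2 (Or.inr h))
    have h3 := mem_Mo.1 he
    rw [hxu _ h1, hxu _ h2] at h3
    exact mem_Mo.2 h3
  have hclaim : ∀ Z ⊆ Mo D x', Ev D.a0 D.b0 Z → ∀ e ∈ Z, v ∉ e.1 := by
    intro Z hZ hev e he hv
    obtain ⟨u, huv, heu⟩ := flip_other D hv
    have h1 : x' v = x' u := (flip_mo D heu).1 (hZ he)
    rw [hxv, hxu u huv] at h1
    have h2 : c.cmp u ≠ c.cmp v := by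
      intro h
      have h3 := c.x_eq h
      rw [h3] at h1
      simp at h1
    have hvA : v ∉ c.VK (c.cmp u) := fun h => h2 (c.mem_VK.1 h).symm
    have huA : u ∈ c.VK (c.cmp u) := c.mem_VK.2 rfl
    have huN : u ∈ c.NL (c.cmp u) v := c.mem_NL.2 ⟨rfl, e, heu⟩
    have hr : (c.NL (c.cmp u) v).card ≤ 1 := by
      have h3 := hcon (c.cmp u) h2
      unfold Cfg.r at h3
      omega
    have hone : Z ∩ cutS D.a0 D.b0 (c.VK (c.cmp u)) = {e} := by
      ext e'
      rw [mem_inter, mem_singleton]
      constructor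
      · rintro ⟨h3, h4⟩
        by_cases hv' : v ∈ e'.1
        · obtain ⟨u', huv', heu'⟩ := flip_other D hv'
          have h5 := (flip_cut D heu' _).1 h4
          have h6 : u' ∈ c.VK (c.cmp u) := by
            by_contra h7
            exact h5 ⟨fun h => absurd h hvA, fun h => absurd h h7⟩
          have h7 : u' ∈ c.NL (c.cmp u) v := c.mem_NL.2 ⟨c.mem_VK.1 h6, e', heu'⟩
          have h8 : u' = u := Finset.card_le_one.1 hr u' h7 u huN
          rw [h8] at heu'
          exact Subtype.ext (heu'.trans heu.symm)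
        · have h5 := hnot e' (hZ h3) hv'
          have h6 := c.cmp_edge h5
          rw [mem_cutS, c.mem_VK, c.mem_VK, h6] at h4
          exact absurd Iff.rfl h4
      · rintro rfl
        refine ⟨he, (flip_cut D heu _).2 ?_⟩
        intro h
        exact hvA (h.2 huA)
    have h3 := ev_cut hev (c.VK (c.cmp u))
    rw [hone, card_singleton] at h3
    exact absurd h3 (by decide)
  have hsub : ∀ Z ⊆ Mo D x', Ev D.a0 D.b0 Z → Z ⊆ Mo D c.x := fun Z hZ hev e he =>
    hnot e (hZ he) (hclaim Z hZ hev e he)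
  have hgood : Good D x' := fun Z hZ hne hev => c.good Z (hsub Z hZ hev) hne hev
  have h1 := hmin x' (mem_filter.2 ⟨mem_univ _, hgood⟩)
  have h2 : ((Mo D x').powerset.filter (fun Z => Ev D.a0 D.b0 Z)).card <
      ((Mo D c.x).powerset.filter (fun Z => Ev D.a0 D.b0 Z)).card := by
    refine Finset.card_lt_card ⟨?_, ?_⟩
    · intro Z hZ
      rw [mem_filter, mem_powerset] at hZ ⊢
      exact ⟨hsub Z hZ.1 hZ.2, hZ.2⟩
    · intro h
      have h3 := h (mem_filter.2 ⟨mem_powerset.2 hZ0, hev0⟩)
      rw [mem_filter, mem_powerset] at h3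
      exact hclaim Z0 h3.1 h3.2 e0 he0 hv0
  exact absurd h1 (not_le.2 h2)

end Pool.Agent.helper54.AB
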