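import Mathlib
import Pool.Agent.helper54.AB.Pair
import Pool.Agent.helper54.AB.Basic2

/-! [AB-B2b] Pairs of neighbouring components, second part. -/

namespace Pool.Agent.helper54.AB

open Finset Pool.Agent.helper60.ECD Pool.Agent.helper54.LFP

variable {V : Type} [Fintype V] [DecidableEq V] {T : SphereTri V} {D : Ends T} (c : Cfg D)

namespace Cfg

/-- Proof: `2 ≤ deg K` gives a second neighbour; `AS_nonempty`, `AS_ev`, `c.good`. -/
theorem AS_five {K L : c.Q} (h2 : 2 ≤ c.deg K) (h : c.Nb K L) :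
    (c.AS K L).Nonempty ∧ 5 ≤ (c.AS K L).card := by
  obtain ⟨L', hL', hne⟩ := Finset.exists_mem_ne (show 1 < (univ.filter (fun L => c.Nb K L)).card
    from h2) L
  have hL2 : c.Nb K L' := (Finset.mem_filter.1 hL').2
  have h3 := c.AS_nonempty h hL2 hne.symm
  refine ⟨h3, c.good _ ?_ h3 (c.AS_ev h)⟩
  intro e he
  exact (c.mem_EK.1 (c.mem_AS.1 he).1).1

/-- the triangle at an edge of `AS K L` with apex in `L` -/
private theorem AS_tri {K L : c.Q} {e : TE T} (he : e ∈ c.AS K L) :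
    ∃ t : TF T, e.1 ⊆ t.1 ∧ c.cmp (c.apex t) = L := by
  have h := (c.mem_AS.1 he).2
  by_cases h1 : c.cmp (c.apex (D.a1 e)) = L
  · exact ⟨D.a1 e, sub_a1 D e, h1⟩
  · refine ⟨D.b1 e, sub_b1 D e, ?_⟩
    by_contra h2
    exact h (iff_of_false h1 h2)

private theorem AS_EK {K L : c.Q} {e : TE T} (he : e ∈ c.AS K L) : e ∈ c.EK K :=
  (c.mem_AS.1 he).1

private theorem AS_Mo {K L : c.Q} {e : TE T} (he : e ∈ c.AS K L) : e ∈ Mo D c.x :=
  (c.mem_EK.1 (c.AS_EK he)).1

/-- Proof: the triangle with apex in `L` gives an injective map `AS K L → TA K L`. -/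
theorem tau_five {K L : c.Q} (h2 : 2 ≤ c.deg K) (h : c.Nb K L) : 5 ≤ c.tau K L := by
  classical
  refine (c.AS_five h2 h).2.trans ?_
  have hex : ∀ e : TE T, ∃ t : TF T, e ∈ c.AS K L → e.1 ⊆ t.1 ∧ c.cmp (c.apex t) = L := by
    intro e
    by_cases he : e ∈ c.AS K L
    · obtain ⟨t, ht⟩ := c.AS_tri he
      exact ⟨t, fun _ => ht⟩
    · exact ⟨D.a1 e, fun h => absurd h he⟩
  choose f hf using hex
  refine Finset.card_le_card_of_injOn f ?_ ?_
  · intro e he
    have he' : e ∈ c.AS K L := he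
    obtain ⟨h3, h4⟩ := hf e he'
    have h5 := c.base_eq (c.AS_Mo he') h3
    exact Finset.mem_coe.2 (c.mem_TA.2 ⟨by rw [h5]; exact c.AS_EK he', h4⟩)
  · intro e he e' he' hee
    have he1 : e ∈ c.AS K L := he
    have he2 : e' ∈ c.AS K L := he'
    have h3 := c.base_eq (c.AS_Mo he1) (hf e he1).1
    have h4 := c.base_eq (c.AS_Mo he2) (hf e' he2).1
    rw [← h3, ← h4, hee]

/-- Proof: the vertices touched by `AS K L` are in `VN K L`; `ev_five`. -/
theorem VN_five {K L : c.Q} (h2 : 2 ≤ c.deg K) (h : c.Nb K L) : 5 ≤ (c.VN K L).card := by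
  refine (c.ev_five (fun e he => c.AS_Mo he) (c.AS_five h2 h).1 (c.AS_ev h)).trans
    (Finset.card_le_card ?_)
  intro v hv
  obtain ⟨e, he, hve⟩ := (Finset.mem_filter.1 hv).2
  obtain ⟨t, ht, hta⟩ := c.AS_tri he
  have hb := c.base_eq (c.AS_Mo he) ht
  refine c.mem_VN.2 ⟨c.mem_EK_iff.1 (c.AS_EK he) v hve, c.apex t, c.mem_NL.2 ⟨hta, ?_⟩⟩
  obtain ⟨⟨e1, h1, -⟩, e2, h2', -⟩ := c.apex_edges t
  rw [hb] at h1 h2'
  rcases (mem_edge D).1 hve with h3 | h3
  · exact ⟨e1, by rw [h1, h3, Finset.pair_comm]⟩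
  · exact ⟨e2, by rw [h2', h3, Finset.pair_comm]⟩

/-- The sides of two different neighbours of `K` are disjoint. Proof: `y v * y' v` is constant along
every edge: it could only change on `DD K L`, where `y' = 0` at both ends (`y' = 0` on `K`, and `y'` does
not change along edges of `DD K L`), or on `DD K L'`. The graph is connected (`Ends.conn0`), so it is
constant, `= 0` (value on `K`). If `t` is in both: `y v = 1`, `y' v' = 1` with `v, v' ∈ t.1`, then
`v ≠ v'`, `y v' = 0`, so the edge `v v'` is in `DD K L` and `v' ∈ K`, contradicting `y' v' = 1`. -/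
theorem Sig_disjoint {K L L' : c.Q} (hne : L ≠ L') {y y' : V → ZMod 2}
    (hy : ∀ e, y (D.a0 e) + y (D.b0 e) = if e ∈ c.DD K L then 1 else 0)
    (hK : ∀ v, c.cmp v = K → y v = 0)
    (hy' : ∀ e, y' (D.a0 e) + y' (D.b0 e) = if e ∈ c.DD K L' then 1 else 0)
    (hK' : ∀ v, c.cmp v = K → y' v = 0) : Disjoint (Sig y : Finset (TF T)) (Sig y') := by
  classical
  have hz1 : ∀ p q : ZMod 2, p + q = 0 → p = q := by decide
  have hz2 : ∀ p : ZMod 2, p ≠ 0 → p = 1 := by decide
  -- the product is constant along edges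
  have hP : ∀ e, y (D.a0 e) * y' (D.a0 e) = y (D.b0 e) * y' (D.b0 e) := by
    intro e
    by_cases h1 : e ∈ c.DD K L
    · have h2 : e ∉ c.DD K L' := by
        intro h2
        rcases c.mem_DD.1 h1 with ⟨h3, h4⟩ | ⟨h3, h4⟩ <;>
          rcases c.mem_DD.1 h2 with ⟨h5, h6⟩ | ⟨h5, h6⟩
        · exact hne (h4.symm.trans h6)
        · exact hne (h4.symm.trans (h6.trans (h3.symm.trans h5)))
        · exact hne (h3.symm.trans (h5.trans (h4.symm.trans h6)))
        · exact hne (h3.symm.trans h5)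
      have h3 := hy' e
      rw [if_neg h2] at h3
      have h4 := hz1 _ _ h3
      rcases c.mem_DD.1 h1 with ⟨h5, -⟩ | ⟨-, h5⟩
      · have h6 := hK' _ h5
        rw [h6] at h4
        rw [h6, ← h4, mul_zero, mul_zero]
      · have h6 := hK' _ h5
        rw [h6] at h4
        rw [h6, h4, mul_zero, mul_zero]
    · have h3 := hy e
      rw [if_neg h1] at h3
      have h4 := hz1 _ _ h3
      by_cases h2 : e ∈ c.DD K L'
      · rcases c.mem_DD.1 h2 with ⟨h5, -⟩ | ⟨-, h5⟩
        · have h6 := hK _ h5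
          rw [h6] at h4
          rw [h6, ← h4, zero_mul, zero_mul]
        · have h6 := hK _ h5
          rw [h6] at h4
          rw [h6, h4, zero_mul, zero_mul]
      · have h5 := hy' e
        rw [if_neg h2] at h5
        rw [h4, hz1 _ _ h5]
  have hzero : ∀ v, y v * y' v = 0 := by
    by_contra hcon
    push Not at hcon
    obtain ⟨v, hv⟩ := hcon
    have hA : (univ.filter (fun v => y v * y' v ≠ 0)).Nonempty :=
      ⟨v, Finset.mem_filter.2 ⟨Finset.mem_univ _, hv⟩⟩
    obtain ⟨w, hw⟩ := c.cmp_surj K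
    have hA' : (univ.filter (fun v => y v * y' v ≠ 0))ᶜ.Nonempty := by
      refine ⟨w, ?_⟩
      rw [Finset.mem_compl, Finset.mem_filter]
      rintro ⟨-, h⟩
      exact h (by rw [hK w hw, zero_mul])
    have hcut := D.conn0 _ hA hA'
    obtain ⟨e, he⟩ := Finset.card_pos.1 (show 0 < (cutS D.a0 D.b0
      (univ.filter (fun v => y v * y' v ≠ 0))).card from hcut)
    rw [mem_cutS, Finset.mem_filter, Finset.mem_filter, hP e] at he
    exact he (by simp)
  rw [Finset.disjoint_left]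
  intro t ht ht'
  obtain ⟨v, hv, hyv⟩ := (Finset.mem_filter.1 ht).2
  obtain ⟨v', hv', hyv'⟩ := (Finset.mem_filter.1 ht').2
  have h1 : y' v = 0 := by
    have := hzero v
    rwa [hyv, one_mul] at this
  have h2 : y v' = 0 := by
    have := hzero v'
    rwa [hyv', mul_one] at this
  have hvv : v ≠ v' := by
    rintro rfl
    rw [hyv] at h2
    exact one_ne_zero h2
  obtain ⟨e, he⟩ : ∃ e : TE T, e.1 = {v, v'} := by
    refine ⟨⟨{v, v'}, ?_⟩, rfl⟩
    rw [edgesOf, Finset.mem_filter]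
    refine ⟨Finset.mem_univ _, Finset.card_pair hvv, t.1, t.2, ?_⟩
    intro u hu
    rcases Finset.mem_insert.1 hu with rfl | hu
    · exact hv
    · rw [Finset.mem_singleton.1 hu]
      exact hv'
  have h3 : y (D.a0 e) + y (D.b0 e) = 1 := by
    have ha : v ∈ e.1 := by rw [he]; exact Finset.mem_insert_self _ _
    have hb : v' ∈ e.1 := by rw [he]; exact Finset.mem_insert_of_mem (Finset.mem_singleton_self _)
    rcases (mem_edge D).1 ha with h4 | h4 <;> rcases (mem_edge D).1 hb with h5 | h5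
    · exact absurd (h4.symm.trans h5) hvv
    · rw [h4, h5, hyv, h2, add_zero]
    · rw [h4, h5, hyv, h2, zero_add]
    · exact absurd (h4.symm.trans h5) hvv
  have h4 : e ∈ c.DD K L := by
    by_contra h4
    rw [hy e, if_neg h4] at h3
    exact zero_ne_one h3
  rcases (c.mem_DD_pair he).1 h4 with ⟨h5, -⟩ | ⟨-, h5⟩
  · rw [hK v h5] at hyv
    exact zero_ne_one hyv
  · rw [hK' v' h5] at hyv'
    exact zero_ne_one hyv'

end Cfg

end Pool.Agent.helper54.AB
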