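import Mathlib
import Pool.Agent.helper54.AB.Defs

/-! [AB-A1] Dimensions of flow spaces. -/

namespace Pool.Agent.helper54.AB

open Finset Pool.Agent.helper60.ECD

variable {V E : Type} [Fintype V] [Fintype E] [DecidableEq V] [DecidableEq E]

noncomputable def dim_cstEquiv (k : Type) [Field k] (a b : E → V) (H : Finset E) :
    Cst k a b H ≃ₗ[k] (Cp a b H → k) where
  toFun y := fun q => Quot.lift y.1 (by
    rintro u v ⟨e, he, rfl, rfl⟩
    exact y.2 e he) q
  map_add' y z := by
    funext q
    induction q using Quot.ind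
    rfl
  map_smul' c y := by
    funext q
    induction q using Quot.ind
    rfl
  invFun f := ⟨fun v => f (Quot.mk _ v), fun e he =>
    congrArg f (Quot.sound ⟨e, he, rfl, rfl⟩)⟩
  left_inv y := by
    ext v
    rfl
  right_inv f := by
    funext q
    induction q using Quot.ind
    rfl

theorem finrank_Cst (k : Type) [Field k] (a b : E → V) (H : Finset E) :
    Module.finrank k (Cst k a b H) = Nat.card (Cp a b H) := by
  have : Fintype (Cp a b H) := Fintype.ofFinite _
  rw [(dim_cstEquiv k a b H).finrank_eq, Module.finrank_fintype_fun_eq_card, Nat.card_eq_fintype_card]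

/-- the incidence matrix -/
def dimInc (k : Type) [Field k] (a b : E → V) (H : Finset E) : Matrix {e // e ∈ H} V k :=
  fun e v => (if a e.1 = v then 1 else 0) - (if b e.1 = v then 1 else 0)

theorem dim_inc_mulVec (k : Type) [Field k] (a b : E → V) (H : Finset E) (y : V → k)
    (e : {e // e ∈ H}) : (dimInc k a b H).mulVec y e = y (a e.1) - y (b e.1) := by
  unfold Matrix.mulVec dotProduct dimInc
  simp only [sub_mul, ite_mul, one_mul, zero_mul, Finset.sum_sub_distrib]
  simp

theorem dim_ker_inc (k : Type) [Field k] (a b : E → V) (H : Finset E) :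
    LinearMap.ker (dimInc k a b H).mulVecLin = Cst k a b H := by
  ext y
  rw [LinearMap.mem_ker]
  constructor
  · intro h e he
    have := congrFun h ⟨e, he⟩
    rw [Matrix.mulVecLin_apply, dim_inc_mulVec] at this
    exact sub_eq_zero.1 this
  · intro h
    funext e
    rw [Matrix.mulVecLin_apply, dim_inc_mulVec]
    exact sub_eq_zero.2 (h e.1 e.2)

theorem dim_incT_mulVec (k : Type) [Field k] (a b : E → V) (H : Finset E) (z : {e // e ∈ H} → k)
    (v : V) : (dimInc k a b H).transpose.mulVec z v =
      ∑ e : {e // e ∈ H}, ((if a e.1 = v then z e else 0) - (if b e.1 = v then z e else 0)) := by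
  unfold Matrix.mulVec dotProduct
  refine Finset.sum_congr rfl fun e _ => ?_
  show ((if a e.1 = v then (1:k) else 0) - (if b e.1 = v then 1 else 0)) * z e = _
  rw [sub_mul, ite_mul, ite_mul, one_mul, zero_mul]

theorem dim_sum_ext (k : Type) [Field k] (a b : E → V) (H : Finset E) (z : E → k)
    (hz : ∀ e ∉ H, z e = 0) (v : V) :
    ∑ e : {e // e ∈ H}, ((if a e.1 = v then z e.1 else 0) - (if b e.1 = v then z e.1 else 0)) =
    ∑ e, ((if a e = v then z e else 0) - (if b e = v then z e else 0)) := by
  rw [Finset.sum_coe_sort H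
    (fun e => ((if a e = v then z e else 0) - (if b e = v then z e else 0)))]
  refine Finset.sum_subset (Finset.subset_univ H) fun e _ he => ?_
  simp [hz e he]

noncomputable def dim_flEquiv (k : Type) [Field k] (a b : E → V) (H : Finset E) :
    LinearMap.ker (dimInc k a b H).transpose.mulVecLin ≃ₗ[k] Fl k a b H where
  toFun z := ⟨fun e => if h : e ∈ H then z.1 ⟨e, h⟩ else 0, by
    constructor
    · intro e he
      simp [he]
    · intro v
      have h1 := congrFun (LinearMap.mem_ker.1 z.2) v
      rw [Matrix.mulVecLin_apply, dim_incT_mulVec] at h1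
      rw [← dim_sum_ext k a b H (fun e => if h : e ∈ H then z.1 ⟨e, h⟩ else 0)
        (fun e he => by simp [he]) v]
      refine Eq.trans (Finset.sum_congr rfl fun e _ => ?_) h1
      simp⟩
  map_add' y z := by
    ext e
    by_cases h : e ∈ H <;> simp [h]
  map_smul' c y := by
    ext e
    by_cases h : e ∈ H <;> simp [h]
  invFun z := ⟨fun e => z.1 e.1, by
    rw [LinearMap.mem_ker]
    funext v
    rw [Matrix.mulVecLin_apply, dim_incT_mulVec, dim_sum_ext k a b H z.1 z.2.1 v]
    exact z.2.2 v⟩
  left_inv z := by
    ext e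
    simp
  right_inv z := by
    ext e
    by_cases h : e ∈ H
    · simp [h]
    · simp [h, z.2.1 e h]

theorem finrank_Fl_add (k : Type) [Field k] (a b : E → V) (H : Finset E) :
    Module.finrank k (Fl k a b H) + Fintype.card V = H.card + Nat.card (Cp a b H) := by
  have h1 := LinearMap.finrank_range_add_finrank_ker (dimInc k a b H).mulVecLin
  have h2 := LinearMap.finrank_range_add_finrank_ker (dimInc k a b H).transpose.mulVecLin
  have h3 : Module.finrank k (LinearMap.range (dimInc k a b H).mulVecLin) =
      Module.finrank k (LinearMap.range (dimInc k a b H).transpose.mulVecLin) :=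
    (Matrix.rank_transpose (dimInc k a b H)).symm
  rw [dim_ker_inc, finrank_Cst, Module.finrank_fintype_fun_eq_card] at h1
  rw [(dim_flEquiv k a b H).finrank_eq, Module.finrank_fintype_fun_eq_card, Fintype.card_coe] at h2
  omega

theorem finrank_Fl (k : Type) [Field k] (a b : E → V) (H : Finset E) :
    Module.finrank k (Fl k a b H) = bet a b H := by
  have := finrank_Fl_add k a b H
  unfold bet
  omega

theorem bet_add (a b : E → V) (H : Finset E) :
    bet a b H + Fintype.card V = H.card + Nat.card (Cp a b H) := by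
  have := finrank_Fl_add ℚ a b H
  unfold bet
  omega

/-- flows are monotone in `H` -/
theorem bet_mono (a b : E → V) {H H' : Finset E} (h : H ⊆ H') : bet a b H ≤ bet a b H' := by
  rw [← finrank_Fl ℚ, ← finrank_Fl ℚ]
  refine Submodule.finrank_mono ?_
  rintro z ⟨h1, h2⟩
  exact ⟨fun e he => h1 e (fun hc => he (h hc)), h2⟩

/-- over `ZMod 2` the signs do not matter -/
theorem mem_Fl_two {a b : E → V} (hne : ∀ e, a e ≠ b e) {H : Finset E} {z : E → ZMod 2} :
    z ∈ Fl (ZMod 2) a b H ↔ (∀ e ∉ H, z e = 0) ∧ ∀ v, ∑ e ∈ starS a b v, z e = 0 := by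
  have key : ∀ v, ∑ e, ((if a e = v then z e else 0) - (if b e = v then z e else 0))
      = ∑ e ∈ starS a b v, z e := by
    intro v
    unfold starS
    rw [Finset.sum_filter]
    refine Finset.sum_congr rfl fun e _ => ?_
    by_cases ha : a e = v
    · have hb : b e ≠ v := fun h => hne e (ha.trans h.symm)
      simp [ha, hb]
    · by_cases hb : b e = v
      · simp only [ha, hb, if_true, if_false, zero_sub, false_or]
        exact ZMod.neg_eq_self_mod_two _
      · simp [ha, hb]
  constructor
  · rintro ⟨h1, h2⟩
    exact ⟨h1, fun v => (key v) ▸ h2 v⟩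
  · rintro ⟨h1, h2⟩
    exact ⟨h1, fun v => (key v).trans (h2 v)⟩

theorem ev_iff {a b : E → V} (hne : ∀ e, a e ≠ b e) {H Z : Finset E} (hZ : Z ⊆ H) :
    Ev a b Z ↔ (fun e => if e ∈ Z then (1 : ZMod 2) else 0) ∈ Fl (ZMod 2) a b H := by
  rw [mem_Fl_two hne]
  have h2 : ∀ v, ∑ e ∈ starS a b v, (if e ∈ Z then (1 : ZMod 2) else 0)
      = ((starS a b v ∩ Z).card : ZMod 2) := by
    intro v
    rw [Finset.sum_ite_mem, Finset.sum_const, nsmul_eq_mul, mul_one]
  constructor
  · intro h
    refine ⟨fun e he => ?_, fun v => ?_⟩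
    · exact if_neg (fun h => he (hZ h))
    · rw [h2, ZMod.natCast_eq_zero_iff_even]
      exact h v
  · rintro ⟨-, h⟩ v
    have := h v
    rw [h2, ZMod.natCast_eq_zero_iff_even] at this
    exact this

/-- Proof: `bet` is the dimension of `Fl (ZMod 2) a b H`, which is not zero iff it contains a
nonzero function `z`; `Z = {e : z e ≠ 0} = {e : z e = 1}`. -/
theorem bet_pos {a b : E → V} (hne : ∀ e, a e ≠ b e) (H : Finset E) :
    1 ≤ bet a b H ↔ ∃ Z ⊆ H, Z.Nonempty ∧ Ev a b Z := by
  rw [← finrank_Fl (ZMod 2) a b H]
  constructor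
  · intro h
    have h1 : Fl (ZMod 2) a b H ≠ ⊥ := by
      intro h0
      rw [h0] at h
      simp at h
    obtain ⟨z, hz, hz0⟩ := (Submodule.ne_bot_iff _).1 h1
    have hval : ∀ e, z e = if e ∈ univ.filter (fun e => z e ≠ 0) then (1 : ZMod 2) else 0 := by
      intro e
      by_cases h : z e = 0
      · simp [h]
      · have : z e = 1 := by
          have h01 : ∀ t : ZMod 2, t ≠ 0 → t = 1 := by decide
          exact h01 _ h
        simp [this]
    have hsub : univ.filter (fun e => z e ≠ 0) ⊆ H := by
      intro e he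
      by_contra hc
      exact (Finset.mem_filter.1 he).2 (hz.1 e hc)
    refine ⟨univ.filter (fun e => z e ≠ 0), hsub, ?_, ?_⟩
    · obtain ⟨e, he⟩ := Function.ne_iff.1 hz0
      exact ⟨e, Finset.mem_filter.2 ⟨Finset.mem_univ _, he⟩⟩
    · rw [ev_iff hne hsub]
      have : (fun e => if e ∈ univ.filter (fun e => z e ≠ 0) then (1 : ZMod 2) else 0) = z := by
        funext e
        exact (hval e).symm
      rw [this]
      exact hz
  · rintro ⟨Z, hZ, ⟨e0, he0⟩, hev⟩
    rw [ev_iff hne hZ] at hev
    have h1 : Fl (ZMod 2) a b H ≠ ⊥ := by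
      rw [Submodule.ne_bot_iff]
      refine ⟨_, hev, ?_⟩
      intro h
      have := congrFun h e0
      simp [he0] at this
    rw [Nat.one_le_iff_ne_zero]
    intro h0
    exact h1 (Submodule.finrank_eq_zero.1 h0)

/-- Proof: by `bet_add` it suffices that `Fintype.card V + 1 ≤ Nat.card (Cp a b H) + U.card`. -/
theorem rank_le (a b : E → V) {H : Finset E} (hH : H.Nonempty) {U : Finset V}
    (hU : ∀ e ∈ H, a e ∈ U ∧ b e ∈ U) : H.card + 1 ≤ bet a b H + U.card := by
  have hb := bet_add a b H
  obtain ⟨e0, he0⟩ := hH
  suffices h : Fintype.card V + 1 ≤ Nat.card (Cp a b H) + U.card by omega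
  let f : V → Option V := fun v => if v ∈ U then none else some v
  have hf : ∀ u v, rel a b H u v → f u = f v := by
    rintro u v ⟨e, he, rfl, rfl⟩
    have := hU e he
    simp [f, this.1, this.2]
  let F : Cp a b H → Option V := Quot.lift f hf
  let g : Option {v // v ∉ U} → Cp a b H := fun o =>
    match o with
    | none => Quot.mk _ (a e0)
    | some v => Quot.mk _ v.1
  have hFg : ∀ o, F (g o) = o.map Subtype.val := by
    intro o
    cases o with
    | none =>
      show f (a e0) = none
      simp [f, (hU e0 he0).1]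
    | some v =>
      show f v.1 = some v.1
      simp [f, v.2]
  have hg : Function.Injective g := by
    intro x y hxy
    have h1 := congrArg F hxy
    rw [hFg, hFg] at h1
    exact Option.map_injective Subtype.val_injective h1
  have hcard : Nat.card (Option {v // v ∉ U}) ≤ Nat.card (Cp a b H) :=
    Nat.card_le_card_of_injective g hg
  rw [Nat.card_eq_fintype_card, Fintype.card_option] at hcard
  have h2 : Fintype.card {v // v ∉ U} + U.card = Fintype.card V := by
    rw [Fintype.card_subtype_compl]
    have : Fintype.card {v // v ∈ U} = U.card := Fintype.card_coe U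
    rw [this]
    have := Finset.card_le_univ U
    omega
  omega

end Pool.Agent.helper54.AB
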