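import Mathlib
import Pool.Agent.helper54.AB.Dim
import Pool.Agent.helper54.AB.Basic

/-! [AB-B1] Sparsity of the monochromatic edges. -/

namespace Pool.Agent.helper54.AB

open Finset Pool.Agent.helper60.ECD Pool.Agent.helper54.LFP

variable {V : Type} [Fintype V] [DecidableEq V] {T : SphereTri V} {D : Ends T}

/-- The number of classes of triangles joined through edges outside `H` is `bet H + 1`.

Proof: let `Y = Cst (ZMod 2) D.a1 D.b1 Hᶜ`, of dimension `Nat.card (Cp D.a1 D.b1 Hᶜ)`
(`finrank_Cst`). The map `δ : Y → Fl (ZMod 2) D.a0 D.b0 H`, `δ y e = y (a1 e) + y (b1 e)`, is well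
defined (`mem_Fl_two`; the sum over the star of `v` is `Σ_t y t · #(starS0 v ∩ starS1 t) = 0` by
`Ends.even_star`, or use `Ends.even_cut`), surjective (`duality D.a1 D.b1 D.a0 D.b0 D.ne1 D.ne0
D.conn1 D.conn0 _ _`, as in the proof of `Ends.cycle_is_cut`), and its kernel consists of the
constant functions (`Ends.conn1`, compare `finrank_range_diffMap`), of dimension one. So
`Nat.card (Cp ..) = finrank Fl + 1 = bet + 1` (`finrank_Fl`). -/
theorem quot_dual (D : Ends T) (H : Finset (TE T)) :
    Nat.card (Cp D.a1 D.b1 Hᶜ) = bet D.a0 D.b0 H + 1 := by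
  classical
  obtain ⟨hV, hF, -⟩ := sphere_nonempty T
  have hE : Fintype.card (TF T) + Fintype.card V = Fintype.card (TE T) + 2 := by
    rw [add_comm]; exact D.euler
  have hadd : ∀ p q : ZMod 2, p + q = 0 ↔ p = q := by decide
  set f := (diffMap D.a1 D.b1).domRestrict (Cst (ZMod 2) D.a1 D.b1 Hᶜ) with hf
  -- the range
  have hrange : LinearMap.range f = Fl (ZMod 2) D.a0 D.b0 H := by
    ext z
    rw [LinearMap.mem_range, mem_Fl_two D.ne0]
    constructor
    · rintro ⟨y, rfl⟩
      constructor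
      · intro e he
        show y.1 (D.a1 e) + y.1 (D.b1 e) = 0
        rw [hadd]
        exact y.2 e (mem_compl.2 he)
      · intro v
        have hev := D.even_cut (univ.filter (fun t => y.1 t = 1)) v
        have h1 : ∀ e, f y e =
            if e ∈ cutS D.a1 D.b1 (univ.filter (fun t => y.1 t = 1)) then (1 : ZMod 2) else 0 := by
          intro e
          have hz : ∀ p q : ZMod 2, (¬ (p = 1 ↔ q = 1)) ↔ p + q = 1 := by decide
          have h2 : e ∈ cutS D.a1 D.b1 (univ.filter (fun t => y.1 t = 1)) ↔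
              y.1 (D.a1 e) + y.1 (D.b1 e) = 1 := by
            rw [mem_cutS]
            simp only [Finset.mem_filter, Finset.mem_univ, true_and]
            exact hz _ _
          show y.1 (D.a1 e) + y.1 (D.b1 e) = _
          by_cases h3 : y.1 (D.a1 e) + y.1 (D.b1 e) = 1
          · rw [if_pos (h2.2 h3), h3]
          · rw [if_neg (fun h => h3 (h2.1 h))]
            have : ∀ p : ZMod 2, p ≠ 1 → p = 0 := by decide
            exact this _ h3
        rw [Finset.sum_congr rfl fun e _ => h1 e, Finset.sum_ite_mem, Finset.sum_const,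
          nsmul_eq_mul, mul_one, ZMod.natCast_eq_zero_iff_even]
        exact hev
    · rintro ⟨h1, h2⟩
      obtain ⟨x, hx⟩ := duality D.a1 D.b1 D.a0 D.b0 D.ne1 D.ne0 D.conn1 D.conn0 hE
        (fun t v => by rw [Finset.inter_comm]; exact D.even_star v t) z h2
      refine ⟨⟨x, fun e he => ?_⟩, ?_⟩
      · rw [← hadd, ← hx e]
        exact h1 e (mem_compl.1 he)
      · funext e
        exact (hx e).symm
  -- the kernel
  have hker0 : Module.finrank (ZMod 2) (LinearMap.ker (diffMap D.a1 D.b1)) = 1 := by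
    have h1 := finrank_range_diffMap D.a1 D.b1 D.conn1
    have h2 := LinearMap.finrank_range_add_finrank_ker (diffMap D.a1 D.b1)
    rw [Module.finrank_fintype_fun_eq_card] at h2
    omega
  have hle : LinearMap.ker (diffMap D.a1 D.b1) ≤ Cst (ZMod 2) D.a1 D.b1 Hᶜ := by
    intro y hy e _
    rw [← hadd]
    exact congrFun (LinearMap.mem_ker.1 hy) e
  have hker : Module.finrank (ZMod 2) (LinearMap.ker f) = 1 := by
    have h3 : LinearMap.ker f =
        (LinearMap.ker (diffMap D.a1 D.b1)).comap (Cst (ZMod 2) D.a1 D.b1 Hᶜ).subtype := by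
      ext y
      rfl
    rw [h3, (Submodule.comapSubtypeEquivOfLe hle).finrank_eq, hker0]
  have h := LinearMap.finrank_range_add_finrank_ker f
  rw [hrange, hker, finrank_Fl, finrank_Cst] at h
  exact h.symm

/-- Proof: let `H ⊆ Mo D c.x`, `1 ≤ bet H`. For a class `q : Cp D.a1 D.b1 Hᶜ` let `A q` be the set of
the triangles in `q` and `B q = cutS D.a1 D.b1 (A q)`. `B q ⊆ H` (an edge outside `H` has both
triangles in the same class). `B q` is even (`Ends.even_cut`) and nonempty (`Ends.conn1`: `A q` is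
nonempty and not everything because there are at least two classes by `quot_dual`), so
`5 ≤ (B q).card` by `c.good`. An edge `e` is in `B q` only for `q` = class of `a1 e` or of `b1 e`,
so `Σ_q (B q).card ≤ 2 |H|`. -/
theorem sparse (c : Cfg D) : Sparse D.a0 D.b0 (Mo D c.x) := by
  classical
  intro H hH hb
  have hcard := quot_dual D H
  have : Fintype (Cp D.a1 D.b1 Hᶜ) := Fintype.ofFinite _
  rw [Nat.card_eq_fintype_card] at hcard
  let mk : TF T → Cp D.a1 D.b1 Hᶜ := fun t => Quot.mk _ t
  have hmk : ∀ e ∉ H, mk (D.a1 e) = mk (D.b1 e) := fun e he =>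
    Quot.sound ⟨e, mem_compl.2 he, rfl, rfl⟩
  let A : Cp D.a1 D.b1 Hᶜ → Finset (TF T) := fun q => univ.filter (fun t => mk t = q)
  have hA : ∀ q t, t ∈ A q ↔ mk t = q := by
    intro q t
    simp [A]
  let B : Cp D.a1 D.b1 Hᶜ → Finset (TE T) := fun q => cutS D.a1 D.b1 (A q)
  have hBH : ∀ q, B q ⊆ H := by
    intro q e he
    by_contra hc
    have h1 : ¬ (D.a1 e ∈ A q ↔ D.b1 e ∈ A q) := mem_cutS.1 he
    rw [hA, hA, hmk e hc] at h1
    exact h1 Iff.rfl
  have hne : ∀ q, (B q).Nonempty := by
    intro q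
    have h1 : (A q).Nonempty := by
      obtain ⟨t, ht⟩ := Quot.exists_rep q
      exact ⟨t, (hA q t).2 ht⟩
    have h2 : (A q)ᶜ.Nonempty := by
      have : 1 < Fintype.card (Cp D.a1 D.b1 Hᶜ) := by omega
      obtain ⟨q', hq'⟩ := Fintype.exists_ne_of_one_lt_card this q
      obtain ⟨t, ht⟩ := Quot.exists_rep q'
      refine ⟨t, mem_compl.2 fun h => hq' ?_⟩
      rw [hA] at h
      exact ht.symm.trans h
    exact Finset.card_pos.1 (D.conn1 (A q) h1 h2)
  have h5 : ∀ q, 5 ≤ (B q).card := fun q =>
    c.good (B q) ((hBH q).trans hH) (hne q) (fun v => D.even_cut (A q) v)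
  have hsum : ∑ q, (B q).card ≤ 2 * H.card := by
    have h1 : ∀ q, (B q).card = ∑ e ∈ H, (if e ∈ B q then 1 else 0) := by
      intro q
      rw [← Finset.card_filter]
      congr 1
      ext e
      rw [mem_filter]
      exact ⟨fun h => ⟨hBH q h, h⟩, fun h => h.2⟩
    rw [Finset.sum_congr rfl fun q _ => h1 q, Finset.sum_comm, mul_comm, ← smul_eq_mul]
    refine Finset.sum_le_card_nsmul H _ 2 fun e _ => ?_
    rw [← Finset.card_filter]
    have h2 : univ.filter (fun q => e ∈ B q) ⊆ {mk (D.a1 e), mk (D.b1 e)} := by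
      intro q hq
      have h3 : ¬ (D.a1 e ∈ A q ↔ D.b1 e ∈ A q) := mem_cutS.1 (mem_filter.1 hq).2
      rw [hA, hA] at h3
      rw [mem_insert, mem_singleton]
      by_contra hc
      push Not at hc
      exact h3 ⟨fun h => absurd h.symm hc.1, fun h => absurd h.symm hc.2⟩
    exact (Finset.card_le_card h2).trans Finset.card_le_two
  have h6 : (Fintype.card (Cp D.a1 D.b1 Hᶜ)) * 5 ≤ ∑ q, (B q).card := by
    rw [← smul_eq_mul, ← Finset.card_univ]
    exact Finset.card_nsmul_le_sum univ _ 5 fun q _ => h5 q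
  omega

end Pool.Agent.helper54.AB
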