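import Mathlib
import Pool.Agent.helper54.AB.Sparse
import Pool.Agent.helper54.AB.Pair2

/-! [AB-B3] The degree of a component is its cycle rank plus one. -/

namespace Pool.Agent.helper54.AB

open Finset Pool.Agent.helper60.ECD Pool.Agent.helper54.LFP

variable {V : Type} [Fintype V] [DecidableEq V] {T : SphereTri V} {D : Ends T} (c : Cfg D)

namespace Cfg

/-- Proof: for every neighbour `L` of `K` take `y_L` (`pair_fun`) and a triangle `t_L ∈ Sig y_L`. The
map `L ↦ class of t_L` in `Cp D.a1 D.b1 (c.EK K)ᶜ` is injective: if `t_L`, `t_L'` are in the same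
class then `t_L' ∈ Sig y_L`, because membership in `Sig y_L` is constant along edges outside `EK K`
(`cut_Sig`, `AS K L ⊆ EK K`), contradicting `Sig_disjoint`. Then `quot_dual`. -/
theorem deg_le (K : c.Q) : c.deg K ≤ bet D.a0 D.b0 (c.EK K) + 1 := by
  have h1 : ∀ L : {L // c.Nb K L}, ∃ y : V → ZMod 2, ∃ t : TF T,
      (∀ e, y (D.a0 e) + y (D.b0 e) = if e ∈ c.DD K L.1 then 1 else 0) ∧
      (∀ v, c.cmp v = K → y v = 0) ∧ (∀ v, c.cmp v = L.1 → y v = 1) ∧
      t ∈ (Sig y : Finset (TF T)) := by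
    rintro ⟨L, hL⟩
    obtain ⟨y, h1, h2, h3⟩ := c.pair_fun hL
    obtain ⟨v, hv⟩ := c.cmp_surj L
    obtain ⟨t, ht, hvt⟩ := T.covers v
    exact ⟨y, ⟨t, ht⟩, h1, h2, h3, mem_filter.2 ⟨mem_univ _, v, hvt, h3 v hv⟩⟩
  choose y t hy hK hL ht using h1
  have hinj : Function.Injective
      (fun L : {L // c.Nb K L} => (Quot.mk _ (t L) : Cp D.a1 D.b1 (c.EK K)ᶜ)) := by
    intro L L' h
    by_contra hne
    have hne' : L.1 ≠ L'.1 := fun h => hne (Subtype.ext h)
    have hc : ∀ p q : TF T, rel D.a1 D.b1 (c.EK K)ᶜ p q →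
        (p ∈ (Sig (y L) : Finset (TF T))) = (q ∈ (Sig (y L) : Finset (TF T))) := by
      rintro p q ⟨e, he, rfl, rfl⟩
      rw [mem_compl] at he
      by_contra hcon
      apply he
      have h3 : e ∈ cutS D.a1 D.b1 (Sig (y L)) := by
        rw [mem_cutS]
        exact fun h4 => hcon (propext h4)
      rw [c.cut_Sig (hy L) (hK L) (hL L)] at h3
      exact (c.mem_AS.1 h3).1
    have h2 := congrArg (Quot.lift (fun p => p ∈ (Sig (y L) : Finset (TF T))) hc) h
    have h3 : (t L ∈ (Sig (y L) : Finset (TF T))) = (t L' ∈ (Sig (y L) : Finset (TF T))) := h2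
    have h4 : t L' ∈ (Sig (y L) : Finset (TF T)) := h3 ▸ ht L
    exact (disjoint_left.1 (c.Sig_disjoint hne' (hy L) (hK L) (hy L') (hK L'))) h4 (ht L')
  have h2 := Nat.card_le_card_of_injective _ hinj
  have h3 : Nat.card {L // c.Nb K L} = c.deg K := by
    unfold deg
    exact Nat.subtype_card _ (by simp)
  have h4 : Nat.card (Quot (rel D.a1 D.b1 (c.EK K)ᶜ)) = bet D.a0 D.b0 (c.EK K) + 1 :=
    quot_dual D (c.EK K)
  omega

/-- Proof: `bet_add` and `Nat.card (Cp (c.EK K)) + (c.VK K).card = Fintype.card V + 1`: the map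
`V → Option {v // c.cmp v ≠ K}`, sending the vertices of `K` to `none`, is constant along `EK K`; it
induces a bijection from `Cp D.a0 D.b0 (c.EK K)`: all vertices of `K` are in one class of `EK K`
(two vertices in the same class of `Quot (rel ... Mo)` are joined by a chain of edges of `Mo`,
`Relation.EqvGen` / `Quot.eqvGen_exact`, and all these edges are in `EK K`). -/
theorem bet_EK (K : c.Q) :
    bet D.a0 D.b0 (c.EK K) + (c.VK K).card = (c.EK K).card + 1 := by
  obtain ⟨v0, hv0⟩ := c.cmp_surj K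
  have hcl : ∀ u v, c.cmp u = K → c.cmp v = K →
      (Quot.mk _ u : Cp D.a0 D.b0 (c.EK K)) = Quot.mk _ v := by
    intro u v hu hv
    have h := c.cmp_lift
      (fun w => if c.cmp w = K then (Quot.mk _ w : Cp D.a0 D.b0 (c.EK K)) else Quot.mk _ v0)
      (by
        intro e he
        have h1 := c.cmp_edge he
        by_cases h2 : c.cmp (D.a0 e) = K
        · have h3 : c.cmp (D.b0 e) = K := h1 ▸ h2
          simp only [h2, h3, if_true]
          exact Quot.sound ⟨e, c.mem_EK.2 ⟨he, h2⟩, rfl, rfl⟩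
        · have h3 : ¬ c.cmp (D.b0 e) = K := h1 ▸ h2
          simp only [h2, h3, if_false]) (hu.trans hv.symm)
    simpa only [hu, hv, if_true] using h
  let f0 : V → Option {v // ¬ c.cmp v = K} :=
    fun v => if h : c.cmp v = K then none else some ⟨v, h⟩
  have hf0 : ∀ p q : V, rel D.a0 D.b0 (c.EK K) p q → f0 p = f0 q := by
    rintro p q ⟨e, he, rfl, rfl⟩
    have h2 : c.cmp (D.a0 e) = K := (c.mem_EK.1 he).2
    have h3 : c.cmp (D.b0 e) = K := (c.cmp_edge (c.mem_EK.1 he).1) ▸ h2
    simp only [f0, h2, h3, dif_pos]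
  let f : Cp D.a0 D.b0 (c.EK K) → Option {v // ¬ c.cmp v = K} := Quot.lift f0 hf0
  have hbij : Function.Bijective f := by
    constructor
    · intro p q
      obtain ⟨u, rfl⟩ := Quot.exists_rep p
      obtain ⟨v, rfl⟩ := Quot.exists_rep q
      intro h
      have h' : f0 u = f0 v := h
      by_cases hu : c.cmp u = K
      · by_cases hv : c.cmp v = K
        · exact hcl u v hu hv
        · simp only [f0, hu, hv, dif_pos, dif_neg, not_false_eq_true] at h'
          exact absurd h' (by simp)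
      · by_cases hv : c.cmp v = K
        · simp only [f0, hu, hv, dif_pos, dif_neg, not_false_eq_true] at h'
          exact absurd h' (by simp)
        · simp only [f0, hu, hv, dif_neg, not_false_eq_true] at h'
          have h2 : u = v := by
            have := Option.some.inj h'
            exact congrArg Subtype.val this
          rw [h2]
    · intro o
      cases o with
      | none =>
        refine ⟨Quot.mk _ v0, ?_⟩
        change f0 v0 = none
        simp only [f0, hv0, dif_pos]
      | some w =>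
        obtain ⟨w, hw⟩ := w
        refine ⟨Quot.mk _ w, ?_⟩
        change f0 w = some ⟨w, hw⟩
        simp only [f0, hw, dif_neg, not_false_eq_true]
  have h1 := Nat.card_eq_of_bijective f hbij
  have h2 : Nat.card (Option {v // ¬ c.cmp v = K}) = (univ.filter (fun v => ¬ c.cmp v = K)).card + 1 := by
    rw [Finite.card_option]
    congr 1
    exact Nat.subtype_card _ (by simp)
  have h3 : (c.VK K).card + (univ.filter (fun v => ¬ c.cmp v = K)).card = Fintype.card V := by
    unfold VK
    rw [card_filter_add_card_filter_not]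
    rfl
  have h4 := bet_add D.a0 D.b0 (c.EK K)
  omega

/-- Any set of components which is closed under neighbours is empty or everything. Proof: the set of
vertices in these components is a union of whole triangles..., `Ends.conn0`. -/
theorem conn (P : c.Q → Prop) (hP : ∀ K L, c.Nb K L → P K → P L) {K₀ : c.Q} (h0 : P K₀) :
    ∀ K, P K := by
  classical
  by_contra hcon
  push Not at hcon
  obtain ⟨K1, hK1⟩ := hcon
  obtain ⟨v0, hv0⟩ := c.cmp_surj K₀
  obtain ⟨v1, hv1⟩ := c.cmp_surj K1
  have h1 := D.conn0 (univ.filter (fun v => P (c.cmp v)))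
    ⟨v0, by simp [hv0, h0]⟩ ⟨v1, by simp [hv1, hK1]⟩
  unfold cut at h1
  obtain ⟨e, he⟩ := card_pos.1 h1
  rw [mem_cutS] at he
  simp only [mem_filter, mem_univ, true_and] at he
  have hne : c.cmp (D.a0 e) ≠ c.cmp (D.b0 e) := by
    intro h
    apply he
    rw [h]
  have hN := c.Nb_of_edge (D.pair e) hne
  exact he ⟨fun h => hP _ _ hN h, fun h => hP _ _ (c.Nb_symm hN) h⟩

/-- Proof: the graph with vertex set `c.Q` and adjacency `c.Nb` is connected (`conn`), so it has at
least `card - 1` edges (`SimpleGraph.Connected.card_vert_le_card_edgeSet_add_one`), and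
`Σ deg = 2 · #edges` (`SimpleGraph.sum_degrees_eq_twice_card_edges`). -/
theorem sum_deg_ge : 2 * Fintype.card c.Q ≤ ∑ K, c.deg K + 2 := by
  classical
  obtain ⟨⟨v0⟩, -, -⟩ := sphere_nonempty T
  let G : SimpleGraph c.Q :=
    { Adj := fun K L => c.Nb K L
      symm := ⟨fun _ _ h => c.Nb_symm h⟩
      loopless := ⟨fun _ h => h.1 rfl⟩ }
  have hG : G.Connected := by
    have hne : Nonempty c.Q := ⟨c.cmp v0⟩
    refine ⟨fun K L => ?_⟩
    exact c.conn (fun L => G.Reachable K L)
      (fun _ _ h h2 => h2.trans (SimpleGraph.Adj.reachable h)) (SimpleGraph.Reachable.refl K) L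
  have h1 := hG.card_vert_le_card_edgeSet_add_one
  have h2 := G.sum_degrees_eq_twice_card_edges
  have h3 : ∀ K, G.degree K = c.deg K := by
    intro K
    unfold deg
    rw [← SimpleGraph.card_neighborFinset_eq_degree]
    congr 1
    ext L
    rw [SimpleGraph.mem_neighborFinset, mem_filter]
    exact ⟨fun h => ⟨mem_univ _, h⟩, fun h => h.2⟩
  rw [sum_congr rfl (fun K _ => h3 K)] at h2
  unfold SimpleGraph.edgeFinset at h2
  rw [← Nat.card_eq_card_toFinset] at h2
  rw [Nat.card_eq_fintype_card] at h1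
  have h4 : ∑ K, c.deg K = 2 * Nat.card G.edgeSet := h2
  omega

/-- Proof: `deg K + v K ≤ m K + 2` by `deg_le` and `bet_EK`. Summing over `K`:
`Σ deg + n ≤ (n - 2) + 2 card Q` (`sum_VK`, `sum_EK`, `Mo_card`), and `Σ deg ≥ 2 card Q - 2`, so
equality holds for every `K`. -/
theorem deg_eq (K : c.Q) : (c.EK K).card + 2 = (c.VK K).card + c.deg K := by
  have h1 : ∀ K ∈ (univ : Finset c.Q), (c.VK K).card + c.deg K ≤ (c.EK K).card + 2 := by
    intro K _
    have h2 := c.deg_le K
    have h3 := c.bet_EK K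
    omega
  have h2 : ∑ K, ((c.VK K).card + c.deg K) = ∑ K, ((c.EK K).card + 2) := by
    apply le_antisymm (sum_le_sum h1)
    rw [sum_add_distrib, sum_add_distrib, c.sum_VK, c.sum_EK, sum_const, smul_eq_mul, card_univ]
    have h3 := c.Mo_card
    have h4 := c.sum_deg_ge
    omega
  exact ((sum_eq_sum_iff_of_le h1).1 h2 K (mem_univ _)).symm

/-- Proof: take a triangle containing a vertex of `K` (`T.covers`), `Nb_face`, `edge_cases`. -/
theorem deg_pos (K : c.Q) : 1 ≤ c.deg K := by
  obtain ⟨v, hv⟩ := c.cmp_surj K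
  obtain ⟨t, ht, hvt⟩ := T.covers v
  have hN := c.Nb_face ⟨t, ht⟩
  have hf := c.face_eq ⟨t, ht⟩
  have h1 : ∃ L, c.Nb K L := by
    have hvt' : v ∈ ({c.apex ⟨t, ht⟩, D.a0 (c.base ⟨t, ht⟩), D.b0 (c.base ⟨t, ht⟩)} : Finset V) := by
      rw [← hf]; exact hvt
    rw [mem_insert, mem_insert, mem_singleton] at hvt'
    rcases hvt' with h | h | h
    · exact ⟨_, by rw [← hv, h]; exact c.Nb_symm hN⟩
    · exact ⟨_, by rw [← hv, h]; exact hN⟩
    · refine ⟨c.cmp (c.apex ⟨t, ht⟩), ?_⟩
      rw [← hv, h, ← c.cmp_edge (c.base_mem ⟨t, ht⟩)]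
      exact hN
  obtain ⟨L, hL⟩ := h1
  unfold deg
  exact card_pos.2 ⟨L, mem_filter.2 ⟨mem_univ _, hL⟩⟩

/-- tree components have no even sets, so every set hits them. Proof: `deg_eq`, `bet_EK`: `bet = deg -
1 = 0`; `bet_pos`. -/
theorem hit_tree {K : c.Q} (h : c.deg K = 1) : Hit D.a0 D.b0 (c.EK K) ∅ := by
  intro Z hZ hne hev
  exfalso
  have h1 := c.bet_EK K
  have h2 := c.deg_eq K
  have h3 : 1 ≤ bet D.a0 D.b0 (c.EK K) := (bet_pos D.ne0 _).2 ⟨Z, hZ, hne, hev⟩
  omega

theorem bet_deg (K : c.Q) : bet D.a0 D.b0 (c.EK K) + 1 = c.deg K := by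
  have h1 := c.bet_EK K
  have h2 := c.deg_eq K
  omega

/-- `5 deg ≤ 2 m` for components which are not trees: `sparse`. -/
theorem exc_nonneg {K : c.Q} (h : 2 ≤ c.deg K) : 5 * c.deg K ≤ 2 * (c.EK K).card := by
  have h1 := c.bet_deg K
  have h2 := sparse c (c.EK K) (filter_subset _ _) (by omega)
  rw [h1] at h2
  exact h2

end Cfg

end Pool.Agent.helper54.AB
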