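import Mathlib
import Pool.Agent.helper54.AB.Deg
import Pool.Agent.helper54.AB.Count

/-! [AB-B6] The inequality (8). -/

namespace Pool.Agent.helper54.AB

open Finset Pool.Agent.helper60.ECD Pool.Agent.helper54.LFP

variable {V : Type} [Fintype V] [DecidableEq V] {T : SphereTri V} {D : Ends T} (c : Cfg D)

namespace Cfg

/-- the vertices of `K` on monochromatic cycles -/
noncomputable def V0 (K : c.Q) : Finset V := by
  classical exact (c.VK K).filter (fun v => ∃ Z ⊆ Mo D c.x, Ev D.a0 D.b0 Z ∧ ∃ e ∈ Z, v ∈ e.1)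

theorem mem_V0 {K : c.Q} {v : V} : v ∈ c.V0 K ↔
    v ∈ c.VK K ∧ ∃ Z ⊆ Mo D c.x, Ev D.a0 D.b0 Z ∧ ∃ e ∈ Z, v ∈ e.1 := by
  classical
  unfold V0
  exact mem_filter

/-- Proof: by `hc` every `v ∈ V0 K` has a component `L ≠ K` with `r L v ≥ 2`; such `L` is a neighbour
of `K` (`Nb_of_edge`). So `|V0 K| ≤ Σ_{L ~ K} #{v ∈ VN K L : r L v ≥ 2} ≤ Σ_{L ~ K} Σ_{v ∈ VN K L}
(r L v - 1) = Σ_{L ~ K} (|DD K L| - |VN K L|)`, and `|DD K L| = tau K L + tau L K`, `|VN K L| ≥ 5`,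
`Σ_L tau K L = 2 |EK K|` (`sum_r_VN`, `DD_card`, `VN_five`, `tau_sum`, `tau_nb`). -/
theorem V0_le (hc : c.Flip) {K : c.Q} (h : 2 ≤ c.deg K) :
    (c.V0 K).card + 5 * c.deg K ≤ 2 * (c.EK K).card + ∑ L, c.tau L K := by
  have hV0 : ∀ v ∈ c.V0 K, v ∈ c.VK K ∧ ∃ L, c.Nb K L ∧ 2 ≤ c.r L v := by
    intro v hv
    obtain ⟨h1, h2⟩ := c.mem_V0.1 hv
    obtain ⟨L, hL, hr⟩ := hc v h2
    have hvK := c.mem_VK.1 h1
    refine ⟨h1, L, ?_, hr⟩
    have hpos : 0 < (c.NL L v).card := lt_of_lt_of_le Nat.zero_lt_two hr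
    obtain ⟨u, hu⟩ := card_pos.1 hpos
    obtain ⟨hu1, e, he⟩ := c.mem_NL.1 hu
    have hne : c.cmp v ≠ c.cmp u := by
      rw [hu1]
      exact fun h => hL h.symm
    have h3 := c.Nb_of_edge he hne
    rw [hvK, hu1] at h3
    exact h3
  have h1 : (c.V0 K).card ≤ ∑ v ∈ c.VK K, ∑ L ∈ univ.filter (fun L => c.Nb K L), (c.r L v - 1) := by
    have hsub : c.V0 K ⊆ c.VK K := fun v hv => (hV0 v hv).1
    calc (c.V0 K).card = ∑ v ∈ c.V0 K, 1 := by simp
      _ ≤ ∑ v ∈ c.V0 K, ∑ L ∈ univ.filter (fun L => c.Nb K L), (c.r L v - 1) := by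
          refine sum_le_sum fun v hv => ?_
          obtain ⟨-, L, hL, hr⟩ := hV0 v hv
          have h2 : c.r L v - 1 ≤ ∑ L ∈ univ.filter (fun L => c.Nb K L), (c.r L v - 1) :=
            single_le_sum (f := fun L => c.r L v - 1) (fun _ _ => Nat.zero_le _)
              (mem_filter.2 ⟨mem_univ _, hL⟩)
          omega
      _ ≤ _ := sum_le_sum_of_subset hsub
  rw [sum_comm] at h1
  have h2 : ∀ L ∈ univ.filter (fun L => c.Nb K L),
      ∑ v ∈ c.VK K, (c.r L v - 1) + (c.VN K L).card = c.tau K L + c.tau L K := by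
    intro L hL
    have hN : c.Nb K L := (mem_filter.1 hL).2
    have h3 := c.sum_r hN.1
    have h4 := c.DD_card hN.1
    have h5 : (c.VN K L).card = ∑ v ∈ c.VK K, (if (c.NL L v).Nonempty then 1 else 0) := by
      rw [← card_filter]
      rfl
    rw [h5, ← sum_add_distrib, ← h4, ← h3]
    refine sum_congr rfl fun v _ => ?_
    by_cases hne : (c.NL L v).Nonempty
    · rw [if_pos hne]
      have h6 : 0 < c.r L v := card_pos.2 hne
      omega
    · rw [if_neg hne]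
      have h6 : c.r L v = 0 := by
        unfold r
        rw [not_nonempty_iff_eq_empty.1 hne, card_empty]
      omega
  have h3 := sum_congr (rfl : univ.filter (fun L => c.Nb K L) = univ.filter (fun L => c.Nb K L)) h2
  rw [sum_add_distrib, sum_add_distrib] at h3
  have h4 : 5 * c.deg K ≤ ∑ L ∈ univ.filter (fun L => c.Nb K L), (c.VN K L).card := by
    have h5 : ∑ L ∈ univ.filter (fun L => c.Nb K L), 5 ≤
        ∑ L ∈ univ.filter (fun L => c.Nb K L), (c.VN K L).card :=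
      sum_le_sum fun L hL => c.VN_five h (mem_filter.1 hL).2
    rw [sum_const, smul_eq_mul, mul_comm] at h5
    exact h5
  have h5 : ∑ L ∈ univ.filter (fun L => c.Nb K L), c.tau K L ≤ ∑ L, c.tau K L :=
    sum_le_sum_of_subset (filter_subset _ _)
  have h6 : ∑ L ∈ univ.filter (fun L => c.Nb K L), c.tau L K ≤ ∑ L, c.tau L K :=
    sum_le_sum_of_subset (filter_subset _ _)
  have h7 := c.tau_sum K
  omega

/-- Proof: let `H` be the set of the edges of `EK K` which are in an even subset of `Mo`. All flows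
over `ZMod 2` on `EK K` are supported on `H`, so `bet H = bet (EK K) = deg K - 1 ≥ 1` (`finrank_Fl`,
`mem_Fl_two`, `ev_iff`, `bet_deg`). `sparse`: `5 deg K ≤ 2 |H|`. `rank_le` with `U = V0 K`:
`|H| + 1 ≤ bet H + |V0 K|`. With `deg_eq`: `v K = m K + 2 - deg K`, so
`v K - |V0 K| ≤ m K - |H| ≤ m K - (5/2) deg K`. -/
theorem VK_le {K : c.Q} (h : 2 ≤ c.deg K) :
    2 * (c.VK K).card + 5 * c.deg K ≤ 2 * (c.V0 K).card + 2 * (c.EK K).card := by
  classical
  set H : Finset (TE T) := (c.EK K).filter (fun e => ∃ Z ⊆ Mo D c.x, Ev D.a0 D.b0 Z ∧ e ∈ Z)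
    with hH
  have hHK : H ⊆ c.EK K := filter_subset _ _
  have hKM : c.EK K ⊆ Mo D c.x := fun e he => (c.mem_EK.1 he).1
  have h01 : ∀ q : ZMod 2, q ≠ 0 → q = 1 := by decide
  have hle : Fl (ZMod 2) D.a0 D.b0 (c.EK K) ≤ Fl (ZMod 2) D.a0 D.b0 H := by
    intro z hz
    refine ⟨fun e he => ?_, hz.2⟩
    by_contra hze
    have heK : e ∈ c.EK K := by
      by_contra h1
      exact hze (hz.1 e h1)
    have hZK : (c.EK K).filter (fun f => z f ≠ 0) ⊆ c.EK K := filter_subset _ _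
    have hZ : Ev D.a0 D.b0 ((c.EK K).filter (fun f => z f ≠ 0)) := by
      rw [ev_iff D.ne0 hZK]
      have h2 : (fun e => if e ∈ (c.EK K).filter (fun f => z f ≠ 0) then (1 : ZMod 2) else 0)
          = z := by
        funext f
        by_cases hf : f ∈ (c.EK K).filter (fun f => z f ≠ 0)
        · rw [if_pos hf]
          exact (h01 _ (mem_filter.1 hf).2).symm
        · rw [if_neg hf]
          by_cases hfK : f ∈ c.EK K
          · by_contra h3
            exact hf (mem_filter.2 ⟨hfK, fun h4 => h3 h4.symm⟩)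
          · exact (hz.1 f hfK).symm
      rw [h2]
      exact hz
    exact he (mem_filter.2 ⟨heK, _, hZK.trans hKM, hZ, mem_filter.2 ⟨heK, hze⟩⟩)
  have h1 : bet D.a0 D.b0 (c.EK K) ≤ bet D.a0 D.b0 H := by
    rw [← finrank_Fl (ZMod 2), ← finrank_Fl (ZMod 2)]
    exact Submodule.finrank_mono hle
  have h2 : bet D.a0 D.b0 H ≤ bet D.a0 D.b0 (c.EK K) := bet_mono _ _ hHK
  have h3 := c.bet_deg K
  have h4 := sparse c H (hHK.trans hKM) (by omega)
  have hne : H.Nonempty := card_pos.1 (by omega)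
  have hU : ∀ e ∈ H, D.a0 e ∈ c.V0 K ∧ D.b0 e ∈ c.V0 K := by
    intro e he
    obtain ⟨heK, Z, hZ, hev, heZ⟩ := mem_filter.1 he
    have hcm := c.mem_EK.1 heK
    have key : ∀ v, c.cmp v = K → v ∈ e.1 → v ∈ c.V0 K := by
      intro v hv hve
      exact c.mem_V0.2 ⟨c.mem_VK.2 hv, Z, hZ, hev, e, heZ, hve⟩
    exact ⟨key _ hcm.2 ((mem_edge D).2 (Or.inl rfl)),
      key _ ((c.cmp_edge hcm.1).symm.trans hcm.2) ((mem_edge D).2 (Or.inr rfl))⟩
  have h5 := rank_le D.a0 D.b0 hne hU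
  have h6 := c.deg_eq K
  omega

/-- (8) -/
theorem five_main (hc : c.Flip) {K : c.Q} (h : 2 ≤ c.deg K) :
    2 * (c.VK K).card + 15 * c.deg K ≤ 2 * ∑ L, c.tau L K + 6 * (c.EK K).card := by
  have h1 := c.V0_le hc h
  have h2 := c.VK_le h
  omega

end Cfg

end Pool.Agent.helper54.AB
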