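import Mathlib
import Pool.Agent.helper54.AB.Five

/-! [AB-B7] Local gains. Proofs by helper47. -/

namespace Pool.Agent.helper54.AB

open Finset Pool.Agent.helper60.ECD Pool.Agent.helper54.LFP

variable {V : Type} [Fintype V] [DecidableEq V] {T : SphereTri V} {D : Ends T} (c : Cfg D)

namespace Cfg

private lemma leaf_NL_sub (L : c.Q) (v : V) : c.NL L v ⊆ c.VK L := by
  intro u hu
  rw [mem_VK]
  exact (c.mem_NL.1 hu).1

private lemma leaf_nb {K L : c.Q} {v u : V} (hv : c.cmp v = K) (hne : L ≠ K)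
    (hu : u ∈ c.NL L v) : c.Nb K L := by
  obtain ⟨h1, e, he⟩ := c.mem_NL.1 hu
  subst h1
  subst hv
  exact c.Nb_of_edge he (Ne.symm hne)

private lemma leaf_r_tree {R : c.Q} (h1 : c.deg R = 1) (h0 : (c.EK R).card = 0) (v : V) :
    (c.NL R v).card ≤ 1 := by
  have h := c.deg_eq R
  have hle := card_le_card (c.leaf_NL_sub R v)
  omega

/-- the sum of `tau K` over the neighbours -/
private lemma leaf_tau_sum (K : c.Q) :
    ∑ L ∈ univ.filter (fun L => c.Nb K L), c.tau K L = 2 * (c.EK K).card := by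
  rw [← c.tau_sum K, Finset.sum_filter]
  refine Finset.sum_congr rfl fun L _ => ?_
  by_cases h : c.Nb K L
  · rw [if_pos h]
  · rw [if_neg h, c.tau_nb h]

/-- Proof: (9) of the paper. Let `L` be the nontree neighbour (the only one, `c.s K = 1`). For a tree
neighbour `R`, `tau R K ≤ 2 |EK R| = 0` (`tau_sum`, `Fine`); so `Σ_M tau M K = tau L K = 5`
(`tau_nb`). With `five_main`, `deg_eq` and `2 |EK K| = 5 deg K`: `3 deg K + 4 ≤ 10`, so `deg K = 2`,
`|EK K| = 5`, `|VK K| = 5`; the neighbours of `K` are `L` and one component `R` with `deg R = 1`,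
`|EK R| = 0`, `|VK R| = 1`. `AS K L ⊆ EK K` has at least five edges, so `AS K L = EK K` is even
(`AS_ev`, `AS_five`); `VN K L`, `VN K R` have at least five elements (`VN_five`), so all vertices of
`K` have neighbours in `L` and in `R`. The set of vertices touched by `EK K` has at least five
elements (`ev_five`), so it is `VK K`. By `hc` every `v ∈ VK K` has a component `M ≠ K` with
`r M v ≥ 2`, it is `L` because `r R v ≤ |VK R| = 1`. `tau K L + tau K R = 10`, both are at least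
`5` (`tau_five`), so `tau K L = 5`, and `Σ_{v ∈ VK K} r L v = |DD K L| = tau K L + tau L K = 10`
(`sum_r`, `DD_card`); so `r L v = 2` for all `v ∈ VK K`.
`AS L K` is a nonempty even subset of `EK L ⊆ Mo` (`AS_five` for `L`, `2 ≤ deg L`), so `hS` gives
an edge `e ∈ AS L K` with an end `z ∈ SS`. One of the triangles of `e` has its apex `w` in `K`. `w`
is adjacent to `z` (`apex_edges`), so `z ∈ NL L w ∩ SS`, and `|NL L w \ SS| ≤ 1`. For `M = R`:
`|NL R w| ≤ 1`. For other `M ≠ K`: `NL M w = ∅` (`Nb_of_edge`). -/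
theorem leaf_gain (hc : c.Flip) {K : c.Q} (h2 : 2 ≤ c.deg K) (hf : c.Fine K) (hs : c.s K = 1)
    {SS : Finset V} (hS : Hit D.a0 D.b0 (Mo D c.x) SS) : ∃ w, c.cmp w = K ∧ c.Ok SS w := by
  classical
  obtain ⟨hf1, hf2, hf3⟩ := hf
  -- the nontree neighbour
  obtain ⟨L, hL⟩ : ∃ L, univ.filter (fun L => c.Nb K L ∧ 2 ≤ c.deg L) = {L} := by
    rw [← card_eq_one]
    exact hs
  have hLmem : ∀ M, (c.Nb K M ∧ 2 ≤ c.deg M) ↔ M = L := by
    intro M
    have h : M ∈ univ.filter (fun L => c.Nb K L ∧ 2 ≤ c.deg L) ↔ M ∈ ({L} : Finset c.Q) := by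
      rw [hL]
    rw [mem_filter, mem_singleton] at h
    exact ⟨fun hh => h.1 ⟨mem_univ _, hh⟩, fun hh => (h.2 hh).2⟩
  obtain ⟨hKL, hL2⟩ := (hLmem L).2 rfl
  have htree : ∀ M, c.Nb K M → M ≠ L → c.deg M = 1 := by
    intro M hM hne
    have h1 := c.deg_pos M
    by_contra hh
    exact hne ((hLmem M).1 ⟨hM, by omega⟩)
  have hzero : ∀ M, M ≠ L → c.tau M K = 0 := by
    intro M hne
    by_cases hM : c.Nb K M
    · have h0 := hf2 M hM (htree M hM hne)
      have h1 := c.tau_sum M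
      rw [h0, mul_zero] at h1
      exact Finset.sum_eq_zero_iff.1 h1 K (mem_univ _)
    · exact c.tau_nb fun h => hM (c.Nb_symm h)
  have hsum : ∑ M, c.tau M K = 5 := by
    rw [Finset.sum_eq_single L (fun M _ hne => hzero M hne)
      (fun h => absurd (mem_univ _) h)]
    exact hf3 L hKL hL2
  have h5 := c.five_main hc h2
  rw [hsum] at h5
  have hdeg := c.deg_eq K
  have hd2 : c.deg K = 2 := by omega
  have hm5 : (c.EK K).card = 5 := by omega
  have hv5 : (c.VK K).card = 5 := by omega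
  -- the other neighbour
  obtain ⟨R, hRL, hR⟩ : ∃ R, R ≠ L ∧ univ.filter (fun M => c.Nb K M) = {L, R} := by
    have hd : (univ.filter (fun M => c.Nb K M)).card = 2 := hd2
    obtain ⟨P, Q, hPQ, h⟩ := card_eq_two.1 hd
    have hLm : L ∈ univ.filter (fun M => c.Nb K M) := mem_filter.2 ⟨mem_univ _, hKL⟩
    rw [h, mem_insert, mem_singleton] at hLm
    rcases hLm with rfl | rfl
    · exact ⟨Q, hPQ.symm, h⟩
    · exact ⟨P, hPQ, by rw [h, pair_comm]⟩
  have hnb : ∀ M, c.Nb K M ↔ M = L ∨ M = R := by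
    intro M
    have h : M ∈ univ.filter (fun M => c.Nb K M) ↔ M ∈ ({L, R} : Finset c.Q) := by rw [hR]
    rw [mem_filter, mem_insert, mem_singleton] at h
    exact ⟨fun hh => h.1 ⟨mem_univ _, hh⟩, fun hh => (h.2 hh).2⟩
  have hKR : c.Nb K R := (hnb R).2 (Or.inr rfl)
  have hR1 : c.deg R = 1 := htree R hKR hRL
  have hR0 : (c.EK R).card = 0 := hf2 R hKR hR1
  -- `EK K` is even
  have hAS : c.AS K L = c.EK K := by
    refine eq_of_subset_of_card_le (filter_subset _ _) ?_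
    rw [hm5]
    exact (c.AS_five h2 hKL).2
  have hev : Ev D.a0 D.b0 (c.EK K) := by
    rw [← hAS]
    exact c.AS_ev hKL
  have hne : (c.EK K).Nonempty := by
    rw [← card_pos]
    omega
  have hsubM : ∀ M, c.EK M ⊆ Mo D c.x := fun M => filter_subset _ _
  have htouch : univ.filter (fun v => ∃ e ∈ c.EK K, v ∈ e.1) = c.VK K := by
    refine eq_of_subset_of_card_le ?_ ?_
    · intro v hv
      obtain ⟨-, e, he, hve⟩ := mem_filter.1 hv
      exact c.mem_VK.2 (c.mem_EK_iff.1 he v hve)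
    · rw [hv5]
      exact c.ev_five (hsubM K) hne hev
  -- every vertex of `K` has two neighbours in `L`
  have hr2 : ∀ v ∈ c.VK K, 2 ≤ c.r L v := by
    intro v hv
    have hvK := c.mem_VK.1 hv
    rw [← htouch] at hv
    obtain ⟨-, e, he, hve⟩ := mem_filter.1 hv
    obtain ⟨M, hM, hM2⟩ := hc v ⟨c.EK K, hsubM K, hev, e, he, hve⟩
    rw [hvK] at hM
    have hM3 : 2 ≤ (c.NL M v).card := hM2
    obtain ⟨u, hu⟩ : (c.NL M v).Nonempty := by
      rw [← card_pos]
      omega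
    rcases (hnb M).1 (c.leaf_nb hvK hM hu) with h | h
    · rw [← h]; exact hM2
    · rw [h] at hM3
      have h3 := c.leaf_r_tree hR1 hR0 v
      omega
  have htau : c.tau K L = 5 := by
    have h1 := c.leaf_tau_sum K
    rw [hR, sum_pair (Ne.symm hRL), hm5] at h1
    have h3 := c.tau_five h2 hKL
    have h4 := c.tau_five h2 hKR
    omega
  have hKLne : K ≠ L := hKL.1
  have hDD : (c.DD K L).card = 10 := by
    rw [c.DD_card hKLne, htau, hf3 L hKL hL2]
  have hr : ∀ v ∈ c.VK K, c.r L v = 2 := by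
    have h1 := c.sum_r hKLne
    rw [hDD] at h1
    have h3 : ∑ v ∈ c.VK K, 2 = 10 := by
      rw [sum_const, hv5]
      rfl
    have h4 : ∑ v ∈ c.VK K, 2 = ∑ v ∈ c.VK K, c.r L v := h3.trans h1.symm
    exact fun v hv => ((Finset.sum_eq_sum_iff_of_le hr2).1 h4 v hv).symm
  -- the edge with an end in `SS`
  have hLK : c.Nb L K := c.Nb_symm hKL
  have hASL := c.AS_five hL2 hLK
  have hASsub : c.AS L K ⊆ Mo D c.x := (filter_subset _ _).trans (hsubM L)
  obtain ⟨e, he, hz⟩ := hS _ hASsub hASL.1 (c.AS_ev hLK)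
  obtain ⟨heL, hap⟩ := c.mem_AS.1 he
  obtain ⟨t, ht, htK⟩ : ∃ t : TF T, e.1 ⊆ t.1 ∧ c.cmp (c.apex t) = K := by
    by_cases h1 : c.cmp (c.apex (D.a1 e)) = K
    · exact ⟨D.a1 e, sub_a1 D e, h1⟩
    · by_cases h3 : c.cmp (c.apex (D.b1 e)) = K
      · exact ⟨D.b1 e, sub_b1 D e, h3⟩
      · exact absurd (iff_of_false h1 h3) hap
  have hbase : c.base t = e := c.base_eq (hsubM L heL) ht
  obtain ⟨z, hzS, hzN⟩ : ∃ z ∈ SS, z ∈ c.NL L (c.apex t) := by
    obtain ⟨⟨e1, he1, -⟩, ⟨e2, he2, -⟩⟩ := c.apex_edges t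
    rw [hbase] at he1 he2
    rcases hz with hz | hz
    · exact ⟨D.a0 e, hz, c.mem_NL.2
        ⟨c.mem_EK_iff.1 heL _ ((mem_edge D).2 (Or.inl rfl)), e1, he1⟩⟩
    · exact ⟨D.b0 e, hz, c.mem_NL.2
        ⟨c.mem_EK_iff.1 heL _ ((mem_edge D).2 (Or.inr rfl)), e2, he2⟩⟩
  refine ⟨c.apex t, htK, fun M hM => ?_⟩
  rw [htK] at hM
  by_cases hML : M = L
  · rw [hML]
    have h1 : (c.NL L (c.apex t)).card = 2 := hr _ (c.mem_VK.2 htK)
    have h3 : c.NL L (c.apex t) \ SS ⊆ (c.NL L (c.apex t)).erase z := by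
      intro u hu
      rw [mem_sdiff] at hu
      exact mem_erase.2 ⟨fun h => hu.2 (h ▸ hzS), hu.1⟩
    have h4 := card_le_card h3
    rw [card_erase_of_mem hzN, h1] at h4
    exact h4
  · by_cases hMR : M = R
    · rw [hMR]
      exact (card_le_card sdiff_subset).trans (c.leaf_r_tree hR1 hR0 _)
    · have h0 : c.NL M (c.apex t) = ∅ := by
        rw [eq_empty_iff_forall_notMem]
        intro u hu
        rcases (hnb M).1 (c.leaf_nb htK hM hu) with h | h
        · exact hML h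
        · exact hMR h
      rw [h0, empty_sdiff, card_empty]
      exact Nat.zero_le _

/-- Proof: (10) of the paper. `Σ_M tau L M = 2 |EK L| = 5 deg L`, and all `tau L M` for neighbours
`M` of `L` are at least `5` (`tau_five`, `tau_nb`), so all are equal to `5`. For a nontree neighbour
`K`: `tau K L = 5` by `Fine`. So `Σ_{v ∈ VN L K} r K v = |DD L K| = 10`, `|VN L K| ≥ 5`, so at most
two `v ∈ VK L` have `r K v ≥ 3`. There are two such `K`, so at most four bad vertices, and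
`|VK L| ≥ |VN L K| ≥ 5`. For a tree neighbour `R`: `|VK R| = |EK R| + 1 = 1` (`deg_eq`). -/
theorem host_vertex {L : c.Q} (h2 : 2 ≤ c.deg L) (hf : c.Fine L) (hs : c.s L = 2) :
    ∃ u, c.cmp u = L ∧ (∀ K, c.Nb L K → 2 ≤ c.deg K → c.r K u ≤ 2) ∧
      ∀ R, c.Nb L R → c.deg R = 1 → c.r R u ≤ 1 := by
  classical
  obtain ⟨hf1, hf2, hf3⟩ := hf
  -- all `tau L M` are five
  have htau : ∀ M, c.Nb L M → c.tau L M = 5 := by
    have h1 := c.leaf_tau_sum L
    have h3 : ∑ M ∈ univ.filter (fun M => c.Nb L M), 5 = 2 * (c.EK L).card := by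
      rw [sum_const, hf1, smul_eq_mul, mul_comm]
      rfl
    have h4 : ∀ M ∈ univ.filter (fun M => c.Nb L M), 5 ≤ c.tau L M := fun M hM =>
      c.tau_five h2 (mem_filter.1 hM).2
    have h5 := (Finset.sum_eq_sum_iff_of_le h4).1 (h3.trans h1.symm)
    exact fun M hM => (h5 M (mem_filter.2 ⟨mem_univ _, hM⟩)).symm
  -- bad vertices
  have hbad : ∀ K, c.Nb L K → 2 ≤ c.deg K →
      ((c.VN L K).filter (fun v => 3 ≤ c.r K v)).card ≤ 2 := by
    intro K hK hK2
    have h1 := c.sum_r_VN hK.1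
    rw [c.DD_card hK.1, htau K hK, hf3 K hK hK2] at h1
    have h3 := c.VN_five h2 hK
    have h4 : ∑ v ∈ c.VN L K, (1 + 2 * (if 3 ≤ c.r K v then 1 else 0)) ≤
        ∑ v ∈ c.VN L K, c.r K v := by
      refine Finset.sum_le_sum fun v hv => ?_
      by_cases h : 3 ≤ c.r K v
      · rw [if_pos h]; omega
      · rw [if_neg h]
        have h5 : 0 < (c.NL K v).card := card_pos.2 (c.mem_VN.1 hv).2
        have h6 : c.r K v = (c.NL K v).card := rfl
        omega
    rw [sum_add_distrib, ← mul_sum, ← card_filter, h1, sum_const, smul_eq_mul, mul_one] at h4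
    omega
  have hs' : (univ.filter (fun K => c.Nb L K ∧ 2 ≤ c.deg K)).card = 2 := hs
  set B : Finset V := (univ.filter (fun K => c.Nb L K ∧ 2 ≤ c.deg K)).biUnion
    (fun K => (c.VN L K).filter (fun v => 3 ≤ c.r K v)) with hB
  have hB4 : B.card ≤ 4 := by
    have h1 := Finset.card_biUnion_le_card_mul (univ.filter (fun K => c.Nb L K ∧ 2 ≤ c.deg K))
      (fun K => (c.VN L K).filter (fun v => 3 ≤ c.r K v)) 2
      (fun K hK => hbad K (mem_filter.1 hK).2.1 (mem_filter.1 hK).2.2)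
    rw [hs'] at h1
    exact h1
  have hV : 5 ≤ (c.VK L).card := by
    obtain ⟨K, hK⟩ : (univ.filter (fun K => c.Nb L K ∧ 2 ≤ c.deg K)).Nonempty := by
      rw [← card_pos]; omega
    exact (c.VN_five h2 (mem_filter.1 hK).2.1).trans (card_le_card (filter_subset _ _))
  obtain ⟨u, hu, huB⟩ : ∃ u ∈ c.VK L, u ∉ B := by
    by_contra hh
    push Not at hh
    have := card_le_card (show c.VK L ⊆ B from hh)
    omega
  refine ⟨u, c.mem_VK.1 hu, fun K hK hK2 => ?_, fun R hR hR1 => ?_⟩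
  · by_contra hh
    apply huB
    rw [hB, mem_biUnion]
    refine ⟨K, mem_filter.2 ⟨mem_univ _, hK, hK2⟩, mem_filter.2 ⟨?_, by omega⟩⟩
    rw [mem_VN]
    refine ⟨c.mem_VK.1 hu, ?_⟩
    rw [← card_pos]
    have h6 : c.r K u = (c.NL K u).card := rfl
    omega
  · exact c.leaf_r_tree hR1 (hf2 R hR hR1) u

end Cfg

end Pool.Agent.helper54.AB
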