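import Mathlib
import Pool.Agent.helper54.AB.Defs

/-! [AB-A3] The derivation argument. -/

namespace Pool.Agent.helper54.AB

open Finset Pool.Agent.helper60.ECD

variable {V E : Type} [Fintype V] [Fintype E] [DecidableEq V] [DecidableEq E]

private abbrev RR (V E : Type) : Type := MvPolynomial (V × E × E) ℚ

private theorem am_inj : Function.Injective (algebraMap (RR V E) (KK V E)) :=
  IsFractionRing.injective (RR V E) (KK V E)

/-- the derivation maps flows with polynomial values to flows -/
private theorem deriv_flow (a b : E → V) (H : Finset E) (i : V × E × E) (p : E → RR V E)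
    (hp : (fun e => algebraMap (RR V E) (KK V E) (p e)) ∈ Fl (KK V E) a b H) :
    (fun e => algebraMap (RR V E) (KK V E) (MvPolynomial.pderiv i (p e))) ∈ Fl (KK V E) a b H := by
  obtain ⟨h1, h2⟩ := hp
  refine ⟨fun e he => ?_, fun v => ?_⟩
  · have h3 : p e = 0 := by
      have h4 := h1 e he
      exact am_inj (by simpa using h4)
    simp [h3]
  · have h5 : ∑ e, ((if a e = v then p e else 0) - (if b e = v then p e else 0)) = 0 := by
      apply am_inj (V := V) (E := E)
      rw [map_sum, map_zero]
      refine Eq.trans (Finset.sum_congr rfl fun e _ => ?_) (h2 v)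
      by_cases ha : a e = v <;> by_cases hb : b e = v <;> simp [ha, hb]
    have h6 := congrArg (MvPolynomial.pderiv i) h5
    rw [map_sum, map_zero] at h6
    have h7 := congrArg (algebraMap (RR V E) (KK V E)) h6
    rw [map_sum, map_zero] at h7
    refine Eq.trans (Finset.sum_congr rfl fun e _ => ?_) h7
    by_cases ha : a e = v <;> by_cases hb : b e = v <;> simp [ha, hb]

private theorem poly_case (a b : E → V) (H : Finset E) (p q : E → RR V E)
    (hz : (fun e => algebraMap (RR V E) (KK V E) (p e)) ∈ Rad (Om a b) (Fl (KK V E) a b H))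
    (hw : (fun e => algebraMap (RR V E) (KK V E) (q e)) ∈ Rad (Om a b) (Fl (KK V E) a b H))
    {v : V} {e f : E} (he : e ∈ starS a b v) (hf : f ∈ starS a b v) :
    p e * q f = p f * q e := by
  obtain ⟨hz1, hz2⟩ := hz
  obtain ⟨hw1, hw2⟩ := hw
  set D : RR V E → RR V E := fun r => MvPolynomial.pderiv (v, e, f) r with hD
  -- the identity in the polynomial ring
  have h1 : ∑ x : V, ∑ e' ∈ starS a b x, ∑ f' ∈ starS a b x,
      MvPolynomial.X (x, e', f') * (p e' * q f' - p f' * q e') = (0 : RR V E) := by
    apply am_inj (V := V) (E := E)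
    rw [map_zero]
    have h2 := hz2 _ hw1
    rw [Om_apply] at h2
    rw [← h2]
    simp only [map_sum, map_mul, map_sub, tt]
  have h3 := congrArg (MvPolynomial.pderiv (v, e, f)) h1
  rw [map_zero] at h3
  have h4 : ∀ (x : V) (e' f' : E), MvPolynomial.pderiv (v, e, f)
      ((MvPolynomial.X (x, e', f') : RR V E) * (p e' * q f' - p f' * q e')) =
      (if (x, e', f') = (v, e, f) then (p e' * q f' - p f' * q e') else 0) +
      ((MvPolynomial.X (x, e', f') : RR V E) *
        (MvPolynomial.pderiv (v, e, f) (p e') * q f' -
          MvPolynomial.pderiv (v, e, f) (p f') * q e') +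
      (MvPolynomial.X (x, e', f') : RR V E) *
        (p e' * MvPolynomial.pderiv (v, e, f) (q f') -
          p f' * MvPolynomial.pderiv (v, e, f) (q e'))) := by
    intro x e' f'
    have h5 : MvPolynomial.pderiv (v, e, f) (MvPolynomial.X (x, e', f') : RR V E) =
        if (x, e', f') = (v, e, f) then 1 else 0 := by
      rw [MvPolynomial.pderiv_X, Pi.single_apply]
    rw [Derivation.leibniz, map_sub, Derivation.leibniz, Derivation.leibniz, h5]
    simp only [smul_eq_mul]
    split_ifs <;> ring
  simp only [map_sum, h4, Finset.sum_add_distrib] at h3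
  have h6 : ∑ x : V, ∑ e' ∈ starS a b x, ∑ f' ∈ starS a b x,
      (if (x, e', f') = (v, e, f) then (p e' * q f' - p f' * q e') else (0 : RR V E)) =
      p e * q f - p f * q e := by
    rw [Finset.sum_eq_single v]
    · rw [Finset.sum_eq_single e]
      · rw [Finset.sum_eq_single f]
        · simp
        · intro f' _ hne
          rw [if_neg]
          intro h
          exact hne (by simpa using h)
        · intro h
          exact absurd hf h
      · intro e' _ hne
        refine Finset.sum_eq_zero fun f' _ => ?_
        rw [if_neg]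
        intro h
        exact hne (by simpa using (Prod.mk.inj (Prod.mk.inj h).2).1)
      · intro h
        exact absurd he h
    · intro x _ hne
      refine Finset.sum_eq_zero fun e' _ => Finset.sum_eq_zero fun f' _ => ?_
      rw [if_neg]
      intro h
      exact hne (Prod.mk.inj h).1
    · intro h
      exact absurd (Finset.mem_univ v) h
  rw [h6] at h3
  -- the two other sums vanish
  have hp' := deriv_flow a b H (v, e, f) p hz1
  have hq' := deriv_flow a b H (v, e, f) q hw1
  have h7 : ∑ x : V, ∑ e' ∈ starS a b x, ∑ f' ∈ starS a b x,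
      (MvPolynomial.X (x, e', f') : RR V E) *
        (MvPolynomial.pderiv (v, e, f) (p e') * q f' -
          MvPolynomial.pderiv (v, e, f) (p f') * q e') = 0 := by
    apply am_inj (V := V) (E := E)
    rw [map_zero]
    have h8 := hw2 _ hp'
    have h9 := LinearMap.BilinForm.IsAlt.neg_eq (Om_alt a b) (fun e' => algebraMap (RR V E) (KK V E) (q e'))
      (fun e' => algebraMap (RR V E) (KK V E) (MvPolynomial.pderiv (v, e, f) (p e')))
    rw [h8, neg_zero, Om_apply] at h9
    rw [h9]
    simp only [map_sum, map_mul, map_sub, tt]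
  have h10 : ∑ x : V, ∑ e' ∈ starS a b x, ∑ f' ∈ starS a b x,
      (MvPolynomial.X (x, e', f') : RR V E) *
        (p e' * MvPolynomial.pderiv (v, e, f) (q f') -
          p f' * MvPolynomial.pderiv (v, e, f) (q e')) = 0 := by
    apply am_inj (V := V) (E := E)
    rw [map_zero]
    have h8 := hz2 _ hq'
    rw [Om_apply] at h8
    rw [← h8]
    simp only [map_sum, map_mul, map_sub, tt]
  rw [h7, h10, add_zero, add_zero] at h3
  exact sub_eq_zero.1 h3

/-- Two elements `z, w` of the radical of the generic form on the flow space of `H` have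
proportional values on the edges at a vertex `v`.

Proof. Write `R = MvPolynomial (V × E × E) ℚ`, `K = FractionRing R`. Multiplying `z` and `w` by
nonzero elements of `R` (common denominators, `IsLocalization.exist_integer_multiples_of_finset` or
`IsLocalization.exist_integer_multiples_of_finite`) we may assume that `z e = algebraMap (p e)`,
`w e = algebraMap (q e)` with `p q : E → R`; the claim is homogeneous in `z` and in `w`, and
`Rad` is a subspace. `e = f` is trivial, let `e ≠ f`. `Om a b z w = 0` becomes (injectivity of
`algebraMap`) the identity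
`Σ_x Σ_{e', f' ∈ star x} X (x, e', f') * (p e' * q f' - p f' * q e') = 0` in `R`.
Apply the derivation `∂ = MvPolynomial.pderiv (v, e, f)`: it gives
`(p e * q f - p f * q e) + Ω(∂ p, q) + Ω(p, ∂ q) = 0`, where `∂ p = fun e' => ∂ (p e')`. The
flow equations have coefficients `0, 1, -1`, so `∂ p` and `∂ q` (mapped to `K`) are again in
`Fl K a b H`. As `w ∈ Rad`, `Ω(∂ p, w) = - Ω(w, ∂ p) = 0` (`Om_alt`), and `Ω(z, ∂ q) = 0`. -/
theorem rad_parallel (a b : E → V) (H : Finset E) {z w : E → KK V E}
    (hz : z ∈ Rad (Om a b) (Fl (KK V E) a b H)) (hw : w ∈ Rad (Om a b) (Fl (KK V E) a b H))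
    {v : V} {e f : E} (he : e ∈ starS a b v) (hf : f ∈ starS a b v) :
    z e * w f = z f * w e := by
  obtain ⟨c, hc⟩ := IsLocalization.exist_integer_multiples_of_finite
    (nonZeroDivisors (RR V E)) z
  obtain ⟨d, hd⟩ := IsLocalization.exist_integer_multiples_of_finite
    (nonZeroDivisors (RR V E)) w
  choose p hp using hc
  choose q hq using hd
  have hc0 : algebraMap (RR V E) (KK V E) (c : RR V E) ≠ 0 := by
    intro h
    exact nonZeroDivisors.coe_ne_zero c (am_inj (by rw [h, map_zero]))
  have hd0 : algebraMap (RR V E) (KK V E) (d : RR V E) ≠ 0 := by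
    intro h
    exact nonZeroDivisors.coe_ne_zero d (am_inj (by rw [h, map_zero]))
  have hpz : (fun e => algebraMap (RR V E) (KK V E) (p e)) =
      algebraMap (RR V E) (KK V E) (c : RR V E) • z := by
    funext e
    rw [hp e, Pi.smul_apply, Algebra.smul_def, smul_eq_mul]
  have hqw : (fun e => algebraMap (RR V E) (KK V E) (q e)) =
      algebraMap (RR V E) (KK V E) (d : RR V E) • w := by
    funext e
    rw [hq e, Pi.smul_apply, Algebra.smul_def, smul_eq_mul]
  have h1 := poly_case a b H p q
    (by rw [hpz]; exact Submodule.smul_mem _ _ hz)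
    (by rw [hqw]; exact Submodule.smul_mem _ _ hw) he hf
  have h2 := congrArg (algebraMap (RR V E) (KK V E)) h1
  rw [map_mul, map_mul, hp, hp, hq, hq] at h2
  simp only [Algebra.smul_def] at h2
  have h3 : (algebraMap (RR V E) (KK V E) (c : RR V E) *
      algebraMap (RR V E) (KK V E) (d : RR V E)) * (z e * w f) =
      (algebraMap (RR V E) (KK V E) (c : RR V E) *
      algebraMap (RR V E) (KK V E) (d : RR V E)) * (z f * w e) := by
    linear_combination h2
  exact mul_left_cancel₀ (mul_ne_zero hc0 hd0) h3

end Pool.Agent.helper54.AB
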