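import Mathlib
import Pool.Agent.helper54.AB.Defs

/-! [AB-A2] Alternating forms: isotropic subspaces, radicals, and a trace argument. -/

namespace Pool.Agent.helper54.AB

open Finset

variable {K M : Type} [Field K] [AddCommGroup M] [Module K M] [FiniteDimensional K M]

/-- the map to the dual of `W` -/
noncomputable def toD (B : LinearMap.BilinForm K M) (W : Submodule K M) :
    W →ₗ[K] Module.Dual K W :=
  (W.subtype.dualMap ∘ₗ B) ∘ₗ W.subtype

omit [FiniteDimensional K M] in
theorem toD_apply (B : LinearMap.BilinForm K M) (W : Submodule K M) (z w : W) :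
    toD B W z w = B z w := rfl

omit [FiniteDimensional K M] in
theorem map_ker_toD (B : LinearMap.BilinForm K M) (W : Submodule K M) :
    (LinearMap.ker (toD B W)).map W.subtype = Rad B W := by
  ext z
  constructor
  · rintro ⟨y, hy, rfl⟩
    refine ⟨y.2, fun w hw => ?_⟩
    have := LinearMap.congr_fun (LinearMap.mem_ker.1 hy) ⟨w, hw⟩
    simpa [toD_apply] using this
  · rintro ⟨h1, h2⟩
    refine ⟨⟨z, h1⟩, ?_, rfl⟩
    refine LinearMap.mem_ker.2 (LinearMap.ext fun w => ?_)
    exact h2 w w.2

theorem finrank_ker_toD (B : LinearMap.BilinForm K M) (W : Submodule K M) :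
    Module.finrank K (LinearMap.ker (toD B W)) = Module.finrank K (Rad B W) := by
  rw [← map_ker_toD B W]
  exact (LinearEquiv.finrank_eq (Submodule.equivMapOfInjective W.subtype
    (Submodule.injective_subtype W) _))

theorem range_toD (B : LinearMap.BilinForm K M) (hB : B.IsAlt) (W : Submodule K M) :
    LinearMap.range (toD B W) = (LinearMap.ker (toD B W)).dualAnnihilator := by
  have h1 : LinearMap.range (toD B W) ≤ (LinearMap.ker (toD B W)).dualAnnihilator := by
    rintro _ ⟨z, rfl⟩
    rw [Submodule.mem_dualAnnihilator]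
    intro w hw
    have h2 := LinearMap.congr_fun (LinearMap.mem_ker.1 hw) z
    rw [toD_apply] at h2 ⊢
    rw [← hB.neg_eq, h2]
    simp
  refine Submodule.eq_of_le_of_finrank_eq h1 ?_
  have h3 := LinearMap.finrank_range_add_finrank_ker (toD B W)
  have h4 := Subspace.finrank_add_finrank_dualAnnihilator_eq (LinearMap.ker (toD B W))
  omega

theorem exists_rep (B : LinearMap.BilinForm K M) (hB : B.IsAlt) (W : Submodule K M)
    (φ : M →ₗ[K] K) (hφ : ∀ z ∈ Rad B W, φ z = 0) : ∃ i ∈ W, ∀ w ∈ W, B i w = φ w := by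
  have h : φ ∘ₗ W.subtype ∈ LinearMap.range (toD B W) := by
    rw [range_toD B hB W, Submodule.mem_dualAnnihilator]
    intro w hw
    exact hφ w (by rw [← map_ker_toD B W]; exact ⟨w, hw, rfl⟩)
  obtain ⟨i, hi⟩ := h
  exact ⟨i, i.2, fun w hw => LinearMap.congr_fun hi ⟨w, hw⟩⟩

theorem iso_le (B : LinearMap.BilinForm K M) (hB : B.IsAlt) {W I : Submodule K M} (hI : I ≤ W)
    (h : Iso B I) :
    2 * Module.finrank K I ≤ Module.finrank K W + Module.finrank K (Rad B W) := by
  -- `I' = I.comap W.subtype`; `toD` maps `I'` to its annihilator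
  set I' : Submodule K W := I.comap W.subtype with hI'
  have e1 : Module.finrank K I' = Module.finrank K I :=
    (Submodule.comapSubtypeEquivOfLe hI).finrank_eq
  have h1 : I'.map (toD B W) ≤ I'.dualAnnihilator := by
    rintro _ ⟨z, hz, rfl⟩
    rw [Submodule.mem_dualAnnihilator]
    intro w hw
    exact h z hz w hw
  have h2 := Submodule.finrank_mono h1
  have h3 := Subspace.finrank_add_finrank_dualAnnihilator_eq I'
  have h4 : Module.finrank K I' ≤ Module.finrank K (I'.map (toD B W)) +
      Module.finrank K (LinearMap.ker (toD B W)) := by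
    have h5 := LinearMap.finrank_range_add_finrank_ker ((toD B W).domRestrict I')
    have h6 : LinearMap.range ((toD B W).domRestrict I') = I'.map (toD B W) := by
      rw [LinearMap.range_domRestrict]
    have h7 : Module.finrank K (LinearMap.ker ((toD B W).domRestrict I')) ≤
        Module.finrank K (LinearMap.ker (toD B W)) := by
      rw [LinearMap.ker_domRestrict]
      refine LinearMap.finrank_le_finrank_of_injective (f := LinearMap.restrict I'.subtype
        (p := (LinearMap.ker (toD B W)).comap I'.subtype) (q := LinearMap.ker (toD B W))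
        (fun x hx => hx)) ?_
      intro x y hxy
      have h8 := congrArg (fun z : LinearMap.ker (toD B W) => (z : W)) hxy
      exact Subtype.ext (Subtype.ext h8)
    rw [h6] at h5
    omega
  rw [finrank_ker_toD] at h4
  omega

omit [FiniteDimensional K M] in
theorem rad_mono (B : LinearMap.BilinForm K M) {W W' : Submodule K M} (h : Rad B W ≤ W')
    (h' : W' ≤ W) : Rad B W ≤ Rad B W' := fun _ hz => ⟨h hz, fun w hw => hz.2 w (h' hw)⟩

theorem dead_le (B : LinearMap.BilinForm K M) (hB : B.IsAlt) (W : Submodule K M)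
    (φ : M →ₗ[K] K) (hφ : ∀ z ∈ Rad B W, φ z = 0) :
    Module.finrank K W + Module.finrank K (Rad B W) ≤
      Module.finrank K (W ⊓ LinearMap.ker φ : Submodule K M) +
        Module.finrank K (Rad B (W ⊓ LinearMap.ker φ)) := by
  by_cases h0 : ∀ w ∈ W, φ w = 0
  · have h1 : W ⊓ LinearMap.ker φ = W := inf_eq_left.2 fun w hw => LinearMap.mem_ker.2 (h0 w hw)
    rw [h1]
  · push Not at h0
    obtain ⟨w0, hw0, hw1⟩ := h0
    obtain ⟨i, hi, hi2⟩ := exists_rep B hB W φ hφ
    have hii : φ i = 0 := by rw [← hi2 i hi]; exact hB i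
    have h1 : Rad B W ≤ Rad B (W ⊓ LinearMap.ker φ) :=
      rad_mono B (fun z hz => ⟨hz.1, LinearMap.mem_ker.2 (hφ z hz)⟩) inf_le_left
    have h2 : i ∈ Rad B (W ⊓ LinearMap.ker φ) := by
      refine ⟨⟨hi, LinearMap.mem_ker.2 hii⟩, fun w hw => ?_⟩
      rw [hi2 w hw.1]
      exact LinearMap.mem_ker.1 hw.2
    have h3 : i ∉ Rad B W := fun h => hw1 (by rw [← hi2 w0 hw0]; exact h.2 w0 hw0)
    have h4 : Rad B W < Rad B (W ⊓ LinearMap.ker φ) :=
      lt_of_le_of_ne h1 (fun h => h3 (by rw [h]; exact h2))
    have h5 := Submodule.finrank_lt_finrank_of_lt h4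
    have h6 : Module.finrank K W ≤ Module.finrank K (W ⊓ LinearMap.ker φ : Submodule K M) + 1 := by
      have h7 := LinearMap.finrank_range_add_finrank_ker (φ.domRestrict W)
      have h8 : Module.finrank K (LinearMap.range (φ.domRestrict W)) ≤ 1 := by
        refine (Submodule.finrank_le _).trans ?_
        rw [Module.finrank_self]
      have h9 : Module.finrank K (LinearMap.ker (φ.domRestrict W)) =
          Module.finrank K (W ⊓ LinearMap.ker φ : Submodule K M) := by
        rw [LinearMap.ker_domRestrict]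
        have h10 : (LinearMap.ker φ).comap W.subtype = (W ⊓ LinearMap.ker φ).comap W.subtype := by
          ext z; simp
        rw [h10]
        exact (Submodule.comapSubtypeEquivOfLe inf_le_left).finrank_eq
      omega
    omega

theorem max_iso (B : LinearMap.BilinForm K M) (hB : B.IsAlt) {W I : Submodule K M} (hI : I ≤ W)
    (h : Iso B I) (hmax : ∀ J ≤ W, Iso B J → Module.finrank K J ≤ Module.finrank K I) {z : M}
    (hz : z ∈ W) (hz' : ∀ w ∈ I, B z w = 0) : z ∈ I := by
  have h1 : I ⊔ Submodule.span K {z} ≤ W :=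
    sup_le hI ((Submodule.span_singleton_le_iff_mem z W).2 hz)
  have h2 : Iso B (I ⊔ Submodule.span K {z}) := by
    intro u hu v hv
    obtain ⟨a, ha, b, hb, rfl⟩ := Submodule.mem_sup.1 hu
    obtain ⟨c, hc, d, hd, rfl⟩ := Submodule.mem_sup.1 hv
    obtain ⟨s, rfl⟩ := Submodule.mem_span_singleton.1 hb
    obtain ⟨t, rfl⟩ := Submodule.mem_span_singleton.1 hd
    have h3 : B a z = 0 := by rw [← hB.neg_eq, hz' a ha, neg_zero]
    simp [h a ha c hc, hz' c hc, h3, hB.self_eq_zero z]
  have h4 := hmax _ h1 h2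
  have h5 : I = I ⊔ Submodule.span K {z} :=
    Submodule.eq_of_le_of_finrank_le le_sup_left h4
  rw [h5]
  exact Submodule.mem_sup_right (Submodule.mem_span_singleton_self z)

/-- the trace of `z ↦ φ z • v` -/
theorem trace_smulRight (φ : M →ₗ[K] K) (v : M) :
    LinearMap.trace K M (φ.smulRight v) = φ v := by
  have h : φ.smulRight v = dualTensorHom K M M (φ ⊗ₜ[K] v) := by
    ext z; simp
  rw [h, LinearMap.trace_eq_contract_apply, contractLeft_apply]

theorem lagr {V E : Type} [Fintype V] [Fintype E] [CharZero K] (st : V → Finset E)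
    (hst : ∀ e, ∃ x, e ∈ st x) (t : V → E → E → K) (B : LinearMap.BilinForm K (E → K))
    (hB : B.IsAlt)
    (hBt : ∀ z w, B z w = ∑ x, ∑ e ∈ st x, ∑ f ∈ st x, t x e f * (z e * w f - z f * w e))
    (W : Submodule K (E → K)) (I : V → Submodule K (E → K)) (hI : ∀ x, I x ≤ W)
    (hiso : ∀ x, Iso B (I x))
    (hmax : ∀ x, ∀ J ≤ W, Iso B J → Module.finrank K J ≤ Module.finrank K (I x))
    (h0 : ∀ x, ∀ z ∈ I x, ∀ e ∈ st x, z e = 0) : W = ⊥ := by
  have hR : Rad B W = ⊥ := by
    rw [eq_bot_iff]
    intro z hz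
    rw [Submodule.mem_bot]
    funext e
    obtain ⟨x, hx⟩ := hst e
    have h1 : z ∈ I x := max_iso B hB (hI x) (hiso x) (hmax x) hz.1
      (fun w hw => hz.2 w (hI x hw))
    exact h0 x z h1 e hx
  -- representing vectors
  have hrep : ∀ e : E, ∃ i ∈ W, ∀ w ∈ W, B i w = w e := by
    intro e
    obtain ⟨i, hi, hi2⟩ := exists_rep B hB W (LinearMap.proj e) (by
      intro z hz
      rw [hR, Submodule.mem_bot] at hz
      rw [hz]; simp)
    exact ⟨i, hi, fun w hw => hi2 w hw⟩
  choose i hi hi2 using hrep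
  have hif : ∀ x, ∀ e ∈ st x, ∀ f ∈ st x, i e f = 0 := by
    intro x e he f hf
    have h1 : i e ∈ I x := max_iso B hB (hI x) (hiso x) (hmax x) (hi e) (fun w hw => by
      rw [hi2 e w (hI x hw)]
      exact h0 x w hw e he)
    exact h0 x (i e) h1 f hf
  -- the operator
  let ev : E → (W →ₗ[K] K) := fun e => (LinearMap.proj e : (E → K) →ₗ[K] K) ∘ₗ W.subtype
  let iW : E → W := fun e => ⟨i e, hi e⟩
  let P : W →ₗ[K] W := ∑ x, ∑ e ∈ st x, ∑ f ∈ st x,
    t x e f • ((ev e).smulRight (iW f) - (ev f).smulRight (iW e))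
  have hP : P = LinearMap.id := by
    refine LinearMap.ext fun z => ?_
    have h1 : (z : E → K) - (P z : W) ∈ Rad B W := by
      refine ⟨W.sub_mem z.2 (P z).2, fun w hw => ?_⟩
      rw [map_sub, LinearMap.sub_apply, sub_eq_zero, hBt]
      have h2 : ((P z : W) : E → K) = ∑ x, ∑ e ∈ st x, ∑ f ∈ st x,
          t x e f • ((z : E → K) e • i f - (z : E → K) f • i e) := by
        simp [P, ev, iW]
      rw [h2]
      simp only [map_sum, LinearMap.sum_apply, map_smul, LinearMap.smul_apply, map_sub,
        LinearMap.sub_apply, smul_eq_mul]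
      refine Finset.sum_congr rfl fun x _ => Finset.sum_congr rfl fun e _ =>
        Finset.sum_congr rfl fun f _ => ?_
      rw [hi2 f w hw, hi2 e w hw]
    rw [hR, Submodule.mem_bot, sub_eq_zero] at h1
    exact Subtype.ext h1.symm
  have htr : LinearMap.trace K W P = 0 := by
    have h1 : ∀ e f, ev e (iW f) = i f e := fun _ _ => rfl
    have h3 : ∀ e f, LinearMap.trace K W ((ev e).smulRight (iW f)) = i f e := fun e f =>
      (trace_smulRight (ev e) (iW f)).trans (h1 e f)
    simp only [P, map_sum]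
    refine Finset.sum_eq_zero fun x _ => Finset.sum_eq_zero fun e he =>
      Finset.sum_eq_zero fun f hf => ?_
    have h2 : LinearMap.trace K W (t x e f • ((ev e).smulRight (iW f) - (ev f).smulRight (iW e))) =
        t x e f * (i f e - i e f) := by
      refine (map_smul (LinearMap.trace K W) _ _).trans ?_
      rw [smul_eq_mul]
      refine congrArg _ ((map_sub (LinearMap.trace K W) _ _).trans ?_)
      rw [h3 e f, h3 f e]
    rw [h2, hif x e he f hf, hif x f hf e he]
    simp
  rw [hP, LinearMap.trace_id] at htr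
  have h3 : Module.finrank K W = 0 := by exact_mod_cast htr
  exact Submodule.finrank_eq_zero.1 h3

end Pool.Agent.helper54.AB
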