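import Mathlib
import Pool.Agent.helper54.AB.Dim
import Pool.Agent.helper54.AB.LinAlg

/-! [AB-A5] Two inequalities for `DD0 = dim Z(H) + dim Rad(H)`. -/

namespace Pool.Agent.helper54.AB

open Finset Pool.Agent.helper60.ECD

variable {V E : Type} [Fintype V] [Fintype E] [DecidableEq V] [DecidableEq E]

theorem split_Fl_mono (k : Type) [Field k] (a b : E → V) {H H' : Finset E} (h : H ⊆ H') :
    Fl k a b H ≤ Fl k a b H' := by
  rintro z ⟨h1, h2⟩
  exact ⟨fun e he => h1 e (fun hc => he (h hc)), h2⟩

theorem split_inf_ker (k : Type) [Field k] (a b : E → V) (H : Finset E) (e : E) :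
    Fl k a b H ⊓ LinearMap.ker (LinearMap.proj e : (E → k) →ₗ[k] k) = Fl k a b (H.erase e) := by
  ext z
  constructor
  · rintro ⟨⟨h1, h2⟩, h3⟩
    have h3' : z e = 0 := LinearMap.mem_ker.1 h3
    refine ⟨fun f hf => ?_, h2⟩
    by_cases hfe : f = e
    · rw [hfe]; exact h3'
    · exact h1 f (fun hc => hf (Finset.mem_erase.2 ⟨hfe, hc⟩))
  · intro hz
    refine ⟨split_Fl_mono k a b (Finset.erase_subset e H) hz, ?_⟩
    exact LinearMap.mem_ker.2 (hz.1 e (Finset.notMem_erase e H))

/-- Removing an edge `e` on which the radical vanishes. Proof: `dead_le` for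
`W = Fl (KK V E) a b H` and `φ z = z e` (`LinearMap.proj e`); `W ⊓ ker φ = Fl (KK V E) a b (H.erase
e)`. -/
theorem DD0_dead (a b : E → V) {H : Finset E} {e : E}
    (h : ∀ z ∈ Rad (Om a b) (Fl (KK V E) a b H), z e = 0) :
    DD0 a b H ≤ DD0 a b (H.erase e) := by
  have h1 := dead_le (Om a b) (Om_alt a b) (Fl (KK V E) a b H)
    (LinearMap.proj e : (E → KK V E) →ₗ[KK V E] KK V E) h
  rw [split_inf_ker] at h1
  exact h1

/-- restriction of a function on the edges to `P` -/
def splitR (k : Type) [Field k] (P : Finset E) (z : E → k) : E → k :=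
  fun e => if e ∈ P then z e else 0

omit [Fintype E] in
theorem splitR_in (k : Type) [Field k] {P : Finset E} {z : E → k} {e : E} (he : e ∈ P) :
    splitR k P z e = z e := by simp [splitR, he]

omit [Fintype E] in
theorem splitR_out (k : Type) [Field k] {P : Finset E} {z : E → k} {e : E} (he : e ∉ P) :
    splitR k P z e = 0 := by simp [splitR, he]

theorem splitR_mem (k : Type) [Field k] (a b : E → V) {P P' : Finset E}
    (hd : ∀ v, ∀ e ∈ P ∩ starS a b v, ∀ f ∈ P' ∩ starS a b v, False) {z : E → k}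
    (hz : z ∈ Fl k a b (P ∪ P')) : splitR k P z ∈ Fl k a b P := by
  refine ⟨fun e he => splitR_out k he, fun v => ?_⟩
  by_cases hv : ∃ e, e ∈ P ∩ starS a b v
  · obtain ⟨e0, he0⟩ := hv
    have key : ∀ e, e ∈ starS a b v → splitR k P z e = z e := by
      intro e he
      by_cases hP : e ∈ P
      · exact splitR_in k hP
      · rw [splitR_out k hP]
        refine (hz.1 e ?_).symm
        intro hc
        rcases Finset.mem_union.1 hc with h | h
        · exact hP h
        · exact hd v e0 he0 e (Finset.mem_inter.2 ⟨h, he⟩)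
    refine Eq.trans (Finset.sum_congr rfl fun e _ => ?_) (hz.2 v)
    have h1 : (if a e = v then splitR k P z e else 0) = (if a e = v then z e else 0) := by
      by_cases ha : a e = v
      · rw [if_pos ha, if_pos ha, key e (mem_starS.2 (Or.inl ha))]
      · rw [if_neg ha, if_neg ha]
    have h2 : (if b e = v then splitR k P z e else 0) = (if b e = v then z e else 0) := by
      by_cases hb : b e = v
      · rw [if_pos hb, if_pos hb, key e (mem_starS.2 (Or.inr hb))]
      · rw [if_neg hb, if_neg hb]
    rw [h1, h2]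
  · push Not at hv
    refine Finset.sum_eq_zero fun e _ => ?_
    have key : e ∈ starS a b v → splitR k P z e = 0 := by
      intro he
      exact splitR_out k (fun hP => hv e (Finset.mem_inter.2 ⟨hP, he⟩))
    have h1 : (if a e = v then splitR k P z e else 0) = 0 := by
      by_cases ha : a e = v
      · rw [if_pos ha, key (mem_starS.2 (Or.inl ha))]
      · rw [if_neg ha]
    have h2 : (if b e = v then splitR k P z e else 0) = 0 := by
      by_cases hb : b e = v
      · rw [if_pos hb, key (mem_starS.2 (Or.inr hb))]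
      · rw [if_neg hb]
    rw [h1, h2, sub_zero]

theorem splitR_add (k : Type) [Field k] (a b : E → V) {P P' : Finset E}
    (hd : ∀ v, ∀ e ∈ P ∩ starS a b v, ∀ f ∈ P' ∩ starS a b v, False) {z : E → k}
    (hz : z ∈ Fl k a b (P ∪ P')) : splitR k P z + splitR k P' z = z := by
  funext e
  rw [Pi.add_apply]
  by_cases hP : e ∈ P
  · have hP' : e ∉ P' := by
      intro hc
      have hs : e ∈ starS a b (a e) := mem_starS.2 (Or.inl rfl)
      exact hd (a e) e (Finset.mem_inter.2 ⟨hP, hs⟩) e (Finset.mem_inter.2 ⟨hc, hs⟩)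
    rw [splitR_in k hP, splitR_out k hP', add_zero]
  · by_cases hP' : e ∈ P'
    · rw [splitR_out k hP, splitR_in k hP', zero_add]
    · rw [splitR_out k hP, splitR_out k hP', zero_add]
      refine (hz.1 e ?_).symm
      intro hc
      rcases Finset.mem_union.1 hc with h | h
      · exact hP h
      · exact hP' h

theorem split_Om (a b : E → V) {P P' : Finset E}
    (hd : ∀ v, ∀ e ∈ P ∩ starS a b v, ∀ f ∈ P' ∩ starS a b v, False) {z w : E → KK V E}
    (hz : ∀ e ∉ P', z e = 0) (hw : ∀ e ∉ P, w e = 0) : Om a b z w = 0 := by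
  rw [Om_apply]
  refine Finset.sum_eq_zero fun x _ => Finset.sum_eq_zero fun e he =>
    Finset.sum_eq_zero fun f hf => ?_
  have key : ∀ e ∈ starS a b x, ∀ f ∈ starS a b x, z e * w f = 0 := by
    intro e he f hf
    by_cases h1 : e ∈ P'
    · by_cases h2 : f ∈ P
      · exact (hd x f (Finset.mem_inter.2 ⟨h2, hf⟩) e (Finset.mem_inter.2 ⟨h1, he⟩)).elim
      · rw [hw f h2, mul_zero]
    · rw [hz e h1, zero_mul]
  rw [key e he f hf, key f hf e he, sub_zero, mul_zero]

theorem split_Rad (a b : E → V) {P P' : Finset E}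
    (hd : ∀ v, ∀ e ∈ P ∩ starS a b v, ∀ f ∈ P' ∩ starS a b v, False) {z : E → KK V E}
    (hz : z ∈ Rad (Om a b) (Fl (KK V E) a b (P ∪ P'))) :
    splitR (KK V E) P z ∈ Rad (Om a b) (Fl (KK V E) a b P) := by
  refine ⟨splitR_mem _ a b hd hz.1, fun w hw => ?_⟩
  have h1 : Om a b z w = 0 := hz.2 w (split_Fl_mono _ a b Finset.subset_union_left hw)
  have h2 : Om a b (splitR (KK V E) P' z) w = 0 :=
    split_Om a b hd (fun e he => splitR_out _ he) hw.1
  have h3 := splitR_add (KK V E) a b hd hz.1
  have h4 : Om a b z w = Om a b (splitR (KK V E) P z) w + Om a b (splitR (KK V E) P' z) w := by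
    rw [← LinearMap.add_apply, ← map_add, h3]
  rw [h1, h2, add_zero] at h4
  exact h4.symm

/-- Two vertex-disjoint parts. Proof: the restriction map `z ↦ (z|P, z|P')` from
`Fl (P ∪ P')` to `Fl P × Fl P'` is well defined (at a vertex `v` at most one of `P`, `P'` has edges)
and injective. It maps `Rad (Fl (P ∪ P'))` to `Rad (Fl P) × Rad (Fl P')`: for `w ∈ Fl P ≤
Fl (P ∪ P')`: `Om (z|P) w = Om z w = 0`, because `Om (z|P') w = 0` (in every summand
`t (x, e, f) (z e * w f - z f * w e)` with `e, f` at the same vertex `x` one of the factors of each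
product is zero). Compare dimensions. -/
theorem DD0_split (a b : E → V) {P P' : Finset E}
    (hd : ∀ v, ∀ e ∈ P ∩ starS a b v, ∀ f ∈ P' ∩ starS a b v, False) :
    DD0 a b (P ∪ P') ≤ DD0 a b P + DD0 a b P' := by
  have hd' : ∀ v, ∀ e ∈ P' ∩ starS a b v, ∀ f ∈ P ∩ starS a b v, False :=
    fun v e he f hf => hd v f hf e he
  have h1 : Fl (KK V E) a b (P ∪ P') ≤ Fl (KK V E) a b P ⊔ Fl (KK V E) a b P' := by
    intro z hz
    rw [← splitR_add (KK V E) a b hd hz]
    refine Submodule.add_mem_sup (splitR_mem _ a b hd hz) ?_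
    exact splitR_mem _ a b hd' (by rwa [Finset.union_comm])
  have h2 : Rad (Om a b) (Fl (KK V E) a b (P ∪ P')) ≤
      Rad (Om a b) (Fl (KK V E) a b P) ⊔ Rad (Om a b) (Fl (KK V E) a b P') := by
    intro z hz
    rw [← splitR_add (KK V E) a b hd hz.1]
    refine Submodule.add_mem_sup (split_Rad a b hd hz) ?_
    exact split_Rad a b hd' (by rwa [Finset.union_comm])
  have h3 := (Submodule.finrank_mono h1).trans (Submodule.finrank_add_le_finrank_add_finrank _ _)
  have h4 := (Submodule.finrank_mono h2).trans (Submodule.finrank_add_le_finrank_add_finrank _ _)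
  unfold DD0
  omega

/-- Proof: `Fl P` and `Fl P'` are independent subspaces of `Fl (P ∪ P')` (disjoint supports), use
`finrank_Fl`. -/
theorem bet_split (a b : E → V) {P P' : Finset E} (hd : Disjoint P P') :
    bet a b P + bet a b P' ≤ bet a b (P ∪ P') := by
  rw [← finrank_Fl ℚ a b P, ← finrank_Fl ℚ a b P', ← finrank_Fl ℚ a b (P ∪ P')]
  have h1 : Fl ℚ a b P ⊓ Fl ℚ a b P' = ⊥ := by
    rw [eq_bot_iff]
    rintro z ⟨h2, h3⟩
    rw [Submodule.mem_bot]
    funext e
    by_cases he : e ∈ P
    · exact h3.1 e (Finset.disjoint_left.1 hd he)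
    · exact h2.1 e he
  have h2 := Submodule.finrank_sup_add_finrank_inf_eq (Fl ℚ a b P) (Fl ℚ a b P')
  rw [h1, finrank_bot, add_zero] at h2
  rw [← h2]
  exact Submodule.finrank_mono (sup_le (split_Fl_mono ℚ a b Finset.subset_union_left)
    (split_Fl_mono ℚ a b Finset.subset_union_right))

/-- bridges: if the radical (or everything) vanishes on `e` the rank does not change; not needed in
general: `bet (H.erase e) ≤ bet H`, and equality if all flows vanish on `e`. -/
theorem bet_erase_le (a b : E → V) (H : Finset E) (e : E) : bet a b (H.erase e) ≤ bet a b H :=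
  bet_mono a b (Finset.erase_subset e H)

end Pool.Agent.helper54.AB
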