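import Mathlib
import Pool.Agent.helper54.AB.Split
import Pool.Agent.helper54.AB.Deriv

/-! [AB-A6] The bound for `DD0`. -/

namespace Pool.Agent.helper54.AB

open Finset Pool.Agent.helper60.ECD

variable {V E : Type} [Fintype V] [Fintype E] [DecidableEq V] [DecidableEq E]

omit [Fintype V] [Fintype E] [DecidableEq V] [DecidableEq E] in
private theorem bd_trans {R : Submodule (KK V E) (E → KK V E)} {e f g : E}
    (hf : ∃ u ∈ R, u f ≠ 0)
    (h1 : ∀ z ∈ R, ∀ w ∈ R, z e * w f = z f * w e)
    (h2 : ∀ z ∈ R, ∀ w ∈ R, z f * w g = z g * w f) :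
    ∀ z ∈ R, ∀ w ∈ R, z e * w g = z g * w e := by
  intro z hz w hw
  obtain ⟨u, hu, hne⟩ := hf
  have a1 := h1 z hz u hu
  have a2 := h2 w hw u hu
  have a3 := h2 z hz u hu
  have a4 := h1 w hw u hu
  have key : (z e * w g - z g * w e) * (u f * u f) = 0 := by
    linear_combination (w g * u f) * a1 - (z f * u e) * a2 - (z g * u f) * a4 + (w f * u e) * a3
  rcases mul_eq_zero.1 key with h | h
  · exact sub_eq_zero.1 h
  · rcases mul_eq_zero.1 h with h | h <;> exact absurd h hne

private theorem bd_one {H : Finset E} {a b : E → V} {e : E}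
    {z0 : E → KK V E} (hz0 : z0 ∈ Rad (Om a b) (Fl (KK V E) a b H)) (hne : z0 e ≠ 0)
    (hpar : ∀ f ∈ H, ∀ z ∈ Rad (Om a b) (Fl (KK V E) a b H),
      ∀ w ∈ Rad (Om a b) (Fl (KK V E) a b H), z e * w f = z f * w e) :
    Module.finrank (KK V E) (Rad (Om a b) (Fl (KK V E) a b H)) ≤ 1 := by
  refine finrank_le_one (⟨z0, hz0⟩ : Rad (Om a b) (Fl (KK V E) a b H)) fun z => ?_
  refine ⟨z.1 e / z0 e, ?_⟩
  apply Subtype.ext
  funext f
  show (z.1 e / z0 e) * z0 f = z.1 f
  by_cases hf : f ∈ H
  · have h1 := hpar f hf z.1 z.2 z0 hz0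
    rw [div_mul_eq_mul_div, div_eq_iff hne]
    exact h1
  · have h2 : z0 f = 0 := hz0.1.1 f hf
    have h3 : z.1 f = 0 := z.2.1.1 f hf
    rw [h2, h3, mul_zero]

/-- Main estimate. Here `U` is any vertex set containing all ends of edges of `H`.

Proof by strong induction on `|H|`. Let `R = Rad (Om a b) (Fl (KK V E) a b H)`, and write
`D = DD0`, `β = bet a b H`.
Case 0: `H = ∅`: `Fl = ⊥`, `D = 0`.
Case 1: there is `e ∈ H` with `z e = 0` for all `z ∈ R`. Then `D(H) ≤ D(H.erase e)` (`DD0_dead`),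
and the induction hypothesis gives `5 D ≤ 2 (|H| - 1)` and
`7 D ≤ 2 |U| + 4 bet (H.erase e) ≤ 2 |U| + 4 β`.
Case 2: for every `e ∈ H` there is `z ∈ R` with `z e ≠ 0`. Call `e, f ∈ H` parallel if
`z e * w f = z f * w e` for all `z, w ∈ R`. Two edges of `H` with a common vertex are parallel
(`rad_parallel`). Being parallel is transitive on `H`: if `e ∥ f`, `f ∥ g` then take `u ∈ R` with
`u f ≠ 0`; `z e * u f = z f * u e`, etc.: `z e * w g * (u f)^2 = z f * u e * w f * u g` and
`z g * w e * (u f)^2 = z f * u g * w f * u e`.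
 Case 2a: not all edges of `H` are parallel to each other. Fix `e` for which not all edges are
 parallel to `e`, `P = {f ∈ H : f ∥ e}`, `P' = H \ P`. They are nonempty and have no common vertex.
 Use `DD0_split`, `bet_split`, the induction hypothesis for `P` with
 `U_P = {v ∈ U : some edge of P is at v}` and for `P'` with the rest `U \ U_P`.
 Case 2b: all edges of `H` are parallel. Then `finrank R = 1`: fix `e ∈ H`; `z ↦ z e` is injective
 on `R` (if `z e = 0` then for `f ∈ H`, `z f * w e = z e * w f = 0` with `w e ≠ 0`, and `z f = 0` for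
 `f ∉ H` by the definition of flows), so `finrank R ≤ 1`. `R ≠ 0` so `Fl ≠ 0` so `β ≥ 1`
 (`finrank_Fl`). `D ≤ β + 1`. By `hC`: `5 (β + 1) ≤ 2 |H|`, which is the first claim. Second
 claim: `|H| + 1 ≤ β + |U|` (`rank_le`), so `5 β + 5 ≤ 2 |H| ≤ 2 β + 2 |U| - 2`, i.e.
 `3 β + 7 ≤ 2 |U|`, so `7 D ≤ 7 β + 7 ≤ 2 |U| + 4 β`. -/
theorem DD0_bound {a b : E → V} {C : Finset E} (hC : Sparse a b C) :
    ∀ (H : Finset E), H ⊆ C → ∀ U : Finset V, (∀ e ∈ H, a e ∈ U ∧ b e ∈ U) →
      5 * DD0 a b H ≤ 2 * H.card ∧ 7 * DD0 a b H ≤ 2 * U.card + 4 * bet a b H := by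
  intro H
  induction H using Finset.strongInduction with
  | H H ih =>
  intro hHC U hU
  set R := Rad (Om a b) (Fl (KK V E) a b H) with hR
  by_cases h1 : ∃ e ∈ H, ∀ z ∈ R, z e = 0
  · obtain ⟨e, he, hz⟩ := h1
    have h2 : DD0 a b H ≤ DD0 a b (H.erase e) := DD0_dead a b hz
    have h3 := ih (H.erase e) (Finset.erase_ssubset he) ((Finset.erase_subset e H).trans hHC) U
      (fun f hf => hU f (Finset.mem_of_mem_erase hf))
    have h4 : (H.erase e).card ≤ H.card := Finset.card_le_card (Finset.erase_subset e H)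
    have h5 := bet_erase_le a b H e
    omega
  · have hnz : ∀ e ∈ H, ∃ z ∈ R, z e ≠ 0 := by
      intro e he
      by_contra hcon
      exact h1 ⟨e, he, fun z hz => by
        by_contra h0
        exact hcon ⟨z, hz, h0⟩⟩
    rcases H.eq_empty_or_nonempty with hemp | hne
    · have hF : Fl (KK V E) a b H = ⊥ := by
        rw [eq_bot_iff]
        intro z hz
        rw [Submodule.mem_bot]
        funext f
        exact hz.1 f (by rw [hemp]; exact Finset.notMem_empty f)
      have hRb : Rad (Om a b) (Fl (KK V E) a b H) = ⊥ := by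
        rw [eq_bot_iff]
        intro z hz
        have := hz.1
        rw [hF] at this
        exact this
      have h0 : DD0 a b H = 0 := by
        unfold DD0
        rw [hRb, hF, finrank_bot]
      omega
    · by_cases hall : ∀ e ∈ H, ∀ f ∈ H, ∀ z ∈ R, ∀ w ∈ R, z e * w f = z f * w e
      · obtain ⟨e, he⟩ := hne
        obtain ⟨z0, hz0, hz0e⟩ := hnz e he
        have h2 : Module.finrank (KK V E) (Rad (Om a b) (Fl (KK V E) a b H)) ≤ 1 :=
          bd_one hz0 hz0e (fun f hf => hall e he f hf)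
        have h3 : 1 ≤ Module.finrank (KK V E) (Fl (KK V E) a b H) := by
          rw [Nat.one_le_iff_ne_zero]
          intro h0
          rw [Submodule.finrank_eq_zero] at h0
          have : z0 ∈ Fl (KK V E) a b H := hz0.1
          rw [h0, Submodule.mem_bot] at this
          exact hz0e (by rw [this]; rfl)
        rw [finrank_Fl] at h3
        have h4 := hC H hHC h3
        have h5 := rank_le a b ⟨e, he⟩ hU
        have h6 : DD0 a b H ≤ bet a b H + 1 := by
          unfold DD0
          rw [finrank_Fl]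
          omega
        omega
      · push Not at hall
        obtain ⟨e, he, g, hg, z1, hz1, w1, hw1, hne1⟩ := hall
        classical
        let P : Finset E := H.filter (fun f => ∀ z ∈ R, ∀ w ∈ R, z e * w f = z f * w e)
        have hPH : P ⊆ H := Finset.filter_subset _ _
        have hPm : ∀ f, f ∈ P ↔ f ∈ H ∧ ∀ z ∈ R, ∀ w ∈ R, z e * w f = z f * w e := fun f => by
          simp only [P, Finset.mem_filter]
        have heP : e ∈ P := (hPm e).2 ⟨he, fun z _ w _ => rfl⟩
        have hgP : g ∉ P := fun h => hne1 (((hPm g).1 h).2 z1 hz1 w1 hw1)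
        have hd : ∀ v, ∀ e' ∈ P ∩ starS a b v, ∀ f' ∈ (H \ P) ∩ starS a b v, False := by
          intro v e' he' f' hf'
          rw [Finset.mem_inter] at he' hf'
          rw [Finset.mem_sdiff] at hf'
          refine hf'.1.2 ((hPm f').2 ⟨hf'.1.1, ?_⟩)
          exact bd_trans (hnz e' (hPH he'.1)) ((hPm e').1 he'.1).2
            (fun z hz w hw => rad_parallel a b H hz hw he'.2 hf'.2)
        have hun : P ∪ (H \ P) = H := Finset.union_sdiff_of_subset hPH
        have hD := DD0_split a b hd
        have hB := bet_split a b (Finset.disjoint_sdiff : Disjoint P (H \ P))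
        rw [hun] at hD hB
        have hs1 : P ⊂ H := ⟨hPH, fun h => hgP (h hg)⟩
        have hs2 : H \ P ⊂ H := ⟨Finset.sdiff_subset, fun h => (Finset.mem_sdiff.1 (h he)).2 heP⟩
        let UP : Finset V := U.filter (fun v => ∃ f ∈ P, a f = v ∨ b f = v)
        have i1 := ih P hs1 (hPH.trans hHC) UP (fun f hf => by
          have := hU f (hPH hf)
          exact ⟨Finset.mem_filter.2 ⟨this.1, f, hf, Or.inl rfl⟩,
            Finset.mem_filter.2 ⟨this.2, f, hf, Or.inr rfl⟩⟩)
        have hno : ∀ f ∈ H \ P, ∀ v, (a f = v ∨ b f = v) → v ∉ UP := by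
          intro f hf v hv hmem
          obtain ⟨-, f', hf', hf'v⟩ := Finset.mem_filter.1 hmem
          exact hd v f' (Finset.mem_inter.2 ⟨hf', mem_starS.2 hf'v⟩) f
            (Finset.mem_inter.2 ⟨hf, mem_starS.2 hv⟩)
        have i2 := ih (H \ P) hs2 (hs2.1.trans hHC) (U \ UP) (fun f hf => by
          have := hU f (hs2.1 hf)
          exact ⟨Finset.mem_sdiff.2 ⟨this.1, hno f hf _ (Or.inl rfl)⟩,
            Finset.mem_sdiff.2 ⟨this.2, hno f hf _ (Or.inr rfl)⟩⟩)
        have c1 : (H \ P).card + P.card = H.card := Finset.card_sdiff_add_card_eq_card hPH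
        have c2 : (U \ UP).card + UP.card = U.card :=
          Finset.card_sdiff_add_card_eq_card (Finset.filter_subset _ _)
        omega

end Pool.Agent.helper54.AB
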