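import Mathlib
import Pool.Agent.helper54.AB.Dim
import Pool.Agent.helper54.AB.LinAlg

/-! [AB-A4] Hitting sets from isotropic subspaces. -/

namespace Pool.Agent.helper54.AB

open Finset Pool.Agent.helper60.ECD

variable {V E : Type} [Fintype V] [Fintype E] [DecidableEq V] [DecidableEq E]

omit [Fintype V] [DecidableEq E] in
private theorem Fl_mono {k : Type} [Field k] {a b : E → V} {H H' : Finset E} (h : H ⊆ H') :
    Fl k a b H ≤ Fl k a b H' := by
  rintro z ⟨h1, h2⟩
  exact ⟨fun e he => h1 e (fun h' => he (h h')), h2⟩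

/-- an isotropic subspace of maximal dimension -/
private theorem exists_max_iso {K M : Type} [Field K] [AddCommGroup M] [Module K M]
    [FiniteDimensional K M] (B : LinearMap.BilinForm K M) (W : Submodule K M) :
    ∃ J ≤ W, Iso B J ∧ ∀ J' ≤ W, Iso B J' → Module.finrank K J' ≤ Module.finrank K J := by
  classical
  have hb : ∃ m, ∀ J ≤ W, Iso B J → Module.finrank K J ≤ m :=
    ⟨Module.finrank K M, fun J _ _ => Submodule.finrank_le J⟩
  let m := Nat.find hb
  by_contra hcon
  push Not at hcon
  rcases Nat.eq_zero_or_pos m with h0 | h0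
  · obtain ⟨J', hJ', hJ2, hlt⟩ := hcon ⊥ bot_le (fun z hz w _ => by
      rw [(Submodule.mem_bot _).1 hz, map_zero, LinearMap.zero_apply])
    have h1 := Nat.find_spec hb J' hJ' hJ2
    change Module.finrank K J' ≤ m at h1
    omega
  · have h2 : ¬ ∀ J ≤ W, Iso B J → Module.finrank K J ≤ m - 1 :=
      Nat.find_min hb (show m - 1 < m by omega)
    push Not at h2
    obtain ⟨J, hJ, hJ2, hlt⟩ := h2
    obtain ⟨J', hJ', hJ2', hlt'⟩ := hcon J hJ hJ2
    have h1 := Nat.find_spec hb J' hJ' hJ2'
    change Module.finrank K J' ≤ m at h1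
    omega

/-- There are a vertex set `S` hitting all nonempty even subsets of `H` and an isotropic subspace
`I` of the flow space of `H` with `|S| ≤ dim I`.

Proof by strong induction on `|H|`. Let `W = Fl (KK V E) a b H`, and let `J ≤ W` be an isotropic
subspace of maximal dimension `ψ` (exists: dimensions are bounded by `finrank W`).
If `W = ⊥` then `bet a b H = 0` (`finrank_Fl`), there is no nonempty even subset of `H`
(`bet_pos`), and `S = ∅`, `I = ⊥` do it.
If `W ≠ ⊥`: by `lagr` (with `st = starS a b`, `t x e f = tt (x, e, f)`, `Om_apply`, `Om_alt`) it is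
impossible that for every vertex `x` there is an isotropic `I x ≤ Fl (KK V E) a b (H \ starS a b x)`
with `ψ ≤ finrank (I x)` (note `Fl (H \ starS x) ≤ Fl H`, and flows in the former vanish on
`starS x`). So there is `x` such that all isotropic subspaces of `Fl (H \ starS x)` have dimension
`< ψ`. In particular `H ∩ starS x ≠ ∅` (otherwise `J` is one of them), so `H \ starS x` has fewer
edges. Take `S', I'` for it by induction; `|S'| ≤ finrank I' ≤ ψ - 1`. Put `S = insert x S'`,
`I = J`. `S` hits: let `Z ⊆ H` be nonempty and even; if `Z` has an edge at `x`, fine; otherwise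
`Z ⊆ H \ starS x`. -/
theorem hit_iso {a b : E → V} (hne : ∀ e, a e ≠ b e) (H : Finset E) :
    ∃ S : Finset V, Hit a b H S ∧ ∃ I : Submodule (KK V E) (E → KK V E),
      I ≤ Fl (KK V E) a b H ∧ Iso (Om a b) I ∧ S.card ≤ Module.finrank (KK V E) I := by
  induction hn : H.card using Nat.strong_induction_on generalizing H with
  | _ n ih =>
  subst hn
  by_cases hW : Fl (KK V E) a b H = ⊥
  · refine ⟨∅, ?_, ⊥, bot_le, ?_, by simp⟩
    · intro Z hZ hne' hev
      exfalso
      have h1 : 1 ≤ bet a b H := (bet_pos hne H).2 ⟨Z, hZ, hne', hev⟩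
      rw [← finrank_Fl (KK V E) a b H, hW, finrank_bot] at h1
      omega
    · intro z hz w _
      rw [(Submodule.mem_bot _).1 hz, map_zero, LinearMap.zero_apply]
  · obtain ⟨J, hJW, hJ, hJmax⟩ := exists_max_iso (Om a b) (Fl (KK V E) a b H)
    have hx : ∃ x : V, ∀ I ≤ Fl (KK V E) a b (H \ starS a b x), Iso (Om a b) I →
        Module.finrank (KK V E) I < Module.finrank (KK V E) J := by
      by_contra hcon
      push Not at hcon
      choose I hI hI2 hI3 using hcon
      refine hW (lagr (starS a b) (fun e => ⟨a e, mem_starS.2 (Or.inl rfl)⟩)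
        (fun x e f => tt (x, e, f)) (Om a b) (Om_alt a b) (fun z w => Om_apply a b z w)
        (Fl (KK V E) a b H) I (fun x => (hI x).trans (Fl_mono Finset.sdiff_subset)) hI2
        (fun x J' hJ' hJ2 => (hJmax J' hJ' hJ2).trans (hI3 x)) ?_)
      intro x z hz e he
      refine (hI x hz).1 e (fun h => ?_)
      exact (Finset.mem_sdiff.1 h).2 he
    obtain ⟨x, hx⟩ := hx
    have hlt : (H \ starS a b x).card < H.card := by
      refine Finset.card_lt_card (Finset.ssubset_iff_subset_ne.2 ⟨Finset.sdiff_subset, ?_⟩)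
      intro heq
      have h1 := hx J (by rw [heq]; exact hJW) hJ
      exact lt_irrefl _ h1
    obtain ⟨S', hS', I', hI', hI2', hc⟩ := ih _ hlt (H \ starS a b x) rfl
    have h2 := hx I' hI' hI2'
    refine ⟨insert x S', ?_, J, hJW, hJ, ?_⟩
    · intro Z hZ hne' hev
      by_cases hZx : ∃ e ∈ Z, e ∈ starS a b x
      · obtain ⟨e, he, hex⟩ := hZx
        refine ⟨e, he, ?_⟩
        rcases mem_starS.1 hex with h | h
        · exact Or.inl (by rw [h]; exact Finset.mem_insert_self _ _)
        · exact Or.inr (by rw [h]; exact Finset.mem_insert_self _ _)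
      · push Not at hZx
        obtain ⟨e, he, h⟩ := hS' Z (fun e he => Finset.mem_sdiff.2 ⟨hZ he, hZx e he⟩) hne' hev
        exact ⟨e, he, h.imp (Finset.mem_insert_of_mem) (Finset.mem_insert_of_mem)⟩
    · have h3 := Finset.card_insert_le x S'
      omega

end Pool.Agent.helper54.AB
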