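import Mathlib
import Pool.Agent.helper54.AB.Fvs
import Pool.Agent.helper54.AB.Bound

/-! [AB-A7] Small hitting sets (the bound of Kelly and Liu). -/

namespace Pool.Agent.helper54.AB

open Finset Pool.Agent.helper60.ECD

variable {V E : Type} [Fintype V] [Fintype E] [DecidableEq V] [DecidableEq E]

/-- Proof: `hit_iso` gives `S₀` and `I`; `2 |S₀| ≤ 2 dim I ≤ DD0` (`iso_le`, `Om_alt`), so by
`DD0_bound`: `10 |S₀| ≤ 2 |H|` and `14 |S₀| ≤ 2 |U| + 4 bet`. `S = S₀ ∩ U` still hits. -/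
theorem hit_main {a b : E → V} (hne : ∀ e, a e ≠ b e) {C : Finset E} (hC : Sparse a b C)
    {H : Finset E} (hH : H ⊆ C) {U : Finset V} (hU : ∀ e ∈ H, a e ∈ U ∧ b e ∈ U) :
    ∃ S ⊆ U, Hit a b H S ∧ 5 * S.card ≤ H.card ∧ 7 * S.card ≤ U.card + 2 * bet a b H := by
  obtain ⟨S, hS, I, hI, hiso, hcard⟩ := hit_iso hne H
  obtain ⟨h5, h7⟩ := DD0_bound hC H hH U hU
  have h2 := iso_le (Om a b) (Om_alt a b) hI hiso
  have hle : (S ∩ U).card ≤ S.card := card_le_card inter_subset_left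
  unfold DD0 at h5 h7
  refine ⟨S ∩ U, inter_subset_right, ?_, by omega, by omega⟩
  intro Z hZ hne' hev
  obtain ⟨e, he, h⟩ := hS Z hZ hne' hev
  refine ⟨e, he, ?_⟩
  have := hU e (hZ he)
  rcases h with h | h
  · exact Or.inl (mem_inter.2 ⟨h, this.1⟩)
  · exact Or.inr (mem_inter.2 ⟨h, this.2⟩)

/-- A hitting set with a prescribed vertex `z`. If `|H|` is divisible by `5` and some edge of `H` is
at `z` then the prescribed vertex costs nothing. Proof: `hit_main` for `H \ starS a b z` gives `S'`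
with `5 |S'| ≤ |H| - 1`, so `5 |S'| ≤ |H| - 5`; `S = insert z S'`. -/
theorem hit_prescribed {a b : E → V} (hne : ∀ e, a e ≠ b e) {C : Finset E} (hC : Sparse a b C)
    {H : Finset E} (hH : H ⊆ C) {U : Finset V} (hU : ∀ e ∈ H, a e ∈ U ∧ b e ∈ U)
    (h5 : 5 ∣ H.card) {z : V} (hz : z ∈ U) (hz' : (H ∩ starS a b z).Nonempty) :
    ∃ S ⊆ U, z ∈ S ∧ Hit a b H S ∧ 5 * S.card ≤ H.card := by
  obtain ⟨S, hSU, hS, h1, -⟩ := hit_main hne hC (H := H \ starS a b z)
    (sdiff_subset.trans hH) (U := U) (fun e he => hU e (mem_sdiff.1 he).1)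
  refine ⟨insert z S, insert_subset hz hSU, mem_insert_self _ _, ?_, ?_⟩
  · intro Z hZ hne' hev
    by_cases h : ∃ e ∈ Z, e ∈ starS a b z
    · obtain ⟨e, he, hez⟩ := h
      refine ⟨e, he, ?_⟩
      rw [mem_starS] at hez
      rcases hez with h | h
      · exact Or.inl (h ▸ mem_insert_self _ _)
      · exact Or.inr (h ▸ mem_insert_self _ _)
    · push Not at h
      obtain ⟨e, he, h2⟩ := hS Z (fun e he => mem_sdiff.2 ⟨hZ he, h e he⟩) hne' hev
      exact ⟨e, he, h2.imp (fun h => mem_insert_of_mem h) (fun h => mem_insert_of_mem h)⟩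
  · have h2 : (insert z S).card ≤ S.card + 1 := card_insert_le _ _
    have h3 := card_sdiff_add_card_inter H (starS a b z)
    have h4 := card_pos.2 hz'
    obtain ⟨k, hk⟩ := h5
    omega

end Pool.Agent.helper54.AB
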