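import Mathlib
import Pool.Agent.helper54.AB.MainM
import Pool.Agent.helper54.AB.Leaf
import Pool.Agent.helper54.AB.Asm
import Pool.Agent.helper54.AB.Flip
import Pool.Agent.helper54.AB.Arith2
import Pool.Agent.helper54.LFP.Final

/-! [AB-F] Planar graphs have induced forests on at least `1067 n / 2667` vertices. -/

namespace Pool.Agent.helper54.AB

open Finset Pool.Agent.helper60.ECD Pool.Agent.helper54.LFP

variable {V : Type} [Fintype V] [DecidableEq V] {T : SphereTri V} {D : Ends T} (c : Cfg D)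

namespace Cfg

/-- the abstract data of the tree of components -/
noncomputable def arr (hc : c.Flip) : Arr c.Q where
  nb K := univ.filter (fun L => c.Nb K L)
  symm K L h := by
    rw [mem_filter] at h ⊢
    exact ⟨mem_univ _, c.Nb_symm h.2⟩
  irr K h := by
    rw [mem_filter] at h
    exact h.2.1 rfl
  m K := (c.EK K).card
  vv K := (c.VK K).card
  tau := c.tau
  n := Fintype.card V
  sum_v := c.sum_VK
  sum_m := by rw [c.sum_EK, c.Mo_card]
  deg_eq K := c.deg_eq K
  deg_pos K := c.deg_pos K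
  conn P hP K₀ h0 K := c.conn P (fun K L h => hP K L (mem_filter.2 ⟨mem_univ _, h⟩)) h0 K
  tau_sum K := c.tau_sum K
  tau_nb K L h := c.tau_nb (fun h' => h (mem_filter.2 ⟨mem_univ _, h'⟩))
  tau_five K h L hL := c.tau_five h (mem_filter.1 hL).2
  exc K h := c.exc_nonneg h
  five K h := c.five_main hc h

theorem mem_arr_nb (hc : c.Flip) {K L : c.Q} : L ∈ (c.arr hc).nb K ↔ c.Nb K L := by
  simp [arr]

theorem arr_dg (hc : c.Flip) (K : c.Q) : (c.arr hc).dg K = c.deg K := rfl

theorem arr_s (hc : c.Flip) (K : c.Q) : (c.arr hc).s K = c.s K := by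
  unfold Arr.s Arr.ntn Cfg.s
  congr 1
  ext L
  simp only [mem_filter, mem_arr_nb, arr_dg, mem_univ, true_and]

theorem arr_fine (hc : c.Flip) (K : c.Q) : (c.arr hc).Fine K ↔ c.Fine K := by
  unfold Arr.Fine Cfg.Fine
  simp only [mem_arr_nb, arr_dg]
  rfl

theorem EK_sub (K : c.Q) : c.EK K ⊆ Mo D c.x := filter_subset _ _

theorem EK_ends {K : c.Q} {e : TE T} (he : e ∈ c.EK K) : D.a0 e ∈ c.VK K ∧ D.b0 e ∈ c.VK K := by
  rw [mem_EK] at he
  rw [mem_VK, mem_VK]
  exact ⟨he.2, by rw [← c.cmp_edge he.1]; exact he.2⟩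

/-- a vertex of a nontree component is on an edge of the component -/
theorem exists_edge {K : c.Q} {z : V} (hz : c.cmp z = K) (h2 : 2 ≤ c.deg K) :
    (c.EK K ∩ starS D.a0 D.b0 z).Nonempty := by
  by_contra hne
  rw [not_nonempty_iff_eq_empty] at hne
  have h1 : ∀ e ∈ Mo D c.x, decide (D.a0 e = z) = decide (D.b0 e = z) := by
    intro e he
    have hno : ¬ (D.a0 e = z ∨ D.b0 e = z) := by
      intro h
      have h3 : e ∈ c.EK K ∩ starS D.a0 D.b0 z := by
        rw [mem_inter, mem_starS, mem_EK]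
        refine ⟨⟨he, ?_⟩, h⟩
        rcases h with h | h
        · rw [h, hz]
        · rw [c.cmp_edge he, h, hz]
      rw [hne] at h3
      exact notMem_empty _ h3
    rw [not_or] at hno
    simp [hno.1, hno.2]
  have h3 : c.VK K = {z} := by
    ext v
    rw [c.mem_VK, mem_singleton]
    constructor
    · intro h
      have h4 := c.cmp_lift (fun v => decide (v = z)) h1 (h.trans hz.symm)
      simpa using h4
    · rintro rfl
      exact hz
  have h4 : c.EK K = ∅ := by
    rw [eq_empty_iff_forall_notMem]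
    intro e he
    have h5 := (c.EK_ends he)
    rw [h3, mem_singleton, mem_singleton] at h5
    exact D.ne0 e (h5.1.trans h5.2.symm)
  have h5 := c.deg_eq K
  rw [h3, h4, card_empty, card_singleton] at h5
  omega

/-- a small hitting set in every component -/
theorem small_hit (K : c.Q) (h : 2 ≤ c.deg K) : ∃ S ⊆ c.VK K, Hit D.a0 D.b0 (c.EK K) S ∧
    14 * S.card ≤ 7 * c.deg K + (2 * (c.EK K).card - 5 * c.deg K) := by
  obtain ⟨S, hSU, hS, -, h7⟩ := hit_main D.ne0 (sparse c) (c.EK_sub K) (U := c.VK K)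
    (fun e he => c.EK_ends he)
  refine ⟨S, hSU, hS, ?_⟩
  have h1 := c.deg_eq K
  have h2 := c.bet_deg K
  have h3 := c.exc_nonneg h
  omega

theorem small_hit' (K : c.Q) : ∃ S : Finset V, Hit D.a0 D.b0 (c.EK K) S ∧
    (2 ≤ c.deg K → 14 * S.card ≤ 7 * c.deg K + (2 * (c.EK K).card - 5 * c.deg K)) ∧
    (¬ 2 ≤ c.deg K → S = ∅) := by
  by_cases h : 2 ≤ c.deg K
  · obtain ⟨S, -, hS, h14⟩ := c.small_hit K h
    exact ⟨S, hS, fun _ => h14, fun h' => absurd h h'⟩
  · refine ⟨∅, c.hit_tree ?_, fun h' => absurd h' h, fun _ => rfl⟩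
    have := c.deg_pos K
    omega

theorem count_S (hc : c.Flip) (S : c.Q → Finset V)
    (h1 : ∀ K, 2 ≤ c.deg K → 14 * (S K).card ≤ 7 * c.deg K + (2 * (c.EK K).card - 5 * c.deg K))
    (h2 : ∀ K, ¬ 2 ≤ c.deg K → S K = ∅) :
    14 * (univ.biUnion S).card ≤ 7 * ∑ K ∈ (c.arr hc).NT, (c.arr hc).dg K + (c.arr hc).X := by
  have h3 : (univ.biUnion S).card ≤ ∑ K, (S K).card := card_biUnion_le
  have h4 : ∑ K, (S K).card = ∑ K ∈ (c.arr hc).NT, (S K).card := by
    symm
    refine sum_subset (subset_univ _) fun K _ hK => ?_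
    rw [h2 K, card_empty]
    intro h
    exact hK (mem_filter.2 ⟨mem_univ _, h⟩)
  have h5 : 14 * ∑ K ∈ (c.arr hc).NT, (S K).card ≤
      7 * ∑ K ∈ (c.arr hc).NT, (c.arr hc).dg K + (c.arr hc).X := by
    unfold Arr.X
    rw [mul_sum, mul_sum, ← sum_add_distrib]
    refine sum_le_sum fun K hK => ?_
    exact h1 K (mem_filter.1 hK).2
  omega

/-- assembly with the counting of the hitting sets -/
theorem finish (hc : c.Flip) (hN : (c.arr hc).NT.Nonempty) (S : c.Q → Finset V) (W : Finset V)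
    (h0 : ∀ K, Hit D.a0 D.b0 (c.EK K) (S K))
    (h1 : ∀ K, 2 ≤ c.deg K → 14 * (S K).card ≤ 7 * c.deg K + (2 * (c.EK K).card - 5 * c.deg K))
    (h2 : ∀ K, ¬ 2 ≤ c.deg K → S K = ∅)
    (hW : ∀ w ∈ W, ∀ w' ∈ W, c.cmp w = c.cmp w' → w = w')
    (hok : ∀ w ∈ W, c.Ok (univ.biUnion S) w) :
    ∃ F1 F2 : Finset V, (T.graph.induce (F1 : Set V)).IsAcyclic ∧
      (T.graph.induce (F2 : Set V)).IsAcyclic ∧
      28 * Fintype.card V + (c.arr hc).X + 7 * (c.arr hc).Y + 14 + 35 * W.card ≤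
        35 * (F1.card + F2.card) := by
  obtain ⟨F1, F2, hF1, hF2, hcard⟩ := c.assembly (c.hit_union S h0) hW hok
  refine ⟨F1, F2, hF1, hF2, ?_⟩
  have h3 := (c.arr hc).final hN (c.count_S hc S h1 h2)
  have h4 : (c.arr hc).n = Fintype.card V := rfl
  rw [h4] at h3
  omega

/-- the leaves -/
theorem case_leaf (hc : c.Flip) (hN : (c.arr hc).NT.Nonempty) :
    ∃ F1 F2 : Finset V, (T.graph.induce (F1 : Set V)).IsAcyclic ∧
      (T.graph.induce (F2 : Set V)).IsAcyclic ∧
      28 * Fintype.card V + (c.arr hc).X + 7 * (c.arr hc).Y + 14 + 35 * (c.arr hc).Lf.card ≤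
        35 * (F1.card + F2.card) := by
  choose S h0 h1 h2 using c.small_hit'
  have hS := c.hit_union S h0
  have hw : ∀ K : c.Q, ∃ w, K ∈ (c.arr hc).Lf → c.cmp w = K ∧ c.Ok (univ.biUnion S) w := by
    intro K
    by_cases hK : K ∈ (c.arr hc).Lf
    · have hK' := mem_filter.1 hK
      obtain ⟨w, hw1, hw2⟩ := c.leaf_gain hc (K := K) (mem_filter.1 hK'.1).2
        ((c.arr_fine hc K).1 hK'.2.1) (by rw [← c.arr_s hc]; exact hK'.2.2) hS
      exact ⟨w, fun _ => ⟨hw1, hw2⟩⟩
    · obtain ⟨w, -⟩ := c.cmp_surj K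
      exact ⟨w, fun h => absurd h hK⟩
  choose w hw using hw
  obtain ⟨F1, F2, hF1, hF2, hcard⟩ := c.finish hc hN S ((c.arr hc).Lf.image w) h0 h1 h2
    (by
      intro u hu v hv huv
      rw [mem_image] at hu hv
      obtain ⟨K, hK, rfl⟩ := hu
      obtain ⟨L, hL, rfl⟩ := hv
      rw [(hw K hK).1, (hw L hL).1] at huv
      rw [huv])
    (by
      intro u hu
      rw [mem_image] at hu
      obtain ⟨K, hK, rfl⟩ := hu
      exact (hw K hK).2)
  refine ⟨F1, F2, hF1, hF2, ?_⟩
  have hinj : ((c.arr hc).Lf.image w).card = (c.arr hc).Lf.card := by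
    refine card_image_of_injOn fun K hK L hL hKL => ?_
    rw [← (hw K hK).1, ← (hw L hL).1]
    exact congrArg c.cmp hKL
  rw [hinj] at hcard
  exact hcard

/-- the hosts -/
theorem case_host (hc : c.Flip) (hN : (c.arr hc).NT.Nonempty) (G3 : Finset c.Q)
    (hG : G3 ⊆ (c.arr hc).G2)
    (hG' : ∀ L ∈ G3, ∀ L' ∈ G3, ∀ K ∈ (c.arr hc).ntn L, K ∈ (c.arr hc).ntn L' → L = L') :
    ∃ F1 F2 : Finset V, (T.graph.induce (F1 : Set V)).IsAcyclic ∧
      (T.graph.induce (F2 : Set V)).IsAcyclic ∧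
      28 * Fintype.card V + (c.arr hc).X + 7 * (c.arr hc).Y + 14 + 35 * G3.card ≤
        35 * (F1.card + F2.card) := by
  -- the vertices `u L`
  have hu : ∀ L : c.Q, ∃ u, L ∈ G3 → c.cmp u = L ∧
      (∀ K, c.Nb L K → 2 ≤ c.deg K → c.r K u ≤ 2) ∧
      ∀ R, c.Nb L R → c.deg R = 1 → c.r R u ≤ 1 := by
    intro L
    by_cases hL : L ∈ G3
    · have hL' := mem_filter.1 (hG hL)
      obtain ⟨u, hu⟩ := c.host_vertex (L := L) (mem_filter.1 hL'.1).2
        ((c.arr_fine hc L).1 hL'.2.1) (by rw [← c.arr_s hc]; exact hL'.2.2.1)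
      exact ⟨u, fun _ => hu⟩
    · obtain ⟨u, -⟩ := c.cmp_surj L
      exact ⟨u, fun h => absurd h hL⟩
  choose u hu using hu
  -- the hitting sets
  have hS : ∀ K : c.Q, ∃ S : Finset V, Hit D.a0 D.b0 (c.EK K) S ∧
      (2 ≤ c.deg K → 14 * S.card ≤ 7 * c.deg K + (2 * (c.EK K).card - 5 * c.deg K)) ∧
      (¬ 2 ≤ c.deg K → S = ∅) ∧
      ∀ L ∈ G3, c.Nb L K → 2 ≤ c.deg K → (c.NL K (u L)).Nonempty → (c.NL K (u L) ∩ S).Nonempty := by
    intro K
    by_cases hK : ∃ L ∈ G3, c.Nb L K ∧ 2 ≤ c.deg K ∧ (c.NL K (u L)).Nonempty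
    · obtain ⟨L, hL, hLK, h2, z, hz⟩ := hK
      have hntn : ∀ L', c.Nb L' K → K ∈ (c.arr hc).ntn L' := fun L' h =>
        mem_filter.2 ⟨(c.mem_arr_nb hc).2 h, h2⟩
      have hexc := ((mem_filter.1 (hG hL)).2.2.2 K (hntn L hLK)).2
      have hexc' : 2 * (c.EK K).card = 5 * c.deg K := hexc
      have hzK : c.cmp z = K := (c.mem_NL.1 hz).1
      obtain ⟨S, -, hzS, hS, h5⟩ := hit_prescribed D.ne0 (sparse c) (c.EK_sub K) (U := c.VK K)
        (fun e he => c.EK_ends he) (by omega) (c.mem_VK.2 hzK) (c.exists_edge hzK h2)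
      refine ⟨S, hS, fun _ => by omega, fun h => absurd h2 h, ?_⟩
      intro L' hL' hLK' _ _
      have : L = L' := hG' L hL L' hL' K (hntn L hLK) (hntn L' hLK')
      subst this
      exact ⟨z, mem_inter.2 ⟨hz, hzS⟩⟩
    · obtain ⟨S, hS, h1, h2⟩ := c.small_hit' K
      exact ⟨S, hS, h1, h2, fun L hL h3 h4 h5 => absurd ⟨L, hL, h3, h4, h5⟩ hK⟩
  choose S h0 h1 h2 h3 using hS
  obtain ⟨F1, F2, hF1, hF2, hcard⟩ := c.finish hc hN S (G3.image u) h0 h1 h2
    (by
      intro p hp q hq hpq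
      rw [mem_image] at hp hq
      obtain ⟨K, hK, rfl⟩ := hp
      obtain ⟨L, hL, rfl⟩ := hq
      rw [(hu K hK).1, (hu L hL).1] at hpq
      rw [hpq])
    (by
      intro p hp
      rw [mem_image] at hp
      obtain ⟨L, hL, rfl⟩ := hp
      intro K hKL
      rw [(hu L hL).1] at hKL
      by_cases hne : (c.NL K (u L)).Nonempty
      · have hnb : c.Nb L K := by
          obtain ⟨z, hz⟩ := hne
          obtain ⟨hz1, e, he⟩ := c.mem_NL.1 hz
          have := c.Nb_of_edge he (by rw [(hu L hL).1, hz1]; exact hKL.symm)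
          rw [(hu L hL).1, hz1] at this
          exact this
        by_cases hd : 2 ≤ c.deg K
        · have h4 := h3 K L hL hnb hd hne
          have h5 : (c.NL K (u L)).card ≤ 2 := (hu L hL).2.1 K hnb hd
          obtain ⟨z, hz⟩ := h4
          rw [mem_inter] at hz
          have hz' : z ∈ c.NL K (u L) ∩ univ.biUnion S :=
            mem_inter.2 ⟨hz.1, mem_biUnion.2 ⟨K, mem_univ _, hz.2⟩⟩
          have h6 := card_sdiff_add_card_inter (c.NL K (u L)) (univ.biUnion S)
          have h7 := card_pos.2 ⟨z, hz'⟩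
          omega
        · have h5 : (c.NL K (u L)).card ≤ 1 := (hu L hL).2.2 K hnb (by
            have := c.deg_pos K
            omega)
          exact (card_le_card sdiff_subset).trans h5
      · rw [not_nonempty_iff_eq_empty] at hne
        rw [hne]
        simp)
  refine ⟨F1, F2, hF1, hF2, ?_⟩
  have hinj : (G3.image u).card = G3.card := by
    refine card_image_of_injOn fun K hK L hL hKL => ?_
    rw [← (hu K hK).1, ← (hu L hL).1]
    exact congrArg c.cmp hKL
  rw [hinj] at hcard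
  exact hcard

end Cfg

/-- the main theorem for triangulated spheres -/
theorem tri_forests (T : SphereTri V) : ∃ F : Finset V, (T.graph.induce (F : Set V)).IsAcyclic ∧
    1067 * Fintype.card V ≤ 2667 * F.card := by
  obtain ⟨D⟩ := exists_ends T
  obtain ⟨c, hc⟩ := exists_flip D
  suffices h : ∃ F1 F2 : Finset V, (T.graph.induce (F1 : Set V)).IsAcyclic ∧
      (T.graph.induce (F2 : Set V)).IsAcyclic ∧
      2134 * Fintype.card V ≤ 2667 * (F1.card + F2.card) by
    obtain ⟨F1, F2, h1, h2, h3⟩ := h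
    rcases le_total F1.card F2.card with h | h
    · exact ⟨F2, h2, by omega⟩
    · exact ⟨F1, h1, by omega⟩
  by_cases hN : (c.arr hc).NT.Nonempty
  · by_cases hN2 : 2 ≤ (c.arr hc).NT.card
    · obtain ⟨G3, hG1, hG2, hG3⟩ := (c.arr hc).exists_G3
      obtain ⟨F1, F2, hF1, hF2, hF⟩ := c.case_leaf hc hN
      obtain ⟨F3, F4, hF3, hF4, hF'⟩ := c.case_host hc hN G3 hG1 hG3
      have k1 := (c.arr hc).n_le hN
      have k2 := (c.arr hc).card_Lf hN
      have k3 := (c.arr hc).card_G2 hN2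
      have k4 : (c.arr hc).n = Fintype.card V := rfl
      rw [k4] at k1
      by_cases h : 2134 * Fintype.card V ≤ 2667 * (F1.card + F2.card)
      · exact ⟨F1, F2, hF1, hF2, h⟩
      · exact ⟨F3, F4, hF3, hF4, by omega⟩
    · obtain ⟨F1, F2, hF1, hF2, hF⟩ := c.case_leaf hc hN
      have k1 := (c.arr hc).n_le hN
      have k4 : (c.arr hc).n = Fintype.card V := rfl
      rw [k4] at k1
      exact ⟨F1, F2, hF1, hF2, by omega⟩
  · -- no cycles at all
    have hd : ∀ K, c.deg K = 1 := by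
      intro K
      have h1 := c.deg_pos K
      by_contra h2
      exact hN ⟨K, mem_filter.2 ⟨mem_univ _, by
        rw [c.arr_dg hc]
        omega⟩⟩
    obtain ⟨F1, F2, hF1, hF2, hF⟩ := c.assembly
      (c.hit_union (fun _ => ∅) fun K => c.hit_tree (hd K)) (W := ∅) (by simp) (by simp)
    refine ⟨F1, F2, hF1, hF2, ?_⟩
    have : (univ.biUnion (fun _ : c.Q => (∅ : Finset V))).card = 0 := by
      rw [card_eq_zero]
      ext v
      simp
    rw [this, card_empty] at hF
    omega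

/-- the main theorem -/
theorem main_forest (G : SimpleGraph V) (hG : IsPlanar G) :
    ∃ F : Finset V, (G.induce (F : Set V)).IsAcyclic ∧ 1067 * Fintype.card V ≤ 2667 * F.card := by
  classical
  rcases hG with h3 | ⟨T, hT⟩
  · obtain ⟨S, -, hS⟩ := exists_subset_card_eq (s := (univ : Finset V))
      (n := min (Fintype.card V) 2) (by rw [card_univ]; exact min_le_left _ _)
    refine ⟨S, acyclic_of_degenerate G S ?_, by omega⟩
    intro Z hZ hne
    obtain ⟨v, hv⟩ := hne
    refine ⟨v, hv, ?_⟩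
    have h1 : Z.filter (fun w => G.Adj v w) ⊆ Z.erase v := by
      intro w hw
      rw [mem_filter] at hw
      exact mem_erase.2 ⟨fun h => hw.2.ne h.symm, hw.1⟩
    have h2 := card_le_card h1
    rw [card_erase_of_mem hv] at h2
    have h3 := card_le_card hZ
    omega
  · obtain ⟨F, hF, hcard⟩ := tri_forests T
    refine ⟨F, ?_, hcard⟩
    have hle : G.induce (F : Set V) ≤ T.graph.induce (F : Set V) := fun u v h => hT h
    exact hF.anti hle

end Pool.Agent.helper54.AB
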